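import Pool.Agent.H8C2.StmB

/-!
Project H8C2: assembly, first part: the invariants of the amalgam.
-/

set_option autoImplicit false

namespace Pool.Agent.H8C2

open Set

variable {Q Θ X V : Type}

theorem gg_inr {D : Dat Q Θ} {t : X → Q} {g : X → X → Θ} {s : V → V → Option Θ}
    {h : V × ℕ → V × ℕ → Θ} {r : V × ℕ → X} (x y : V × ℕ) :
    gg D t g s h r (.inr x) (.inr y) = if x.2 = y.2 then (s x.1 y.1).getD (h x y) else h x y := rfl

theorem gg_non {D : Dat Q Θ} {t : X → Q} {g : X → X → Θ} {s : V → V → Option Θ}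
    {h : V × ℕ → V × ℕ → Θ} {r : V × ℕ → X} {x y : V × ℕ} (hN : Non s x y) :
    gg D t g s h r (.inr x) (.inr y) = h x y := by
  rw [gg_inr]
  by_cases h1 : x.2 = y.2
  · have h2 : s x.1 y.1 = none := by
      by_contra h3
      exact hN.2 ⟨h1, h3⟩
    rw [if_pos h1, h2]
    rfl
  · rw [if_neg h1]

theorem gg_adj {D : Dat Q Θ} {t : X → Q} {g : X → X → Θ} {s : V → V → Option Θ}
    {h : V × ℕ → V × ℕ → Θ} {r : V × ℕ → X} {x y : V × ℕ} {θ : Θ} (h1 : x.2 = y.2)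
    (h2 : s x.1 y.1 = some θ) :
    gg D t g s h r (.inr x) (.inr y) = θ := by
  rw [gg_inr, if_pos h1, h2]
  rfl

/-- The pair is generic iff it is not an edge. -/
theorem gg_bi {D : Dat Q Θ} {t : X → Q} {g : X → X → Θ} {τ : V → Q} {s : V → V → Option Θ}
    {h : V × ℕ → V × ℕ → Θ} {r : V × ℕ → X} (hS : Sparse D τ s) (hC : Col D τ s h)
    {x y : V × ℕ} (hxy : x ≠ y) :
    D.Bi (τ x.1) (gg D t g s h r (.inr x) (.inr y)) (τ y.1) ↔ Non s x y := by
  constructor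
  · intro hb
    refine ⟨hxy, ?_⟩
    rintro ⟨h1, h2⟩
    obtain ⟨θ, hθ⟩ := Option.ne_none_iff_exists'.1 h2
    rw [gg_adj h1 hθ] at hb
    exact hS.spar _ _ _ hθ hb
  · intro hN
    rw [gg_non hN]
    exact hC.bi _ _ hN

/-- The first invariant for labelled structures. -/
def LInvA {Y : Type} (p q : Q) (B : Set Θ) (t : Y → Q) (g : Y → Y → Θ) (n : ℕ) : Prop :=
  ∃ x, t x = p ∧ {x' | t x' = p ∧ {y | t y = q ∧ y ≠ x ∧ y ≠ x' ∧ g x y ∈ B ∧ g x' y ∈ B ∧
    g x y ≠ g x' y}.Finite}.encard = n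

theorem linvA_amalgam {D : Dat Q Θ} {t : X → Q} {g : X → X → Θ} {τ : V → Q} {s : V → V → Option Θ}
    {h : V × ℕ → V × ℕ → Θ} {r : V × ℕ → X} (hS : Sparse D τ s) (hC : Col D τ s h)
    {p q : Q} (hp : D.c p = ⊤) (hq : D.c q = ⊤) (n : ℕ) :
    LInvA p q {θ | D.Bi p θ q} (tt D t τ) (gg D t g s h r) n ↔
      ∃ x : V × ℕ, τ x.1 = p ∧ {x' : V × ℕ | τ x'.1 = p ∧
        {y : V × ℕ | τ y.1 = q ∧ Non s x y ∧ Non s x' y ∧ h x y ≠ h x' y}.Finite}.encard = n := by
  have key : ∀ x x' : V × ℕ, τ x.1 = p → τ x'.1 = p →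
      {y | tt D t τ y = q ∧ y ≠ Sum.inr x ∧ y ≠ Sum.inr x' ∧
        gg D t g s h r (.inr x) y ∈ {θ | D.Bi p θ q} ∧
        gg D t g s h r (.inr x') y ∈ {θ | D.Bi p θ q} ∧
        gg D t g s h r (.inr x) y ≠ gg D t g s h r (.inr x') y} =
      Sum.inr '' {y : V × ℕ | τ y.1 = q ∧ Non s x y ∧ Non s x' y ∧ h x y ≠ h x' y} := by
    intro x x' hx hx'
    ext y
    constructor
    · rintro ⟨h1, h2, h3, h4, h5, h6⟩
      rcases y with a | y
      · exact (a.2 (by rw [show t a.1 = q from h1, hq])).elim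
      · have hy : τ y.1 = q := h1
        have n1 : x ≠ y := fun e => h2 (by rw [e])
        have n2 : x' ≠ y := fun e => h3 (by rw [e])
        have b1 : Non s x y := (gg_bi hS hC n1 (t := t) (g := g) (r := r)).1 (by
          rw [hx, hy]; exact h4)
        have b2 : Non s x' y := (gg_bi hS hC n2 (t := t) (g := g) (r := r)).1 (by
          rw [hx', hy]; exact h5)
        rw [gg_non b1, gg_non b2] at h6
        exact ⟨y, ⟨hy, b1, b2, h6⟩, rfl⟩
    · rintro ⟨y, ⟨hy, b1, b2, h6⟩, rfl⟩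
      refine ⟨hy, fun e => b1.1 (Sum.inr.inj e).symm, fun e => b2.1 (Sum.inr.inj e).symm, ?_, ?_, ?_⟩
      · have := (gg_bi hS hC b1.1 (t := t) (g := g) (r := r)).2 b1
        rw [hx, hy] at this
        exact this
      · have := (gg_bi hS hC b2.1 (t := t) (g := g) (r := r)).2 b2
        rw [hx', hy] at this
        exact this
      · rw [gg_non b1, gg_non b2]
        exact h6
  have key2 : ∀ x : V × ℕ, τ x.1 = p →
      {x' | tt D t τ x' = p ∧ {y | tt D t τ y = q ∧ y ≠ Sum.inr x ∧ y ≠ x' ∧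
        gg D t g s h r (.inr x) y ∈ {θ | D.Bi p θ q} ∧
        gg D t g s h r x' y ∈ {θ | D.Bi p θ q} ∧
        gg D t g s h r (.inr x) y ≠ gg D t g s h r x' y}.Finite} =
      Sum.inr '' {x' : V × ℕ | τ x'.1 = p ∧
        {y : V × ℕ | τ y.1 = q ∧ Non s x y ∧ Non s x' y ∧ h x y ≠ h x' y}.Finite} := by
    intro x hx
    ext x'
    constructor
    · rintro ⟨h1, h2⟩
      rcases x' with a | x'
      · exact (a.2 (by rw [show t a.1 = p from h1, hp])).elim
      · have hx' : τ x'.1 = p := h1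
        rw [key x x' hx hx'] at h2
        exact ⟨x', ⟨hx', Set.Finite.of_finite_image h2 (Sum.inr_injective.injOn)⟩, rfl⟩
    · rintro ⟨x', ⟨hx', h2⟩, rfl⟩
      refine ⟨hx', ?_⟩
      rw [key x x' hx hx']
      exact h2.image _
  constructor
  · rintro ⟨x, h1, h2⟩
    rcases x with a | x
    · exact (a.2 (by rw [show t a.1 = p from h1, hp])).elim
    · have hx : τ x.1 = p := h1
      rw [key2 x hx, Sum.inr_injective.encard_image] at h2
      exact ⟨x, hx, h2⟩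
  · rintro ⟨x, hx, h2⟩
    refine ⟨Sum.inr x, hx, ?_⟩
    rw [key2 x hx, Sum.inr_injective.encard_image]
    exact h2

/-- Transport of the first invariant along a bijection. -/
theorem linvA_equiv {Y Y' : Type} (e : Y ≃ Y') {p q : Q} {B : Set Θ} {t : Y → Q} {g : Y → Y → Θ}
    {t' : Y' → Q} {g' : Y' → Y' → Θ} (ht : ∀ y, t' (e y) = t y)
    (hg : ∀ y z, y ≠ z → g' (e y) (e z) = g y z) (n : ℕ) :
    LInvA p q B t' g' n ↔ LInvA p q B t g n := by
  have key : ∀ x x' : Y, {y | t' y = q ∧ y ≠ e x ∧ y ≠ e x' ∧ g' (e x) y ∈ B ∧ g' (e x') y ∈ B ∧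
      g' (e x) y ≠ g' (e x') y} = e '' {y | t y = q ∧ y ≠ x ∧ y ≠ x' ∧ g x y ∈ B ∧ g x' y ∈ B ∧
      g x y ≠ g x' y} := by
    intro x x'
    ext y
    obtain ⟨y, rfl⟩ := e.surjective y
    rw [e.injective.mem_set_image]
    simp only [mem_ofPred_eq, ht, ne_eq, e.injective.eq_iff]
    constructor
    · rintro ⟨h1, h2, h3, h4⟩
      rw [hg x y fun h => h2 h.symm, hg x' y fun h => h3 h.symm] at h4
      exact ⟨h1, h2, h3, h4⟩
    · rintro ⟨h1, h2, h3, h4⟩
      refine ⟨h1, h2, h3, ?_⟩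
      rw [hg x y fun h => h2 h.symm, hg x' y fun h => h3 h.symm]
      exact h4
  have key2 : ∀ x : Y, {x' | t' x' = p ∧ {y | t' y = q ∧ y ≠ e x ∧ y ≠ x' ∧ g' (e x) y ∈ B ∧
      g' x' y ∈ B ∧ g' (e x) y ≠ g' x' y}.Finite} =
      e '' {x' | t x' = p ∧ {y | t y = q ∧ y ≠ x ∧ y ≠ x' ∧ g x y ∈ B ∧ g x' y ∈ B ∧
      g x y ≠ g x' y}.Finite} := by
    intro x
    ext x'
    obtain ⟨x', rfl⟩ := e.surjective x'
    rw [e.injective.mem_set_image]
    show (t' (e x') = p ∧ _) ↔ (t x' = p ∧ _)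
    rw [ht]
    have := key x x'
    rw [this, Set.finite_image_iff e.injective.injOn]
  constructor
  · rintro ⟨x, h1, h2⟩
    obtain ⟨x, rfl⟩ := e.surjective x
    rw [key2 x, e.injective.encard_image] at h2
    exact ⟨x, by rw [← ht]; exact h1, h2⟩
  · rintro ⟨x, h1, h2⟩
    refine ⟨e x, by rw [ht]; exact h1, ?_⟩
    rw [key2 x, e.injective.encard_image]
    exact h2

/-- The second invariant for labelled structures. -/
def LInvB {Y : Type} (E : Set (Q × Θ × Q)) (t : Y → Q) (g : Y → Y → Θ) (n : ℕ) : Prop :=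
  3 ≤ n ∧ ∃ f : ZMod n → Y, Function.Injective f ∧
    ∀ i, (t (f i), g (f i) (f (i + 1)), t (f (i + 1))) ∈ E

theorem zmod_ne {n : ℕ} (hn : 3 ≤ n) (i : ZMod n) : i ≠ i + 1 := by
  intro h
  have h1 : (1 : ZMod n) = 0 := by
    have := congrArg (fun z => z - i) h
    simpa using this.symm
  have : Fact (1 < n) := ⟨by omega⟩
  exact one_ne_zero h1

theorem linvB_equiv {Y Y' : Type} (e : Y ≃ Y') {E : Set (Q × Θ × Q)} {t : Y → Q} {g : Y → Y → Θ}
    {t' : Y' → Q} {g' : Y' → Y' → Θ} (ht : ∀ y, t' (e y) = t y)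
    (hg : ∀ y z, y ≠ z → g' (e y) (e z) = g y z) (n : ℕ) :
    LInvB E t' g' n ↔ LInvB E t g n := by
  constructor
  · rintro ⟨hn, f, hf, h⟩
    refine ⟨hn, fun i => e.symm (f i), fun i j hij => hf (e.symm.injective hij), fun i => ?_⟩
    have h1 := h i
    have h2 := hg (e.symm (f i)) (e.symm (f (i + 1))) (fun hh =>
      zmod_ne hn i (hf (e.symm.injective hh)))
    rw [e.apply_symm_apply, e.apply_symm_apply] at h2
    rw [← h2, ← ht, ← ht, e.apply_symm_apply, e.apply_symm_apply]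
    exact h1
  · rintro ⟨hn, f, hf, h⟩
    refine ⟨hn, fun i => e (f i), fun i j hij => hf (e.injective hij), fun i => ?_⟩
    rw [ht, ht, hg _ _ fun hh => zmod_ne hn i (hf hh)]
    exact h i

theorem linvB_amalgam {D : Dat Q Θ} {t : X → Q} {g : X → X → Θ} {τ : V → Q} {s : V → V → Option Θ}
    {h : V × ℕ → V × ℕ → Θ} {r : V × ℕ → X} (hS : Sparse D τ s) (hC : Col D τ s h)
    {E : Set (Q × Θ × Q)} (hE : ∀ p θ q, (p, θ, q) ∈ E → D.c p = ⊤ ∧ D.c q = ⊤ ∧ ¬ D.Bi p θ q)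
    (hE' : ∀ (v w : V) (θ : Θ), ¬ D.Bi (τ v) θ (τ w) → (τ v, θ, τ w) ∈ E) (n : ℕ) :
    LInvB E (tt D t τ) (gg D t g s h r) n ↔ HasCyc s n := by
  constructor
  · rintro ⟨hn, f, hf, h1⟩
    refine ⟨hn, ?_⟩
    have h2 : ∀ i, ∃ x : V × ℕ, f i = Sum.inr x := by
      intro i
      have h3 := (hE _ _ _ (h1 i)).1
      rcases hfi : f i with a | x
      · rw [hfi] at h3
        exact (a.2 h3).elim
      · exact ⟨x, rfl⟩
    choose x hx using h2
    have hxi : Function.Injective x := fun i j hij => hf (by rw [hx, hx, hij])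
    have h4 : ∀ i, (x i).2 = (x (i + 1)).2 ∧ s (x i).1 (x (i + 1)).1 ≠ none := by
      intro i
      have h5 := (hE _ _ _ (h1 i)).2.2
      rw [hx i, hx (i + 1)] at h5
      have hne : x i ≠ x (i + 1) := fun hh => zmod_ne hn i (hxi hh)
      have h6 := (gg_bi hS hC hne (t := t) (g := g) (r := r)).not.1 h5
      by_contra h7
      exact h6 ⟨hne, h7⟩
    have h8 : ∀ k : ℕ, (x (k : ZMod n)).2 = (x 0).2 := by
      intro k
      induction k with
      | zero => rw [Nat.cast_zero]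
      | succ k ih => rw [Nat.cast_succ, ← (h4 _).1, ih]
    have hnz : NeZero n := ⟨by omega⟩
    have h9 : ∀ i : ZMod n, (x i).2 = (x 0).2 := by
      intro i
      have := h8 i.val
      rwa [ZMod.natCast_zmod_val] at this
    refine ⟨fun i => (x i).1, fun i j hij => hxi (Prod.ext hij (by rw [h9, h9 j])), fun i => (h4 i).2⟩
  · rintro ⟨hn, f, hf, h1⟩
    refine ⟨hn, fun i => Sum.inr (f i, 0), fun i j hij => ?_, fun i => ?_⟩
    · have := Sum.inr.inj hij
      simp only [Prod.mk.injEq, and_true] at this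
      exact hf this
    · obtain ⟨θ, hθ⟩ := Option.ne_none_iff_exists'.1 (h1 i)
      have h2 : gg D t g s h r (.inr (f i, 0)) (.inr (f (i + 1), 0)) = θ := gg_adj rfl hθ
      rw [h2]
      exact hE' _ _ _ (hS.spar _ _ _ hθ)

end Pool.Agent.H8C2
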