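import Pool.Agent.H8C2.Asm1

/-!
Project H8C2: assembly, second part: the saturated structures of a theory without perfectly many
models.
-/

set_option autoImplicit false

namespace Pool.Agent.H8C2

open FirstOrder Set MeasureTheory
open Pool.Agent.H565R2.FO2 (pick Interp Code toI ofI toI_ofI Iso)
open Pool.Agent.H565R2.LO2 (PerfK)

/-- The degrees in the two directions vanish together. -/
theorem fits_ne {Q Θ X : Type} {D : Dat Q Θ} {t : X → Q} {g : X → X → Θ} (h : Fits D t g) (p : Q)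
    (θ : Θ) (q : Q) (hp : D.c p = ⊤) (hd : D.d p θ q ≠ 0) : D.d q (D.star θ) p ≠ 0 := by
  have h1 : {y | t y = p}.Nonempty := by
    rw [← Set.encard_ne_zero, h.card, hp]
    exact ENat.top_ne_zero
  obtain ⟨x, hx⟩ := h1
  have hx : t x = p := hx
  rw [← hx, ← h.deg, Set.encard_ne_zero] at hd
  obtain ⟨y, hy1, hy2, hy3⟩ := hd
  rw [← hy2, ← h.deg, Set.encard_ne_zero]
  refine ⟨x, hy1.symm, hx, ?_⟩
  rw [h.symm x y hy1.symm, hy3]

theorem good_of_not_perf (hBI : S_BI) (hCNT : S_CNT) (hSELF : S_SELF)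
    (hRC : S_RC) (hCOL : S_COL) (hCODE1 : S_CODE1) (hCODE2 : S_CODE2) (hCYC : S_CYC) (hDEG3 : S_DEG3)
    (hTC : S_TC) (hUT : S_UT) (hMEA : S_MEA) (hMEB : S_MEB)
    (L : FirstOrder.Language.{0, 0}) [∀ n, Countable (L.Relations n)] [Finite (L.Relations 2)]
    (h2 : ∀ n, 2 < n → IsEmpty (L.Relations n)) (Φ : Set (C2F L)) (hP : ¬ PerfK (Mod Φ))
    (U : Type) [Infinite U] (J : Interp L U) (hJ : CSat J) (hΦ : ∀ φ ∈ Φ, ∀ x y, Sat J φ x y) :
    Good J := by
  classical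
  have hF : Fits (dat J) (tp J) (th J) := hDEG3 L U J hJ
  have hc : (range (tp J)).Countable := hUT L Φ hP U J hΦ
  have hbi : ∀ p q, (dat J).c p = ⊤ → (dat J).c q = ⊤ → ∃ θ, (dat J).Bi p θ q :=
    hBI (Ty L) (T2 L) U (dat J) (tp J) (th J) hF
  obtain ⟨N, -, hNc, hFN⟩ := hCNT (Ty L) (T2 L) U (dat J) (tp J) (th J) hF hc ∅ countable_empty
  have : Countable N := hNc.to_subtype
  -- labelled structures give models
  have model : ∀ (Y : Type) [Countable Y] [Infinite Y] (t' : Y → Ty L) (g' : Y → Y → T2 L),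
      Fits (dat J) t' g' → ∃ c ∈ Mod Φ, ∃ e : Y ≃ ℕ, (∀ y, tp (toI c) (e y) = t' y) ∧
        ∀ y z, y ≠ z → th (toI c) (e y) (e z) = g' y z := by
    intro Y _ _ t' g' h
    exact hTC L h2 U J hF Φ hΦ Y t' g' h
  have hcinf : {q | (dat J).c q = ⊤}.Countable := by
    refine hc.mono fun q hq => ?_
    have h1 : {y | tp J y = q}.Nonempty := by
      rw [← Set.encard_ne_zero]
      have : {y | tp J y = q}.encard = ⊤ := hq
      rw [this]
      exact ENat.top_ne_zero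
    exact h1
  refine ⟨hJ, hF, hc, ?_, ?_⟩
  · -- uniqueness of the generic binary type
    intro p q hp hq
    obtain ⟨θ₁, h1⟩ := hbi p q hp hq
    refine ⟨θ₁, h1, fun θ₂ h3 => ?_⟩
    by_contra hne
    apply hP
    refine hMEA L Φ p q {θ | (dat J).Bi p θ q} fun A hA hA2 => ?_
    have hS := hSELF (Ty L) (T2 L) N (dat J) (fun x : N => tp J x) (fun x y : N => th J x y) hFN
    have hV : Nonempty {x : N // (dat J).c (tp J x) = ⊤} := by
      obtain ⟨v, -⟩ := hS.onto p hp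
      exact ⟨v⟩
    have hcode : CodeFor (dat J) (fun v : {x : N // (dat J).c (tp J x) = ⊤} => tp J v)
        (self (dat J) (fun x : N => tp J x) (fun x y : N => th J x y)) p q A := by
      by_cases hpq : p = q
      · subst hpq
        exact hCODE2 (Ty L) (T2 L) _ (dat J) _ _ hbi hS p θ₁ θ₂ hp (Ne.symm hne) h1 h3 A hA hA2
      · exact hCODE1 (Ty L) (T2 L) _ (dat J) _ _ hbi hS p q θ₁ θ₂ hpq hp hq (Ne.symm hne) h1 h3 A hA
          hA2
    obtain ⟨h, hC, hh⟩ := hcode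
    obtain ⟨r, hr, hFit⟩ := hRC (Ty L) (T2 L) N _ (dat J) (fun x : N => tp J x)
      (fun x y : N => th J x y) _ _ h hFN hS hC
    obtain ⟨c, hcM, e, he1, he2⟩ := model _ _ _ hFit
    refine ⟨c, hcM, fun n => ?_⟩
    rw [← hh n, ← linvA_amalgam hS hC hp hq n, ← linvA_equiv e he1 he2 n]
    exact Iff.rfl
  · -- no reduced closed walk
    rintro ⟨m, P, σ, hR⟩
    apply hP
    let E : Set (Ty L × T2 L × Ty L) := {z | (dat J).c z.1 = ⊤ ∧ (dat J).c z.2.2 = ⊤ ∧
      ¬ (dat J).Bi z.1 z.2.1 z.2.2}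
    have hEc : E.Countable := by
      have : Countable (T2 L) := inferInstance
      refine (hcinf.prod ((Set.to_countable (univ : Set (T2 L))).prod hcinf)).mono ?_
      rintro ⟨p, θ, q⟩ ⟨h1, h3, -⟩
      exact ⟨h1, mem_univ _, h3⟩
    refine hMEB L Φ E m hEc hR.pos fun A hA => ?_
    obtain ⟨V, hV, τ, s, hS, hcyc⟩ := hCYC (Ty L) (T2 L) (dat J) hcinf
      (fun p θ q hp _ hd => fits_ne hF p θ q hp hd) m P σ hR A hA
    obtain ⟨h, hC⟩ := hCOL (Ty L) (T2 L) V (dat J) τ s hbi hS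
    have hV : Nonempty V := by
      obtain ⟨v, -⟩ := hS.onto (P 0) (hR.inf 0)
      exact ⟨v⟩
    obtain ⟨r, hr, hFit⟩ := hRC (Ty L) (T2 L) N V (dat J) (fun x : N => tp J x)
      (fun x y : N => th J x y) τ s h hFN hS hC
    obtain ⟨c, hcM, e, he1, he2⟩ := model _ _ _ hFit
    refine ⟨c, hcM, fun n => ?_⟩
    rw [← hcyc n, ← linvB_amalgam (t := fun x : N => tp J x) (g := fun x y : N => th J x y) (r := r)
      hS hC (E := E) (fun p θ q h => h) (fun v w θ h => ⟨hS.inf v, hS.inf w, h⟩) n,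
      ← linvB_equiv e he1 he2 n]
    exact Iff.rfl

end Pool.Agent.H8C2
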