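import Pool.Agent.H8C2.Asm2

/-!
Project H8C2: assembly, third part: the dichotomy.
-/

set_option autoImplicit false

namespace Pool.Agent.H8C2

open FirstOrder Set MeasureTheory
open Pool.Agent.H565R2.FO2 (pick Interp Code toI ofI toI_ofI Iso)
open Pool.Agent.H565R2.LO2 (PerfK)

theorem mod_iso (hSYN2 : S_SYN2) {L : FirstOrder.Language.{0, 0}} (Φ : Set (C2F L)) {c c' : Code L}
    (h : Iso c c') (hc : c ∈ Mod Φ) : c' ∈ Mod Φ := by
  obtain ⟨e, he⟩ := h
  intro φ hφ x y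
  have h1 := hSYN2 L ℕ ℕ (toI c) (toI c') e (fun n R t => by
    show c ⟨n, R, t⟩ = true ↔ c' ⟨n, R, fun k => e (t k)⟩ = true
    rw [he n R t]) φ (e.symm x) (e.symm y)
  rw [e.apply_symm_apply, e.apply_symm_apply] at h1
  exact h1.1 (hc φ hφ _ _)

theorem mod_meas (hSYN1 : S_SYN1) (hSYN3 : S_SYN3) {L : FirstOrder.Language.{0, 0}}
    [∀ n, Countable (L.Relations n)] (Φ : Set (C2F L)) : MeasurableSet (Mod Φ) := by
  have hc : Countable (C2F L) := hSYN1 L inferInstance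
  have e : Mod Φ = ⋂ φ ∈ Φ, ⋂ x, ⋂ y, {c : Code L | Sat (toI c) φ x y} := by
    ext c
    simp only [mem_iInter]
    exact Iff.rfl
  rw [e]
  refine MeasurableSet.biInter (Set.to_countable Φ) fun φ _ => MeasurableSet.iInter fun x =>
    MeasurableSet.iInter fun y => ?_
  exact measurableSet_setOfPred.2 (hSYN3 L φ x y)

theorem dichotomy (hSYN1 : S_SYN1) (hSYN2 : S_SYN2) (hSYN3 : S_SYN3) (hTERN : S_TERN) (hSATU : S_SATU)
    (hgood : ∀ (L : FirstOrder.Language.{0, 0}) [∀ n, Countable (L.Relations n)]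
      [Finite (L.Relations 2)] (_ : ∀ n, 2 < n → IsEmpty (L.Relations n)) (Φ : Set (C2F L))
      (_ : ¬ PerfK (Mod Φ)) (U : Type) [Infinite U] (J : Interp L U) (_ : CSat J)
      (_ : ∀ φ ∈ Φ, ∀ x y, Sat J φ x y), Good J)
    (hFLIP : S_FLIP) (hCONV : S_CONV)
    (L : FirstOrder.Language.{0, 0}) [Countable L.Symbols] [L.IsRelational]
    [∀ n, Countable (L.Relations n)] [Finite (L.Relations 2)] (Φ : Set (C2F L)) :
    ((∃ g : ℕ → Code L, ∀ c ∈ Mod Φ, ∃ n, Iso c (g n)) ∧ ∀ c ∈ Mod Φ,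
      (∀ n, 2 < n → IsEmpty (L.Relations n)) ∧ Flip (toI c)) ∨ PerfK (Mod Φ) := by
  classical
  by_cases hP : PerfK (Mod Φ)
  · exact Or.inr hP
  left
  by_cases hne : (Mod Φ).Nonempty
  swap
  · exact ⟨⟨fun _ => fun _ => false, fun c hc => (hne ⟨c, hc⟩).elim⟩,
      fun c hc => (hne ⟨c, hc⟩).elim⟩
  have h2 : ∀ n, 2 < n → IsEmpty (L.Relations n) := fun n hn =>
    ⟨fun R => hP (hTERN L Φ n hn R hne)⟩
  have hflip : ∀ c ∈ Mod Φ, Flip (toI c) := by
    intro c hc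
    obtain ⟨U, J, f, hJ, hf⟩ := hSATU L (toI c)
    have hfi : Function.Injective f := by
      intro x y h
      have h1 := (hf (.eq false true) x y).2 (by show f x = f y; exact h)
      exact h1
    have : Infinite U := Infinite.of_injective f hfi
    have hΦ : ∀ φ ∈ Φ, ∀ x y, Sat J φ x y := by
      intro φ hφ x y
      -- the universal closure: no `x` has a `y` with `¬ φ`
      by_contra hcon
      -- the formula `∃ z, ∃ y, ¬ φ(z, y)` as a formula true at all points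
      have h1 : Sat J (.ex true 1 (.ex false 1 (.neg φ))) (f 0) (f 0) := by
        show ((1 : ℕ) : ℕ∞) ≤ {z | ((1 : ℕ) : ℕ∞) ≤ {w | ¬ Sat J φ w z}.encard}.encard
        rw [Nat.cast_one, Set.one_le_encard_iff_nonempty]
        refine ⟨y, ?_⟩
        show ((1 : ℕ) : ℕ∞) ≤ {w | ¬ Sat J φ w y}.encard
        rw [Nat.cast_one, Set.one_le_encard_iff_nonempty]
        exact ⟨x, hcon⟩
      have h3 := (hf _ 0 0).2 h1
      have h4 : ((1 : ℕ) : ℕ∞) ≤ {z | ((1 : ℕ) : ℕ∞) ≤ {w | ¬ Sat (toI c) φ w z}.encard}.encard := h3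
      rw [Nat.cast_one, Set.one_le_encard_iff_nonempty] at h4
      obtain ⟨z, hz⟩ := h4
      have hz : ((1 : ℕ) : ℕ∞) ≤ {w | ¬ Sat (toI c) φ w z}.encard := hz
      rw [Nat.cast_one, Set.one_le_encard_iff_nonempty] at hz
      obtain ⟨w, hw⟩ := hz
      exact hw (hc φ hφ w z)
    have hG : Good J := hgood L h2 Φ hP U J hJ hΦ
    exact hFLIP L U J hG (toI c) f hf
  refine ⟨?_, fun c hc => ⟨h2, hflip c hc⟩⟩
  rcases hCONV L h2 (Mod Φ) (mod_meas hSYN1 hSYN3 Φ) (fun c c' h hc => mod_iso hSYN2 Φ h hc) hflip with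
    h | h
  · exact h
  · exact (hP h).elim

end Pool.Agent.H8C2
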