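import Pool.Agent.H8C2.StmA

/-!
# Project H8C2, pieces BI and ZI (helper66)
-/

set_option autoImplicit false

namespace Pool.Agent.H8C2

open Set

theorem t_ZI : S_ZI := by
  intro Q Θ X D t g hF x θ q hp hq
  by_contra hcon
  push Not at hcon
  obtain ⟨h0, h1⟩ := hcon
  -- there is a point `y` of type `q` adjacent to `x`
  have hne : {y | y ≠ x ∧ t y = q ∧ g x y = θ}.Nonempty := by
    rw [← encard_ne_zero, hF.deg]
    exact h0
  obtain ⟨y, hyx, hyq, hy⟩ := hne
  have h2 : D.d q (D.star θ) (t x) ≠ 0 := by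
    rw [← hyq, ← hF.deg y (D.star θ) (t x), encard_ne_zero]
    refine ⟨x, hyx.symm, rfl, ?_⟩
    rw [hF.symm x y hyx.symm, hy]
  -- the finitely many points of type `t x`
  have hfin : {x' | t x' = t x}.Finite := by
    rw [← encard_ne_top_iff, hF.card]
    exact hp
  have hinf : {y | t y = q}.Infinite := by
    rw [← encard_eq_top_iff, hF.card]
    exact hq
  apply hinf
  have hsub : {y | t y = q} ⊆ ⋃ x' ∈ {x' | t x' = t x}, {y | y ≠ x' ∧ t y = q ∧ g x' y = θ} := by
    intro y hy
    have h3 : {x' | x' ≠ y ∧ t x' = t x ∧ g y x' = D.star θ}.Nonempty := by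
      rw [← encard_ne_zero, hF.deg]
      rw [show t y = q from hy]
      exact h2
    obtain ⟨x', h4, h5, h6⟩ := h3
    rw [mem_iUnion₂]
    refine ⟨x', h5, h4.symm, hy, ?_⟩
    rw [hF.symm y x' h4.symm, h6, D.star_star]
  refine Finite.subset (hfin.biUnion fun x' hx' => ?_) hsub
  rw [← encard_ne_top_iff, hF.deg, show t x' = t x from hx']
  exact h1

theorem t_BI : S_BI := by
  classical
  intro Q Θ X _ D t g hF p q hp hq
  by_contra hcon
  push Not at hcon
  have : Fintype Θ := Fintype.ofFinite Θ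
  -- the finite degrees
  let m : ℕ := ∑ θ, (D.d p θ q).toNat
  let n : ℕ := ∑ θ, (D.d q (D.star θ) p).toNat
  have hPinf : {x | t x = p}.Infinite := by
    rw [← encard_eq_top_iff, hF.card]
    exact hp
  have hQinf : {x | t x = q}.Infinite := by
    rw [← encard_eq_top_iff, hF.card]
    exact hq
  obtain ⟨A, hA, hAc⟩ := hPinf.exists_subset_card_eq (m + n + 1)
  have hQinf' : ({x | t x = q} \ (A : Set X)).Infinite := hQinf.sdiff A.finite_toSet
  obtain ⟨B, hB, hBc⟩ := hQinf'.exists_subset_card_eq (m + n + 1)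
  have hne : ∀ x ∈ A, ∀ y ∈ B, x ≠ y := fun x hx y hy he => (hB hy).2 (he ▸ hx)
  have hAp : ∀ x ∈ A, t x = p := fun x hx => hA hx
  have hBq : ∀ y ∈ B, t y = q := fun y hy => (hB hy).1
  -- the pairs with a finite degree at the first point
  let F1 : Finset (X × X) := (A ×ˢ B).filter fun z => D.d p (g z.1 z.2) q ≠ ⊤
  let F2 : Finset (X × X) := (A ×ˢ B).filter fun z => D.d q (D.star (g z.1 z.2)) p ≠ ⊤
  have hcov : A ×ˢ B ⊆ F1 ∪ F2 := by
    intro z hz
    rw [Finset.mem_union, Finset.mem_filter, Finset.mem_filter]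
    by_cases h : D.d p (g z.1 z.2) q ≠ ⊤
    · exact Or.inl ⟨hz, h⟩
    · push Not at h
      right
      refine ⟨hz, fun h2 => hcon (g z.1 z.2) ⟨h, h2⟩⟩
  have hF1 : F1.card ≤ (m + n + 1) * m := by
    have h1 : F1.card ≤ ∑ x ∈ A, ((B.filter fun y => D.d p (g x y) q ≠ ⊤).card) := by
      rw [← Finset.card_sigma]
      refine Finset.card_le_card_of_injOn (fun z => (⟨z.1, z.2⟩ : (_ : X) × X)) ?_ ?_
      · intro z hz
        rw [Finset.mem_coe, Finset.mem_filter, Finset.mem_product] at hz
        rw [Finset.mem_coe, Finset.mem_sigma, Finset.mem_filter]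
        exact ⟨hz.1.1, hz.1.2, hz.2⟩
      · intro z _ z' _ h
        simp only [Sigma.mk.injEq, heq_eq_eq] at h
        exact Prod.ext h.1 h.2
    refine h1.trans ?_
    rw [← hAc, ← smul_eq_mul]
    refine Finset.sum_le_card_nsmul _ _ _ fun x hx => ?_
    have h2 : (B.filter fun y => D.d p (g x y) q ≠ ⊤) ⊆
        (Finset.univ : Finset Θ).biUnion fun θ =>
          B.filter fun y => g x y = θ ∧ D.d p θ q ≠ ⊤ := by
      intro y hy
      rw [Finset.mem_filter] at hy
      rw [Finset.mem_biUnion]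
      exact ⟨g x y, Finset.mem_univ _, Finset.mem_filter.2 ⟨hy.1, rfl, hy.2⟩⟩
    refine (Finset.card_le_card h2).trans (Finset.card_biUnion_le.trans ?_)
    refine Finset.sum_le_sum fun θ _ => ?_
    by_cases hθ : D.d p θ q = ⊤
    · rw [Finset.filter_false_of_mem (fun y _ h => h.2 hθ), Finset.card_empty]
      exact Nat.zero_le _
    · have h3 : ((B.filter fun y => g x y = θ ∧ D.d p θ q ≠ ⊤ : Finset X) : Set X) ⊆
          {y | y ≠ x ∧ t y = q ∧ g x y = θ} := by
        intro y hy
        rw [Finset.mem_coe, Finset.mem_filter] at hy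
        exact ⟨(hne x hx y hy.1).symm, hBq y hy.1, hy.2.1⟩
      have h4 := encard_le_encard h3
      rw [hF.deg, hAp x hx, encard_coe_eq_coe_finsetCard] at h4
      have h5 := ENat.toNat_le_toNat h4 hθ
      rw [ENat.toNat_natCast] at h5
      exact h5
  have hF2 : F2.card ≤ (m + n + 1) * n := by
    have h1 : F2.card ≤ ∑ y ∈ B, ((A.filter fun x => D.d q (D.star (g x y)) p ≠ ⊤).card) := by
      rw [← Finset.card_sigma]
      refine Finset.card_le_card_of_injOn (fun z => (⟨z.2, z.1⟩ : (_ : X) × X)) ?_ ?_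
      · intro z hz
        rw [Finset.mem_coe, Finset.mem_filter, Finset.mem_product] at hz
        rw [Finset.mem_coe, Finset.mem_sigma, Finset.mem_filter]
        exact ⟨hz.1.2, hz.1.1, hz.2⟩
      · intro z _ z' _ h
        simp only [Sigma.mk.injEq, heq_eq_eq] at h
        exact Prod.ext h.2 h.1
    refine h1.trans ?_
    rw [← hBc, ← smul_eq_mul]
    refine Finset.sum_le_card_nsmul _ _ _ fun y hy => ?_
    have h2 : (A.filter fun x => D.d q (D.star (g x y)) p ≠ ⊤) ⊆
        (Finset.univ : Finset Θ).biUnion fun θ =>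
          A.filter fun x => g x y = θ ∧ D.d q (D.star θ) p ≠ ⊤ := by
      intro x hx
      rw [Finset.mem_filter] at hx
      rw [Finset.mem_biUnion]
      exact ⟨g x y, Finset.mem_univ _, Finset.mem_filter.2 ⟨hx.1, rfl, hx.2⟩⟩
    refine (Finset.card_le_card h2).trans (Finset.card_biUnion_le.trans ?_)
    refine Finset.sum_le_sum fun θ _ => ?_
    by_cases hθ : D.d q (D.star θ) p = ⊤
    · rw [Finset.filter_false_of_mem (fun y _ h => h.2 hθ), Finset.card_empty]
      exact Nat.zero_le _
    · have h3 : ((A.filter fun x => g x y = θ ∧ D.d q (D.star θ) p ≠ ⊤ : Finset X) : Set X) ⊆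
          {x | x ≠ y ∧ t x = p ∧ g y x = D.star θ} := by
        intro x hx
        rw [Finset.mem_coe, Finset.mem_filter] at hx
        refine ⟨hne x hx.1 y hy, hAp x hx.1, ?_⟩
        rw [hF.symm x y (hne x hx.1 y hy), hx.2.1]
      have h4 := encard_le_encard h3
      rw [hF.deg, hBq y hy, encard_coe_eq_coe_finsetCard] at h4
      have h5 := ENat.toNat_le_toNat h4 hθ
      rw [ENat.toNat_natCast] at h5
      exact h5
  have h6 := Finset.card_le_card hcov
  rw [Finset.card_product, hAc, hBc] at h6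
  have h7 := h6.trans (Finset.card_union_le F1 F2)
  have h8 : (m + n + 1) * (m + n + 1) ≤ (m + n + 1) * (m + n) := by
    rw [mul_add (m + n + 1) m n]
    omega
  have h9 := Nat.le_of_mul_le_mul_left h8 (by omega)
  omega

end Pool.Agent.H8C2
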