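import Pool.Agent.H8C2.StmA

/-!
# Piece CNT: a countable substructure with the same numbers
-/

set_option autoImplicit false

namespace Pool.Agent.H8C2

open Set

namespace CNT

variable {Q Θ X : Type}

theorem exists_sub (A : Set X) : ∃ B ⊆ A, B.Countable ∧ B.encard = A.encard := by
  by_cases hA : A.Finite
  · exact ⟨A, subset_rfl, hA.countable, rfl⟩
  · have hA' : A.Infinite := hA
    refine ⟨range (fun n : ℕ => ((hA'.natEmbedding A n : A) : X)), ?_, countable_range _, ?_⟩
    · rintro _ ⟨n, rfl⟩
      exact (hA'.natEmbedding A n).2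
    · rw [hA'.encard_eq, Infinite.encard_eq]
      refine infinite_range_of_injective ?_
      intro m n h
      exact (hA'.natEmbedding A).injective (Subtype.ext h)

/-- a countable subset with the same number of elements -/
noncomputable def cs (A : Set X) : Set X := (exists_sub A).choose

theorem cs_sub (A : Set X) : cs A ⊆ A := (exists_sub A).choose_spec.1
theorem cs_count (A : Set X) : (cs A).Countable := (exists_sub A).choose_spec.2.1
theorem cs_card (A : Set X) : (cs A).encard = A.encard := (exists_sub A).choose_spec.2.2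

theorem inter_card {A N : Set X} (h : cs A ⊆ N) : (A ∩ N).encard = A.encard := by
  refine le_antisymm (encard_le_encard inter_subset_left) ?_
  rw [← cs_card A]
  exact encard_le_encard (subset_inter (cs_sub A) h)

/-- the neighbours -/
def nb (t : X → Q) (g : X → X → Θ) (x : X) (θ : Θ) (q : Q) : Set X :=
  {y | y ≠ x ∧ t y = q ∧ g x y = θ}

/-- one step of the closure -/
noncomputable def step (t : X → Q) (g : X → X → Θ) (N : Set X) : Set X :=
  N ∪ ⋃ x ∈ N, ⋃ θ : Θ, ⋃ q ∈ range t, cs (nb t g x θ q)

theorem step_count [Countable Θ] (t : X → Q) (g : X → X → Θ) (ht : (range t).Countable)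
    {N : Set X} (hN : N.Countable) : (step t g N).Countable :=
  hN.union (hN.biUnion fun _ _ => countable_iUnion fun _ => ht.biUnion fun _ _ => cs_count _)

/-- the closure -/
noncomputable def it (t : X → Q) (g : X → X → Θ) (N : Set X) : ℕ → Set X
  | 0 => N
  | n + 1 => step t g (it t g N n)

theorem it_count [Countable Θ] (t : X → Q) (g : X → X → Θ) (ht : (range t).Countable)
    {N : Set X} (hN : N.Countable) (n : ℕ) : (it t g N n).Countable := by
  induction n with
  | zero => exact hN
  | succ n ih => exact step_count t g ht ih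

end CNT

open CNT in
theorem t_CNT : S_CNT := by
  intro Q Θ X _ D t g hF ht S hS
  set N0 : Set X := S ∪ ⋃ q ∈ range t, cs {y | t y = q} with hN0
  have hN0c : N0.Countable := hS.union (ht.biUnion fun _ _ => cs_count _)
  set N : Set X := ⋃ n, it t g N0 n with hN
  have h0 : N0 ⊆ N := subset_iUnion (it t g N0) 0
  have hc : ∀ q, ({y | t y = q} ∩ N).encard = D.c q := by
    intro q
    by_cases hq : q ∈ range t
    · rw [inter_card, hF.card]
      refine Subset.trans ?_ h0
      refine Subset.trans ?_ subset_union_right
      exact subset_biUnion_of_mem (u := fun q => cs {y | t y = q}) hq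
    · have he : {y | t y = q} = ∅ := by
        ext y
        simp only [mem_setOf_eq, mem_empty_iff_false, iff_false]
        exact fun h => hq ⟨y, h⟩
      rw [← hF.card q, he, empty_inter]
  have hd : ∀ x ∈ N, ∀ θ q, (nb t g x θ q ∩ N).encard = D.d (t x) θ q := by
    intro x hx θ q
    by_cases hq : q ∈ range t
    · rw [inter_card]
      · exact hF.deg x θ q
      · obtain ⟨n, hn⟩ := mem_iUnion.1 hx
        refine Subset.trans ?_ (subset_iUnion (it t g N0) (n + 1))
        show _ ⊆ step t g (it t g N0 n)
        refine Subset.trans ?_ subset_union_right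
        refine Subset.trans ?_ (subset_biUnion_of_mem
          (u := fun x => ⋃ θ : Θ, ⋃ q ∈ range t, cs (nb t g x θ q)) hn)
        refine Subset.trans ?_ (subset_iUnion (fun θ : Θ => ⋃ q ∈ range t, cs (nb t g x θ q)) θ)
        exact subset_biUnion_of_mem (u := fun q => cs (nb t g x θ q)) hq
    · have he : nb t g x θ q = ∅ := by
        ext y
        simp only [nb, mem_setOf_eq, mem_empty_iff_false, iff_false]
        exact fun h => hq ⟨y, h.2.1⟩
      rw [he, empty_inter, ← hF.deg x θ q]
      exact congrArg encard he.symm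
  refine ⟨N, subset_union_left.trans h0, countable_iUnion fun n => it_count t g ht hN0c n, ?_, ?_, ?_⟩
  · intro x y hxy
    exact hF.symm x y fun h => hxy (Subtype.ext h)
  · intro q
    rw [← hc q, ← Subtype.val_injective.encard_image]
    congr 1
    ext y
    simp only [mem_image, mem_setOf_eq, mem_inter_iff]
    constructor
    · rintro ⟨z, hz, rfl⟩
      exact ⟨hz, z.2⟩
    · rintro ⟨h1, h2⟩
      exact ⟨⟨y, h2⟩, h1, rfl⟩
  · intro x θ q
    rw [← hd x.1 x.2 θ q, ← Subtype.val_injective.encard_image]
    congr 1
    ext y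
    simp only [nb, mem_image, mem_setOf_eq, mem_inter_iff]
    constructor
    · rintro ⟨z, hz, rfl⟩
      exact ⟨⟨fun h => hz.1 (Subtype.ext h), hz.2⟩, z.2⟩
    · rintro ⟨h1, h2⟩
      exact ⟨⟨y, h2⟩, ⟨fun h => h1.1 (congrArg Subtype.val h), h1.2⟩, rfl⟩

end Pool.Agent.H8C2
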