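import Pool.Agent.H8C2.Code

/-!
# Project H8C2, piece CODE2
-/

set_option autoImplicit false

namespace Pool.Agent.H8C2

open Set

theorem t_CODE2 : S_CODE2 := by
  intro Q Θ V _ _ D τ s hBi hs p θ₁ θ₂ hp hne h1 h2 A hA hA2
  exact code D τ s hBi hs p p θ₁ θ₂ hp hp hne h1 h2 A hA hA2

end Pool.Agent.H8C2
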