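import Pool.Agent.H8C2.StmA

/-! # Project H8C2, piece COL: the default colouring (helper86) -/

set_option autoImplicit false

namespace Pool.Agent.H8C2

open Set

private theorem col_seq (Θ : Type) [Finite Θ] [Nonempty Θ] :
    ∃ e : ℕ → Θ, ∀ θ, {n | e n = θ}.Infinite := by
  obtain ⟨f, hf⟩ := exists_surjective_nat (Θ × ℕ)
  refine ⟨fun n => (f n).1, fun θ => ?_⟩
  have h1 : (fun n => (f n).2) '' {n | (f n).1 = θ} = univ := by
    ext m
    simp only [mem_image, mem_univ, iff_true]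
    obtain ⟨n, hn⟩ := hf (θ, m)
    exact ⟨n, by rw [mem_ofPred_eq, hn], by rw [hn]⟩
  intro h
  have h2 := h.image (fun n => (f n).2)
  rw [h1] at h2
  exact infinite_univ h2

theorem t_COL : S_COL := by
  classical
  intro Q Θ V _ _ D τ s hBi hs
  rcases isEmpty_or_nonempty V with hV | ⟨⟨v₀⟩⟩
  · refine ⟨fun x => (hV.false x.1).elim, ⟨fun x => (hV.false x.1).elim,
      fun x => (hV.false x.1).elim, fun x => (hV.false x.1).elim⟩⟩
  have : Nonempty Θ := ⟨(hBi _ _ (hs.inf v₀) (hs.inf v₀)).choose⟩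
  obtain ⟨e, he⟩ := col_seq Θ
  obtain ⟨ν, hν⟩ := exists_injective_nat V
  choose w hw using fun (x y : V) => hBi _ _ (hs.inf x) (hs.inf y)
  set B : V × ℕ → V × ℕ → Prop := fun x y => x.2 < y.2 ∨ (x.2 = y.2 ∧ ν x.1 < ν y.1) with hB
  set b : V × ℕ → V × ℕ → Θ := fun x y =>
    if D.Bi (τ x.1) (e y.2) (τ y.1) then e y.2 else w x.1 y.1 with hb
  have hb1 : ∀ x y, D.Bi (τ x.1) (b x y) (τ y.1) := by
    intro x y
    simp only [hb]
    split_ifs with h
    · exact h
    · exact hw _ _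
  have hB1 : ∀ x y, x ≠ y → (B x y ∧ ¬ B y x) ∨ (B y x ∧ ¬ B x y) := by
    intro x y hxy
    simp only [hB]
    rcases lt_trichotomy x.2 y.2 with h | h | h
    · left; constructor
      · left; exact h
      · rintro (h1 | ⟨h1, _⟩) <;> omega
    · have h3 : ν x.1 ≠ ν y.1 := by
        intro h4
        exact hxy (Prod.ext (hν h4) h)
      rcases lt_or_gt_of_ne h3 with h4 | h4
      · left; constructor
        · right; exact ⟨h, h4⟩
        · rintro (h1 | ⟨_, h1⟩) <;> omega
      · right; constructor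
        · right; exact ⟨h.symm, h4⟩
        · rintro (h1 | ⟨_, h1⟩) <;> omega
    · right; constructor
      · left; exact h
      · rintro (h1 | ⟨h1, _⟩) <;> omega
  refine ⟨fun x y => if B x y then b x y else D.star (b y x), ?_, ?_, ?_⟩
  · intro x y hxy
    rcases hB1 x y hxy.1 with ⟨h1, h2⟩ | ⟨h1, h2⟩
    · simp only [if_pos h1, if_neg h2]
    · simp only [if_pos h1, if_neg h2, D.star_star]
  · intro x y hxy
    rcases hB1 x y hxy.1 with ⟨h1, h2⟩ | ⟨h1, h2⟩
    · simp only [if_pos h1]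
      exact hb1 x y
    · simp only [if_neg h2]
      exact (hb1 y x).symm
  · intro x q θ hq hθ
    obtain ⟨u, hu⟩ := hs.onto q hq
    have h1 : ({n | e n = θ} \ {n | n ≤ x.2}).Infinite :=
      (he θ).sdiff (finite_le_nat x.2)
    have h2 : ((fun n : ℕ => ((u, n) : V × ℕ)) '' ({n | e n = θ} \ {n | n ≤ x.2})).Infinite :=
      h1.image (fun a _ c _ hac => (Prod.ext_iff.1 hac).2)
    refine h2.mono ?_
    rintro _ ⟨n, ⟨hn1, hn2⟩, rfl⟩
    simp only [mem_ofPred_eq, not_le] at hn1 hn2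
    have h3 : B x (u, n) := Or.inl hn2
    refine ⟨⟨fun h => ?_, fun h => ?_⟩, hu, ?_⟩
    · rw [h] at hn2
      exact lt_irrefl _ hn2
    · have := h.1
      simp only at this
      omega
    · simp only [if_pos h3, hb, hn1, hu, if_pos hθ]

end Pool.Agent.H8C2
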