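import Pool.Agent.H8C2.StmB
import Pool.Agent.TH425.FF.Iff

/-!
# Project H8C2, piece CONV: transport of the dichotomy for finite flips to codes
-/

set_option autoImplicit false

namespace Pool.Agent.H8C2

open FirstOrder Set MeasureTheory
open Pool.Agent.H565R2.FO2 (pick Interp Code toI ofI toI_ofI Iso)
open Pool.Agent.H565R2.LO2 (PerfK)
open Pool.Agent.H533R2.VO (RS RIso VC Dich)

namespace Conv

variable {L : FirstOrder.Language.{0, 0}}

/-- arities of the symbols; `none` is an additional symbol -/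
def ar : Option (Σ n, L.Relations n) → ℕ
  | none => 1
  | some s => s.1

/-- the values of a symbol -/
def ev (c : Code L) : (o : Option (Σ n, L.Relations n)) → (Fin (ar o) → ℕ) → Bool
  | none, _ => false
  | some ⟨n, R⟩, v => c ⟨n, R, v⟩

/-- the structure with enumerated symbols -/
def TT (e : ℕ → Option (Σ n, L.Relations n)) (c : Code L) : RS (fun i => ar (e i)) :=
  fun i v => ev c (e i) v

theorem ev_iso {c c' : Code L} {σ : ℕ ≃ ℕ}
    (h : ∀ n (R : L.Relations n) (t : Fin n → ℕ), c ⟨n, R, t⟩ = c' ⟨n, R, fun k => σ (t k)⟩)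
    (o : Option (Σ n, L.Relations n)) (v : Fin (ar o) → ℕ) : ev c' o (⇑σ ∘ v) = ev c o v := by
  rcases o with _ | ⟨n, R⟩
  · rfl
  · exact (h n R v).symm

/-- the structure as a code -/
def UU (e : ℕ → Option (Σ n, L.Relations n)) (j : (Σ n, L.Relations n) → ℕ)
    (hj : ∀ s, e (j s) = some s) (x : RS (fun i => ar (e i))) : Code L :=
  fun z => x (j ⟨z.1, z.2.1⟩) fun k => z.2.2 (Fin.cast (by
    show ar (e (j ⟨z.1, z.2.1⟩)) = z.1
    rw [hj]
    rfl) k)

variable {e : ℕ → Option (Σ n, L.Relations n)} {j : (Σ n, L.Relations n) → ℕ}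
  {hj : ∀ s, e (j s) = some s}

theorem ev_cast (c : Code L) {o o' : Option (Σ n, L.Relations n)} (h : o = o')
    (v : Fin (ar o') → ℕ) : ev c o (fun k => v (Fin.cast (by rw [h]) k)) = ev c o' v := by
  subst h
  rfl

theorem UU_TT (c : Code L) : UU e j hj (TT e c) = c := by
  funext ⟨n, R, t⟩
  exact ev_cast c (hj ⟨n, R⟩) (v := t)

theorem meas_UU : Measurable (UU e j hj) := by
  rw [measurable_pi_iff]
  intro z
  exact (measurable_pi_apply _).comp (measurable_pi_apply (j ⟨z.1, z.2.1⟩))

theorem cont_UU : Continuous (UU e j hj) := by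
  rw [continuous_pi_iff]
  intro z
  exact (continuous_apply _).comp (continuous_apply (j ⟨z.1, z.2.1⟩))

theorem meas_ev (o : Option (Σ n, L.Relations n)) (v : Fin (ar o) → ℕ) :
    Measurable fun c : Code L => ev c o v := by
  rcases o with _ | ⟨n, R⟩
  · exact measurable_const
  · exact measurable_pi_apply _

theorem UU_iso {x y : RS (fun i => ar (e i))} {σ : Equiv.Perm ℕ}
    (h : ∀ (i : ℕ) (v : Fin (ar (e i)) → ℕ), y i (⇑σ ∘ v) = x i v) (n : ℕ) (R : L.Relations n)
    (t : Fin n → ℕ) : UU e j hj x ⟨n, R, t⟩ = UU e j hj y ⟨n, R, fun k => σ (t k)⟩ :=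
  (h (j ⟨n, R⟩) _).symm

end Conv

open Conv in
theorem t_CONV : S_CONV := by
  classical
  intro L _ hL K hK hKiso hflip
  obtain ⟨e, he⟩ := exists_surjective_nat (Option (Σ n, L.Relations n))
  choose j hj using fun s : (Σ n, L.Relations n) => he (some s)
  have hvc := H533R2.VS.vs_plain _ _ (TH425.FF.flip_all (fun i => ar (e i))).1
  set B : Set (RS (fun i => ar (e i))) := {x | UU e j hj x ∈ K ∧ TT e (UU e j hj x) = x} with hB
  have hBmeas : MeasurableSet B := by
    refine MeasurableSet.inter (meas_UU hK) ?_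
    have h1 : {x : RS (fun i => ar (e i)) | TT e (UU e j hj x) = x} =
        ⋂ i, ⋂ v : Fin (ar (e i)) → ℕ, {x | TT e (UU e j hj x) i v = x i v} := by
      ext x
      simp only [mem_iInter]
      constructor
      · intro h i v
        exact congrFun (congrFun h i) v
      · intro h
        funext i v
        exact h i v
    have h2 : MeasurableSet {x : RS (fun i => ar (e i)) | TT e (UU e j hj x) = x} := by
      rw [h1]
      refine MeasurableSet.iInter fun i => MeasurableSet.iInter fun v => ?_
      exact measurableSet_eq_fun ((meas_ev (e i) v).comp meas_UU)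
        ((measurable_pi_apply v).comp (measurable_pi_apply i))
    exact h2
  have hBinv : ∀ x y : RS (fun i => ar (e i)), RIso x y → x ∈ B → y ∈ B := by
    rintro x y ⟨σ, hσ⟩ ⟨h1, h2⟩
    have h3 := UU_iso (j := j) (hj := hj) hσ
    refine ⟨hKiso _ _ ⟨σ, h3⟩ h1, ?_⟩
    funext i v
    have h4 : v = ⇑σ ∘ (⇑σ.symm ∘ v) := by
      funext k
      simp
    rw [h4, hσ, ← h2]
    exact ev_iso h3 (e i) _
  have hsymm : ∀ x y : RS (fun i => ar (e i)), RIso x y → RIso y x := by
    rintro x y ⟨σ, hσ⟩
    refine ⟨σ.symm, fun i v => ?_⟩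
    rw [← hσ]
    congr 1
    funext k
    simp
  have hBflip : ∀ x ∈ B, TH425.FF.FlipS x := by
    rintro x ⟨h1, h2⟩
    obtain ⟨S, k, p, f, hS, hf⟩ := hflip _ h1
    refine ⟨S, k, p, fun i a b => decide (∃ R : L.Relations 2, e i = some ⟨2, R⟩ ∧ f R a b), hS,
      fun i hi u v huv hadj => ?_, fun i hi t _ l l' => Or.inl ?_⟩
    · rw [← h2]
      have key : ∀ (o : Option (Σ n, L.Relations n)) (ho : ar o = 2),
          ev (UU e j hj x) o (H533R2.VS.p2 u v) =
            decide (∃ R : L.Relations 2, o = some ⟨2, R⟩ ∧ f R (p u) (p v)) := by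
        intro o ho
        rcases o with _ | ⟨n, R⟩
        · simp [ar] at ho
        · have ho' : n = 2 := ho
          subst ho'
          have h3 : (H533R2.VS.p2 u v : Fin 2 → ℕ) = ![u, v] := by
            funext k
            fin_cases k <;> rfl
          have h4 := hf R u v huv hadj
          have h5 : ev (UU e j hj x) (some ⟨2, R⟩) (H533R2.VS.p2 u v) =
              UU e j hj x ⟨2, R, ![u, v]⟩ := by
            rw [← h3]
            rfl
          rw [h5]
          have h6 : (∃ R' : L.Relations 2, (some ⟨2, R⟩ : Option (Σ n, L.Relations n)) =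
              some ⟨2, R'⟩ ∧ f R' (p u) (p v)) ↔ f R (p u) (p v) := by
            constructor
            · rintro ⟨R', h7, h8⟩
              have h9 : R = R' := by simpa using h7
              rw [h9]
              exact h8
            · intro h8
              exact ⟨R, rfl, h8⟩
          rw [Bool.eq_iff_iff, decide_eq_true_iff, h6]
          exact h4
      exact key (e i) hi
    · have h3 : ∀ o : Option (Σ n, L.Relations n), ar o ≠ 2 → ar o ≤ 1 := by
        intro o ho
        rcases o with _ | ⟨n, R⟩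
        · exact le_rfl
        · have h4 : n ≠ 2 := ho
          have h5 : ¬ 2 < n := fun h6 => (hL n h6).false R
          show n ≤ 1
          omega
      have h4 := h3 (e i) hi
      have h5 : l = l' := by
        apply Fin.ext
        have a1 : (l : ℕ) < ar (e i) := l.2
        have a2 : (l' : ℕ) < ar (e i) := l'.2
        omega
      rw [h5]
  rcases hvc B hBmeas (fun x y h => ⟨hBinv x y h, hBinv y x (hsymm x y h)⟩) hBflip with
    ⟨f, hf⟩ | ⟨g, hg1, hg2, hg3⟩
  · left
    refine ⟨fun n => UU e j hj (f n), fun c hc => ?_⟩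
    have h1 : TT e c ∈ B := ⟨by rw [UU_TT]; exact hc, by rw [UU_TT]⟩
    obtain ⟨n, hn⟩ := hf _ h1
    obtain ⟨σ, hσ⟩ := hsymm _ _ hn
    refine ⟨n, σ, fun m R t => ?_⟩
    have h2 := UU_iso (j := j) (hj := hj) hσ m R t
    rwa [UU_TT] at h2
  · right
    refine ⟨fun x => UU e j hj (g x), cont_UU.comp hg1, fun x => (hg2 x).1, fun x x' h => ?_⟩
    obtain ⟨σ, hσ⟩ := h
    apply hg3
    refine ⟨σ, fun i v => ?_⟩
    have h1 := ev_iso hσ (e i) v
    have h2 := congrFun (congrFun (hg2 x).2 i) v
    have h3 := congrFun (congrFun (hg2 x').2 i) (⇑σ ∘ v)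
    exact h3.symm.trans (h1.trans h2)

end Pool.Agent.H8C2
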