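import Pool.Agent.H8C2.StmA

/-!
# Piece CYC of project H8C2
-/

set_option autoImplicit false

namespace Pool.Agent.H8C2

open Set

namespace CYC

variable {Q Θ : Type}

/-- the vertices: the infinite types, and the points of the cycles -/
abbrev BB (D : Dat Q Θ) (m : ℕ) (A : Set ℕ) : Type := {q // D.c q = ⊤} ⊕ {z : ℕ × ℕ // z.1 ∈ A ∧ z.2 < m * z.1}

variable {D : Dat Q Θ} {m : ℕ} {A : Set ℕ}

/-- the next vertex of a cycle -/
def Nx (v w : BB D m A) : Prop :=
  ∃ (l i j : ℕ) (hi : l ∈ A ∧ i < m * l) (hj : l ∈ A ∧ j < m * l), v = .inr ⟨(l, i), hi⟩ ∧ w = .inr ⟨(l, j), hj⟩ ∧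
    (j : ZMod (m * l)) = i + 1

/-- the number of a vertex -/
def idx : BB D m A → ℕ
  | .inl _ => 0
  | .inr z => z.1.2

/-- the types -/
def ta (P : ℕ → Q) : BB D m A → Q
  | .inl q => q.1
  | .inr z => P z.1.2

open Classical in
/-- the edges -/
noncomputable def sa (σ : ℕ → Θ) (v w : BB D m A) : Option Θ :=
  if Nx v w then some (σ (idx v)) else if Nx w v then some (D.star (σ (idx w))) else none

theorem cast_inj {N a b : ℕ} (ha : a < N) (hb : b < N) (h : (a : ZMod N) = b) : a = b := by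
  rw [ZMod.natCast_eq_natCast_iff'] at h
  rwa [Nat.mod_eq_of_lt ha, Nat.mod_eq_of_lt hb] at h

theorem N1 {v w w' : BB D m A} (h : Nx v w) (h' : Nx v w') : w = w' := by
  obtain ⟨l, i, j, hi, hj, rfl, rfl, h1⟩ := h
  obtain ⟨l', i', j', hi', hj', h2, rfl, h3⟩ := h'
  have h4 := Sum.inr_injective h2
  rw [Subtype.mk.injEq, Prod.mk.injEq] at h4
  obtain ⟨rfl, rfl⟩ := h4
  have h5 : j = j' := cast_inj hj.2 hj'.2 (h1.trans h3.symm)
  subst h5
  rfl

theorem N2 {v v' w : BB D m A} (h : Nx v w) (h' : Nx v' w) : v = v' := by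
  obtain ⟨l, i, j, hi, hj, rfl, rfl, h1⟩ := h
  obtain ⟨l', i', j', hi', hj', rfl, h2, h3⟩ := h'
  have h4 := Sum.inr_injective h2
  rw [Subtype.mk.injEq, Prod.mk.injEq] at h4
  obtain ⟨rfl, rfl⟩ := h4
  have h5 : (i : ZMod (m * l)) = i' := by
    have := h1.symm.trans h3
    exact add_right_cancel this
  have h6 : i = i' := cast_inj hi.2 hi'.2 h5
  subst h6
  rfl

theorem two_ne {N : ℕ} (hN : 3 ≤ N) : (2 : ZMod N) ≠ 0 := by
  intro h
  have h1 : ((2 : ℕ) : ZMod N) = 0 := by exact_mod_cast h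
  rw [ZMod.natCast_eq_zero_iff] at h1
  have := Nat.le_of_dvd (by norm_num) h1
  omega

theorem one_ne {N : ℕ} (hN : 3 ≤ N) : (1 : ZMod N) ≠ 0 := by
  intro h
  have h1 : ((1 : ℕ) : ZMod N) = 0 := by exact_mod_cast h
  rw [ZMod.natCast_eq_zero_iff] at h1
  have := Nat.le_of_dvd (by norm_num) h1
  omega

theorem N3 (hA : ∀ n ∈ A, 3 ≤ n) (hm : 0 < m) {v w : BB D m A} (h : Nx v w) : ¬ Nx w v := by
  rintro h'
  obtain ⟨l, i, j, hi, hj, rfl, rfl, h1⟩ := h
  obtain ⟨l', i', j', hi', hj', h2, h2', h3⟩ := h'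
  have h4 := Sum.inr_injective h2
  rw [Subtype.mk.injEq, Prod.mk.injEq] at h4
  obtain ⟨rfl, rfl⟩ := h4
  have h5 := Sum.inr_injective h2'
  rw [Subtype.mk.injEq, Prod.mk.injEq] at h5
  obtain ⟨-, rfl⟩ := h5
  have h6 : 3 ≤ m * l := by
    have := hA l hi.1
    nlinarith
  rw [h1] at h3
  apply two_ne h6
  have h7 : (i : ZMod (m * l)) + 2 = i + 0 := by
    rw [add_zero]
    calc (i : ZMod (m * l)) + 2 = i + 1 + 1 := by ring
      _ = i := h3.symm
  exact add_left_cancel h7

theorem per {R : Type} {P : ℕ → R} (hP : ∀ i, P (i + m) = P i) (l : ℕ) {a b : ℕ} (h : (a : ZMod (m * l)) = b) : P a = P b := by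
  rw [ZMod.natCast_eq_natCast_iff] at h
  have h1 : a ≡ b [MOD m] := h.of_dvd (Dvd.intro l rfl)
  have h2 : Function.Periodic P m := hP
  rw [← h2.map_mod_nat a, ← h2.map_mod_nat b, h1]

theorem ta_next {P : ℕ → Q} (hP : ∀ i, P (i + m) = P i) {v w : BB D m A} (h : Nx v w) :
    ta P v = P (idx v) ∧ ta P w = P (idx v + 1) := by
  obtain ⟨l, i, j, hi, hj, rfl, rfl, h1⟩ := h
  refine ⟨rfl, ?_⟩
  exact per hP l (by rw [h1]; push_cast; rfl)

theorem idx_next {R : Type} {P : ℕ → R} (hP : ∀ i, P (i + m) = P i) {v w : BB D m A} (h : Nx v w) (k : ℕ) :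
    P (idx w + k) = P (idx v + 1 + k) := by
  obtain ⟨l, i, j, hi, hj, rfl, rfl, h1⟩ := h
  refine per hP l ?_
  show ((j + k : ℕ) : ZMod (m * l)) = ((i + 1 + k : ℕ) : ZMod (m * l))
  push_cast
  rw [h1]

theorem sa_ne {σ : ℕ → Θ} {v w : BB D m A} (h : sa σ v w ≠ none) : Nx v w ∨ Nx w v := by
  by_contra hcon
  rw [not_or] at hcon
  apply h
  unfold sa
  rw [if_neg hcon.1, if_neg hcon.2]

/-- the partial graph -/
theorem part (hz : ∀ p θ q, D.c p = ⊤ → D.c q = ⊤ → D.d p θ q ≠ 0 → D.d q (D.star θ) p ≠ 0)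
    {P : ℕ → Q} {σ : ℕ → Θ} (hR : Red D m P σ) (hA : ∀ n ∈ A, 3 ≤ n) :
    Part D (ta P : BB D m A → Q) (sa σ) := by
  classical
  have hn1 : ∀ {v w : BB D m A}, Nx v w → sa σ v w = some (σ (idx v)) := fun h => if_pos h
  have hn2 : ∀ {v w : BB D m A}, Nx w v → sa σ v w = some (D.star (σ (idx w))) := by
    intro v w h
    unfold sa
    rw [if_neg (N3 hA hR.pos h), if_pos h]
  refine ⟨fun v => ?_, fun v => ?_, fun v w θ h => ?_, fun v w θ h => ?_, fun v θ q hq hB => ?_⟩
  · rcases v with q | z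
    · exact q.2
    · exact hR.inf _
  · by_contra h
    rcases sa_ne h with h1 | h1
    · exact N3 hA hR.pos h1 h1
    · exact N3 hA hR.pos h1 h1
  · rcases sa_ne (by rw [h]; simp) with h1 | h1
    · rw [hn1 h1, Option.some_inj] at h
      rw [hn2 h1, h]
    · rw [hn2 h1, Option.some_inj] at h
      rw [hn1 h1, ← h, D.star_star]
  · rcases sa_ne (by rw [h]; simp) with h1 | h1
    · rw [hn1 h1, Option.some_inj] at h
      obtain ⟨e1, e2⟩ := ta_next hR.perP h1
      rw [e1, e2, ← h]
      exact hR.spar _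
    · rw [hn2 h1, Option.some_inj] at h
      obtain ⟨e1, e2⟩ := ta_next hR.perP h1
      rw [e1, e2, ← h]
      intro h2
      have h3 := h2.symm
      rw [D.star_star] at h3
      exact hR.spar _ h3
  · by_cases h1 : ∃ w, Nx v w ∧ ta P w = q ∧ σ (idx v) = θ
    · obtain ⟨w, h1, h2, h3⟩ := h1
      obtain ⟨e1, e2⟩ := ta_next hR.perP h1
      by_cases h4 : ∃ w', Nx w' v ∧ ta P w' = q ∧ D.star (σ (idx w')) = θ
      · obtain ⟨w', h4, h5, h6⟩ := h4
        obtain ⟨e3, e4⟩ := ta_next hR.perP h4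
        have e5 := idx_next hR.perP h4 1
        have e6 := idx_next hR.perσ h4 0
        rw [add_zero, add_zero] at e6
        have h7 : 2 ≤ D.d (ta P v) θ q := by
          have := hR.red (idx w') (by
            rw [← e3, h5, ← h2, e2, e5]) (by rw [← e6, h3, h6])
          rw [← e4, ← e6, h3] at this
          have e7 : P (idx w' + 2) = q := by
            rw [← h2, e2, e5]
          rwa [e7] at this
        refine le_trans ?_ h7
        have h8 : {x | ta P x = q ∧ sa σ v x = some θ} ⊆ {w, w'} := by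
          rintro x ⟨hx1, hx2⟩
          rcases sa_ne (by rw [hx2]; simp) with h8 | h8
          · left
            exact N1 h8 h1
          · right
            exact N2 h8 h4
        refine (encard_le_encard h8).trans ((encard_insert_le _ _).trans ?_)
        rw [encard_singleton]
        norm_num
      · have h7 : 1 ≤ D.d (ta P v) θ q := by
          rw [Order.one_le_iff_pos, pos_iff_ne_zero, e1, ← h3, ← h2, e2]
          exact hR.ne _
        refine le_trans ?_ h7
        have h8 : {x | ta P x = q ∧ sa σ v x = some θ} ⊆ {w} := by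
          rintro x ⟨hx1, hx2⟩
          rcases sa_ne (by rw [hx2]; simp) with h8 | h8
          · exact N1 h8 h1
          · exfalso
            rw [hn2 h8, Option.some_inj] at hx2
            exact h4 ⟨x, h8, hx1, hx2⟩
        refine (encard_le_encard h8).trans ?_
        rw [encard_singleton]
    · by_cases h4 : ∃ w', Nx w' v ∧ ta P w' = q ∧ D.star (σ (idx w')) = θ
      · obtain ⟨w', h4, h5, h6⟩ := h4
        obtain ⟨e3, e4⟩ := ta_next hR.perP h4
        have h7 : 1 ≤ D.d (ta P v) θ q := by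
          rw [Order.one_le_iff_pos, pos_iff_ne_zero, e4, ← h6, ← h5, e3]
          exact hz _ _ _ (hR.inf _) (hR.inf _) (hR.ne _)
        refine le_trans ?_ h7
        have h8 : {x | ta P x = q ∧ sa σ v x = some θ} ⊆ {w'} := by
          rintro x ⟨hx1, hx2⟩
          rcases sa_ne (by rw [hx2]; simp) with h8 | h8
          · exfalso
            rw [hn1 h8, Option.some_inj] at hx2
            exact h1 ⟨x, h8, hx1, hx2⟩
          · exact N2 h8 h4
        refine (encard_le_encard h8).trans ?_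
        rw [encard_singleton]
      · have h8 : {x | ta P x = q ∧ sa σ v x = some θ} = ∅ := by
          rw [Set.eq_empty_iff_forall_notMem]
          rintro x ⟨hx1, hx2⟩
          rcases sa_ne (by rw [hx2]; simp) with h8 | h8
          · rw [hn1 h8, Option.some_inj] at hx2
            exact h1 ⟨x, h8, hx1, hx2⟩
          · rw [hn2 h8, Option.some_inj] at hx2
            exact h4 ⟨x, h8, hx1, hx2⟩
        rw [h8, encard_empty]
        exact bot_le

/-- a directed cycle -/
theorem dir {n : ℕ} (b : ZMod n → BB D m A) (hb : Function.Injective b)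
    (h : ∀ i, Nx (b i) (b (i + 1))) : ∃ l ∈ A, n = m * l := by
  obtain ⟨l, i₀, -, hi₀, -, h0, -, -⟩ := h 0
  have key : ∀ k : ℕ, ∃ (i : ℕ) (hi : l ∈ A ∧ i < m * l), b k = .inr ⟨(l, i), hi⟩ ∧ (i : ZMod (m * l)) = i₀ + k := by
    intro k
    induction k with
    | zero =>
      refine ⟨i₀, hi₀, ?_, by simp⟩
      rw [Nat.cast_zero]
      exact h0
    | succ k ih =>
      obtain ⟨i, hi, h1, h2⟩ := ih
      obtain ⟨l', i', j', hi', hj', h3, h4, h5⟩ := h k
      rw [h1] at h3
      have h6 := Sum.inr_injective h3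
      rw [Subtype.mk.injEq, Prod.mk.injEq] at h6
      obtain ⟨rfl, rfl⟩ := h6
      refine ⟨j', hj', ?_, ?_⟩
      · rw [← h4, Nat.cast_succ]
      · rw [h5, h2, Nat.cast_succ]
        ring
  refine ⟨l, hi₀.1, Nat.dvd_antisymm ?_ ?_⟩
  · -- `n ∣ m * l`
    obtain ⟨i, hi, h1, h2⟩ := key (m * l)
    rw [ZMod.natCast_self, add_zero] at h2
    have h3 : i = i₀ := cast_inj hi.2 hi₀.2 h2
    subst h3
    have h4 : b ((m * l : ℕ) : ZMod n) = b 0 := by rw [h1, h0]
    exact (ZMod.natCast_eq_zero_iff _ _).1 (hb h4)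
  · obtain ⟨i, hi, h1, h2⟩ := key n
    rw [ZMod.natCast_self, h0] at h1
    have h6 := Sum.inr_injective h1
    rw [Subtype.mk.injEq, Prod.mk.injEq] at h6
    obtain ⟨-, rfl⟩ := h6
    have h7 : (i₀ : ZMod (m * l)) + 0 = i₀ + n := by
      rw [add_zero]
      exact h2
    exact (ZMod.natCast_eq_zero_iff _ _).1 (add_left_cancel h7).symm

theorem cyc (hA : ∀ n ∈ A, 3 ≤ n) {n : ℕ} (hn : 3 ≤ n) (b : ZMod n → BB D m A) (hb : Function.Injective b)
    (h : ∀ i, Nx (b i) (b (i + 1)) ∨ Nx (b (i + 1)) (b i)) : ∃ l ∈ A, n = m * l := by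
  have hne : ∀ i : ZMod n, i + 1 + 1 ≠ i := by
    intro i hi
    apply two_ne hn
    have h7 : i + 2 = i + 0 := by
      rw [add_zero]
      calc i + 2 = i + 1 + 1 := by ring
        _ = i := hi
    exact add_left_cancel h7
  have : NeZero n := ⟨by omega⟩
  rcases h 0 with h0 | h0
  · have key : ∀ k : ℕ, Nx (b (k : ZMod n)) (b (k + 1)) := by
      intro k
      induction k with
      | zero =>
        rw [Nat.cast_zero]
        exact h0
      | succ k ih =>
        rw [Nat.cast_succ]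
        rcases h ((k : ZMod n) + 1) with h1 | h1
        · exact h1
        · exact absurd (hb (N2 h1 ih)) (hne _)
    refine dir b hb fun i => ?_
    have := key i.val
    rwa [ZMod.natCast_zmod_val] at this
  · have key : ∀ k : ℕ, Nx (b ((k : ZMod n) + 1)) (b k) := by
      intro k
      induction k with
      | zero =>
        rw [Nat.cast_zero]
        exact h0
      | succ k ih =>
        rw [Nat.cast_succ]
        rcases h ((k : ZMod n) + 1) with h1 | h1
        · exact absurd (hb (N1 h1 ih)) (hne _)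
        · exact h1
    refine dir (fun i => b (-i)) (fun i j hij => neg_injective (hb hij)) fun i => ?_
    have := key (-(i + 1)).val
    rw [ZMod.natCast_zmod_val] at this
    have e1 : -(i + 1) + 1 = -i := by ring
    rw [e1] at this
    exact this

end CYC

open CYC in
theorem t_CYC (hF : S_FREE) : S_CYC := by
  intro Q Θ _ D hQ hz m P σ hR A hA
  have : Countable {q // D.c q = ⊤} := hQ.to_subtype
  obtain ⟨V, hV, τ, s, e, dep, hS, he, h1, h2, h3, h4⟩ := hF Q Θ (BB D m A) D (ta P) (sa σ) hQ hz (part hz hR hA)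
    (fun q hq => ⟨.inl ⟨q, hq⟩, rfl⟩)
  refine ⟨V, hV, τ, s, hS, fun n => ⟨?_, ?_⟩⟩
  · rintro ⟨hn, f, hf, hfs⟩
    have : NeZero n := ⟨by omega⟩
    have hne : ∀ i : ZMod n, i + 1 ≠ i - 1 := by
      intro i hi
      apply two_ne hn
      have h7 : (2 : ZMod n) = (i + 1) - (i - 1) := by ring
      rw [h7, hi, sub_self]
    have hsn : ∀ v w, s v w ≠ none → s w v ≠ none := by
      intro v w h
      obtain ⟨θ, hθ⟩ := Option.ne_none_iff_exists'.1 h
      rw [hS.symm _ _ _ hθ]
      simp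
    obtain ⟨i, hi⟩ := Finite.exists_max fun i => dep (f i)
    have hd : dep (f i) = 0 := by
      by_contra hd
      have h5 : s (f i) (f (i - 1)) ≠ none := by
        apply hsn
        have := hfs (i - 1)
        rwa [sub_add_cancel] at this
      exact hne i (hf (h4 _ _ _ hd (hfs i) h5 (hi _) (hi _)))
    have hall : ∀ j, ∃ b, e b = f j := by
      intro j
      rw [← h3]
      have := hi j
      omega
    choose b hb using hall
    refine cyc hA hn b (fun i j hij => ?_) fun i => ?_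
    · apply hf
      rw [← hb, ← hb, hij]
    · have h5 := hfs i
      rw [← hb, ← hb, h2] at h5
      exact sa_ne h5
  · rintro ⟨l, hl, rfl⟩
    have hN : 3 ≤ m * l := by
      have := hA l hl
      have := hR.pos
      nlinarith
    have : NeZero (m * l) := ⟨by omega⟩
    have hlt : ∀ i : ZMod (m * l), i.val < m * l := fun i => ZMod.val_lt i
    refine ⟨hN, fun i => e (.inr ⟨(l, i.val), hl, hlt i⟩), fun i j hij => ?_, fun i => ?_⟩
    · have h5 := Sum.inr_injective (he hij)
      rw [Subtype.mk.injEq, Prod.mk.injEq] at h5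
      exact ZMod.val_injective _ h5.2
    · rw [h2]
      have h5 : Nx (D := D) (.inr ⟨(l, i.val), hl, hlt i⟩ : BB D m A) (.inr ⟨(l, (i + 1).val), hl, hlt (i + 1)⟩) := by
        refine ⟨l, i.val, (i + 1).val, ⟨hl, hlt i⟩, ⟨hl, hlt (i + 1)⟩, rfl, rfl, ?_⟩
        rw [ZMod.natCast_zmod_val, ZMod.natCast_zmod_val]
      unfold sa
      rw [if_pos h5]
      simp

end Pool.Agent.H8C2
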