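import Pool.Agent.H8C2.StmA

/-!
# Project H8C2, pieces CODE1 and CODE2: coding a set of natural numbers in a colouring
-/

set_option autoImplicit false

namespace Pool.Agent.H8C2

open Set

namespace CodeA

variable {Q Θ V : Type}

open Classical in
/-- The class number of a point. -/
noncomputable def KK (τ : V → Q) (p : Q) (v₀ : V) (ν : V → ℕ) (b : ℕ → ℕ) (x : V × ℕ) : ℕ :=
  if τ x.1 = p then (if x.1 = v₀ then 4 * b x.2 else 4 * ν x.1 + 2) else 2 * x.2 + 1

open Classical in
/-- The `a`-th entry of the pattern of the class number `l`. -/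
noncomputable def PP (e : ℕ → (ℕ × Θ × Θ) × ℕ) (l a : ℕ) : Θ :=
  if a = (e (l / 4)).1.1 then (e (l / 4)).1.2.1 else (e (l / 4)).1.2.2

open Classical in
/-- The colour of a pair of points in classes `k < l` of types `u`, `v`. -/
noncomputable def EE (D : Dat Q Θ) (e : ℕ → (ℕ × Θ × Θ) × ℕ) (df : Q → Q → Θ) (k l : ℕ) (u v : Q) : Θ :=
  if D.Bi u (PP e l k) v then PP e l k else df u v

open Classical in
/-- The colouring. -/
noncomputable def HH (D : Dat Q Θ) (τ : V → Q) (K : V × ℕ → ℕ) (ν : V → ℕ)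
    (e : ℕ → (ℕ × Θ × Θ) × ℕ) (df : Q → Q → Θ) (x y : V × ℕ) : Θ :=
  if K x < K y then EE D e df (K x) (K y) (τ x.1) (τ y.1)
  else if K y < K x then D.star (EE D e df (K y) (K x) (τ y.1) (τ x.1))
  else if x.2 < y.2 ∨ (x.2 = y.2 ∧ ν x.1 < ν y.1) then df (τ x.1) (τ y.1)
  else D.star (df (τ y.1) (τ x.1))

theorem EE_bi {D : Dat Q Θ} {e : ℕ → (ℕ × Θ × Θ) × ℕ} {df : Q → Q → Θ} {k l : ℕ} {u v : Q}
    (h : D.Bi u (df u v) v) : D.Bi u (EE D e df k l u v) v := by
  unfold EE
  split_ifs with h1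
  · exact h1
  · exact h

theorem HH_lt {D : Dat Q Θ} {τ : V → Q} {K : V × ℕ → ℕ} {ν : V → ℕ}
    {e : ℕ → (ℕ × Θ × Θ) × ℕ} {df : Q → Q → Θ} {x y : V × ℕ} (h : K x < K y)
    (hb : D.Bi (τ x.1) (PP e (K y) (K x)) (τ y.1)) : HH D τ K ν e df x y = PP e (K y) (K x) := by
  unfold HH EE
  rw [if_pos h, if_pos hb]

/-- `h x y` depends only on the classes and types if the classes are different. -/
theorem HH_congr {D : Dat Q Θ} {τ : V → Q} {K : V × ℕ → ℕ} {ν : V → ℕ}
    {e : ℕ → (ℕ × Θ × Θ) × ℕ} {df : Q → Q → Θ} {x x' y : V × ℕ} (hK : K x' = K x)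
    (hτ : τ x'.1 = τ x.1) (h : K y ≠ K x) : HH D τ K ν e df x y = HH D τ K ν e df x' y := by
  unfold HH
  rw [hK, hτ]
  rcases lt_trichotomy (K x) (K y) with h1 | h1 | h1
  · rw [if_pos h1, if_pos h1]
  · exact absurd h1.symm h
  · simp only [if_neg (show ¬ K x < K y by omega), if_pos h1]

theorem HH_symm {D : Dat Q Θ} {τ : V → Q} {K : V × ℕ → ℕ} {ν : V → ℕ} (hν : Function.Injective ν)
    {e : ℕ → (ℕ × Θ × Θ) × ℕ} {df : Q → Q → Θ} {x y : V × ℕ} (h : x ≠ y) :
    HH D τ K ν e df y x = D.star (HH D τ K ν e df x y) := by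
  unfold HH
  rcases lt_trichotomy (K x) (K y) with h1 | h1 | h1
  · rw [if_neg (by omega : ¬ K y < K x), if_pos h1, if_pos h1]
  · rw [if_neg (by omega : ¬ K y < K x), if_neg (by omega : ¬ K x < K y),
      if_neg (by omega : ¬ K x < K y), if_neg (by omega : ¬ K y < K x)]
    have h2 : x.2 = y.2 → ν x.1 ≠ ν y.1 := fun h3 h4 => h (Prod.ext (hν h4) h3)
    by_cases h3 : x.2 < y.2 ∨ (x.2 = y.2 ∧ ν x.1 < ν y.1)
    · rw [if_pos h3, if_neg]
      rintro (h4 | ⟨h4, h5⟩)
      · rcases h3 with h3 | ⟨h3, h6⟩ <;> omega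
      · rcases h3 with h3 | ⟨h3, h6⟩ <;> omega
    · rw [if_neg h3, D.star_star, if_pos]
      by_cases h4 : x.2 = y.2
      · right
        refine ⟨h4.symm, ?_⟩
        have h5 := h2 h4
        have h6 : ¬ ν x.1 < ν y.1 := fun h7 => h3 (Or.inr ⟨h4, h7⟩)
        omega
      · left
        have h6 : ¬ x.2 < y.2 := fun h7 => h3 (Or.inl h7)
        omega
  · rw [if_pos h1, if_neg (by omega : ¬ K x < K y), if_pos h1, D.star_star]

theorem HH_bi {D : Dat Q Θ} {τ : V → Q} {K : V × ℕ → ℕ} {ν : V → ℕ}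
    {e : ℕ → (ℕ × Θ × Θ) × ℕ} {df : Q → Q → Θ} (hdf : ∀ v w, D.Bi (τ v) (df (τ v) (τ w)) (τ w))
    (x y : V × ℕ) : D.Bi (τ x.1) (HH D τ K ν e df x y) (τ y.1) := by
  unfold HH
  split_ifs
  · exact EE_bi (hdf _ _)
  · exact (EE_bi (hdf _ _)).symm
  · exact hdf _ _
  · exact (hdf _ _).symm

end CodeA

open CodeA in
/-- Coding, for `p = q` and for `p ≠ q`. -/
theorem code {Q Θ V : Type} [Finite Θ] [Countable V] (D : Dat Q Θ)
    (τ : V → Q) (s : V → V → Option Θ) (hBi : ∀ p q, D.c p = ⊤ → D.c q = ⊤ → ∃ θ, D.Bi p θ q)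
    (hs : Sparse D τ s) (p q : Q) (θ₁ θ₂ : Θ) (hp : D.c p = ⊤) (hq : D.c q = ⊤) (hne : θ₁ ≠ θ₂)
    (h1 : D.Bi p θ₁ q) (h2 : D.Bi p θ₂ q) (A : Set ℕ) (hA : A.Nonempty) (hA2 : ∀ n ∈ A, 2 ≤ n) :
    CodeFor D τ s p q A := by
  classical
  have hΘ : Nonempty Θ := ⟨θ₁⟩
  obtain ⟨v₀, hv₀⟩ := hs.onto p hp
  obtain ⟨ν, hν⟩ := Countable.exists_injective_nat V
  choose! df hdf using hBi
  have hdf' : ∀ v w, D.Bi (τ v) (df (τ v) (τ w)) (τ w) := fun v w => hdf _ _ (hs.inf v) (hs.inf w)
  -- the blocks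
  obtain ⟨n, hn⟩ := (A.to_countable).exists_eq_range hA
  have hn2 : ∀ k, 2 ≤ n k := fun k => hA2 _ (hn ▸ mem_range_self k)
  have hinf : Infinite (Σ k, Fin (n k)) := by
    have : ∀ k, Nonempty (Fin (n k)) := fun k => ⟨⟨0, by have := hn2 k; omega⟩⟩
    exact Infinite.of_surjective (fun x : Σ k, Fin (n k) => x.1) (fun k => ⟨⟨k, Classical.arbitrary _⟩, rfl⟩)
  obtain ⟨E⟩ : Nonempty (ℕ ≃ Σ k, Fin (n k)) := nonempty_equiv_of_countable
  obtain ⟨b, hb⟩ : ∃ b : ℕ → ℕ, b = fun i => (E i).1 := ⟨_, rfl⟩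
  have hbcard : ∀ k, {j | b j = k}.encard = n k := by
    intro k
    have h3 : {j | b j = k} = range (fun a : Fin (n k) => E.symm ⟨k, a⟩) := by
      ext j
      rw [mem_ofPred_eq, mem_range]
      constructor
      · intro h
        have h4 : (E j).1 = k := by rw [← h, hb]
        generalize hEj : E j = z at h4
        obtain ⟨k', a⟩ := z
        have h5 : k' = k := h4
        subst h5
        exact ⟨a, by rw [← hEj]; exact E.symm_apply_apply j⟩
      · rintro ⟨a, rfl⟩
        rw [hb]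
        simp
    rw [h3, ← image_univ, Function.Injective.encard_image]
    · rw [encard_univ]
      simp
    · intro a a' haa
      have := E.symm.injective haa
      simpa using this
  have hbsurj : Function.Surjective b := by
    intro k
    have h3 : {j | b j = k}.Nonempty := by
      rw [← encard_ne_zero, hbcard]
      have := hn2 k
      exact_mod_cast (by omega : n k ≠ 0)
    exact h3
  -- the patterns
  obtain ⟨e, he⟩ := exists_surjective_nat ((ℕ × Θ × Θ) × ℕ)
  have heinf : ∀ t, {m | (e m).1 = t}.Infinite := by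
    intro t
    choose m hm using fun i : ℕ => he (t, i)
    refine Set.infinite_of_injective_forall_mem (f := m) ?_ (fun i => ?_)
    · intro i j hij
      have h3 := hm i
      rw [hij, hm j] at h3
      exact (congrArg Prod.snd h3).symm
    · rw [mem_ofPred_eq, hm]
  set K := KK τ p v₀ ν b with hK
  have hKp0 : ∀ i, K (v₀, i) = 4 * b i := by
    intro i
    rw [hK]
    unfold KK
    rw [if_pos hv₀, if_pos rfl]
  have hKp : ∀ v i, τ v = p → v ≠ v₀ → K (v, i) = 4 * ν v + 2 := by
    intro v i hv hv0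
    rw [hK]
    unfold KK
    rw [if_pos hv, if_neg hv0]
  have hKq : ∀ v i, τ v ≠ p → K (v, i) = 2 * i + 1 := by
    intro v i hv
    rw [hK]
    unfold KK
    rw [if_neg hv]
  have hyy : ∀ r, D.c r = ⊤ → ∃ yy : ℕ → V × ℕ, (∀ m, τ (yy m).1 = r ∧ K (yy m) / 4 = m) ∧
      Function.Injective (fun m => (yy m).2) := by
    intro r hr
    by_cases hrp : r = p
    · choose sec hsec using hbsurj
      refine ⟨fun m => (v₀, sec m), fun m => ⟨hv₀.trans hrp.symm, ?_⟩, ?_⟩
      · rw [hKp0, hsec]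
        omega
      · intro m m' hmm
        have h3 := hsec m
        have h4 : sec m = sec m' := hmm
        rw [h4, hsec] at h3
        exact h3.symm
    · obtain ⟨w, hw⟩ := hs.onto r hr
      refine ⟨fun m => (w, 2 * m), fun m => ⟨hw, ?_⟩, ?_⟩
      · rw [hKq w _ (by rw [hw]; exact hrp)]
        omega
      · intro m m' hmm
        have h4 : 2 * m = 2 * m' := hmm
        omega
  have hmany : ∀ r, D.c r = ⊤ → ∀ (k k' : ℕ) (θ θ' : Θ) (i i' : ℕ), k ≠ k' →
      {y : V × ℕ | τ y.1 = r ∧ y.2 ≠ i ∧ y.2 ≠ i' ∧ k < K y ∧ k' < K y ∧ PP e (K y) k = θ ∧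
        PP e (K y) k' = θ'}.Infinite := by
    intro r hr k k' θ θ' i i' hkk
    obtain ⟨yy, hyy1, hyy2⟩ := hyy r hr
    have h3 : ({m | (e m).1 = (k, θ, θ')} \ ({m | m ≤ k} ∪ {m | m ≤ k'} ∪ {m | (yy m).2 = i} ∪
        {m | (yy m).2 = i'})).Infinite := by
      refine (heinf _).sdiff ?_
      refine ((Set.Finite.union (Set.finite_le_nat k) (Set.finite_le_nat k')).union ?_).union ?_
      · exact Set.Subsingleton.finite fun m hm m' hm' => hyy2 (hm.trans hm'.symm)
      · exact Set.Subsingleton.finite fun m hm m' hm' => hyy2 (hm.trans hm'.symm)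
    have hinj : Function.Injective yy := fun m m' hmm => hyy2 (congrArg Prod.snd hmm)
    refine ((h3.image hinj.injOn)).mono ?_
    rintro _ ⟨m, ⟨hm1, hm2⟩, rfl⟩
    simp only [mem_union, mem_ofPred_eq, not_or, not_le] at hm2
    obtain ⟨⟨⟨hm3, hm4⟩, hm5⟩, hm6⟩ := hm2
    have hm7 := (hyy1 m).2
    have hm1' : (e m).1 = (k, θ, θ') := hm1
    refine ⟨(hyy1 m).1, hm5, hm6, by omega, by omega, ?_, ?_⟩
    · unfold PP
      rw [hm7, hm1', if_pos rfl]
    · unfold PP
      rw [hm7, hm1', if_neg (Ne.symm hkk)]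
  have hNon : ∀ x y : V × ℕ, y.2 ≠ x.2 → Non s x y := fun x y h =>
    ⟨fun h' => h (by rw [h']), fun h' => h h'.1.symm⟩
  refine ⟨HH D τ K ν e df, ⟨fun x y h => HH_symm hν h.1, fun x y _ => HH_bi hdf' x y, ?_⟩, ?_⟩
  · -- many
    intro x r θ hr hb
    refine (hmany r hr (K x) (K x + 1) θ θ x.2 x.2 (by omega)).mono ?_
    rintro y ⟨a1, a2, a3, a4, a5, a6, a7⟩
    refine ⟨hNon x y a2, a1, ?_⟩
    rw [HH_lt a4 (by rw [a6, a1]; exact hb), a6]
  · -- the classes
    have hclass : ∀ x : V × ℕ, τ x.1 = p → {x' : V × ℕ | τ x'.1 = p ∧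
        {y : V × ℕ | τ y.1 = q ∧ Non s x y ∧ Non s x' y ∧
          HH D τ K ν e df x y ≠ HH D τ K ν e df x' y}.Finite} =
        {x' : V × ℕ | τ x'.1 = p ∧ K x' = K x} := by
      intro x hx
      ext x'
      simp only [mem_ofPred_eq]
      refine and_congr_right fun hx' => ⟨fun hfin => ?_, fun hKK => ?_⟩
      · by_contra hKK
        refine (hmany q hq (K x) (K x') θ₁ θ₂ x.2 x'.2 (Ne.symm hKK)) (hfin.subset ?_)
        rintro y ⟨a1, a2, a3, a4, a5, a6, a7⟩
        refine ⟨a1, hNon x y a2, hNon x' y a3, ?_⟩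
        rw [HH_lt a4 (by rw [a6, a1, hx]; exact h1), HH_lt a5 (by rw [a7, a1, hx']; exact h2), a6, a7]
        exact hne
      · -- the same class
        have hsub : {y : V × ℕ | τ y.1 = q ∧ Non s x y ∧ Non s x' y ∧
            HH D τ K ν e df x y ≠ HH D τ K ν e df x' y} ⊆
            {y : V × ℕ | τ y.1 = p ∧ K y = K x ∧ y.2 ≤ max x.2 x'.2} := by
          rintro y ⟨a1, a2, a3, a4⟩
          have hKy : K y = K x := by
            by_contra h
            exact a4 (HH_congr hKK (hx'.trans hx.symm) h)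
          have hyp : τ y.1 = p := by
            by_contra h
            have h3 := hKq y.1 y.2 h
            rw [Prod.mk.eta] at h3
            by_cases hxv : x.1 = v₀
            · have h4 := hKp0 x.2
              rw [← hxv, Prod.mk.eta] at h4
              omega
            · have h4 := hKp x.1 x.2 hx hxv
              rw [Prod.mk.eta] at h4
              omega
          refine ⟨hyp, hKy, ?_⟩
          by_contra hmax
          rw [not_le, max_lt_iff] at hmax
          apply a4
          unfold HH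
          rw [if_neg (by omega : ¬ K x < K y), if_neg (by omega : ¬ K y < K x),
            if_neg (by omega : ¬ K x' < K y), if_neg (by omega : ¬ K y < K x'),
            if_pos (Or.inl hmax.1), if_pos (Or.inl hmax.2), hx, hx']
        refine Set.Finite.subset ?_ hsub
        refine Set.Finite.of_finite_image (f := Prod.snd)
          ((Set.finite_le_nat (max x.2 x'.2)).subset ?_) ?_
        · rintro _ ⟨y, ⟨-, -, hy⟩, rfl⟩
          exact hy
        · -- points of one class are in different copies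
          rintro y ⟨hy1, hy2, -⟩ y' ⟨hy1', hy2', -⟩ hyy'
          have hKe : K y = K y' := hy2.trans hy2'.symm
          refine Prod.ext ?_ hyy'
          by_cases c1 : y.1 = v₀ <;> by_cases c2 : y'.1 = v₀
          · rw [c1, c2]
          · exfalso
            have h3 := hKp0 y.2
            rw [← c1, Prod.mk.eta] at h3
            have h4 := hKp y'.1 y'.2 hy1' c2
            rw [Prod.mk.eta] at h4
            omega
          · exfalso
            have h3 := hKp0 y'.2
            rw [← c2, Prod.mk.eta] at h3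
            have h4 := hKp y.1 y.2 hy1 c1
            rw [Prod.mk.eta] at h4
            omega
          · have h3 := hKp y.1 y.2 hy1 c1
            have h4 := hKp y'.1 y'.2 hy1' c2
            rw [Prod.mk.eta] at h3 h4
            apply hν
            omega
    -- the sizes of the classes
    have hsize : ∀ i, {x' : V × ℕ | τ x'.1 = p ∧ K x' = K (v₀, i)}.encard = n (b i) := by
      intro i
      have h3 : {x' : V × ℕ | τ x'.1 = p ∧ K x' = K (v₀, i)} =
          (fun j => (v₀, j)) '' {j | b j = b i} := by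
        ext x'
        constructor
        · rintro ⟨hx1, hx2⟩
          have h4 : x'.1 = v₀ := by
            by_contra h
            have h5 := hKp x'.1 x'.2 hx1 h
            rw [Prod.mk.eta, hx2, hKp0] at h5
            omega
          refine ⟨x'.2, ?_, Prod.ext h4.symm rfl⟩
          have h5 := hKp0 x'.2
          rw [← h4, Prod.mk.eta, hx2, hKp0] at h5
          rw [mem_ofPred_eq]
          omega
        · rintro ⟨j, hj, rfl⟩
          refine ⟨hv₀, ?_⟩
          rw [hKp0, hKp0, hj]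
      rw [h3, Function.Injective.encard_image, hbcard]
      intro j j' hjj
      exact congrArg Prod.snd hjj
    intro m
    constructor
    · rintro ⟨x, hx, hx2⟩
      rw [hclass x hx] at hx2
      by_cases hxv : x.1 = v₀
      · have h3 := hsize x.2
        rw [← hxv, Prod.mk.eta, hx2] at h3
        have h4 : m = n (b x.2) := by exact_mod_cast h3
        rw [h4, hn]
        exact mem_range_self _
      · exfalso
        have h3 : {x' : V × ℕ | τ x'.1 = p ∧ K x' = K x}.Infinite := by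
          refine Set.infinite_of_injective_forall_mem (f := fun j : ℕ => (x.1, j))
            (fun j j' hjj => congrArg Prod.snd hjj) (fun j => ⟨hx, ?_⟩)
          have h4 := hKp x.1 x.2 hx hxv
          rw [Prod.mk.eta] at h4
          rw [h4, hKp x.1 j hx hxv]
        rw [← encard_eq_top_iff, hx2] at h3
        exact ENat.natCast_ne_top m h3
    · intro hm
      rw [hn] at hm
      obtain ⟨k, rfl⟩ := hm
      obtain ⟨i, rfl⟩ := hbsurj k
      refine ⟨(v₀, i), hv₀, ?_⟩
      rw [hclass (v₀, i) hv₀, hsize]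

end Pool.Agent.H8C2
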