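import Pool.Agent.H8C2.StmB

/-!
# Piece DEG of project H8C2: degrees in saturated structures (helper14)
-/

set_option autoImplicit false

namespace Pool.Agent.H8C2

open FirstOrder Set MeasureTheory
open Pool.Agent.H565R2.FO2 (pick pick_false pick_true Interp Code toI ofI toI_ofI Iso)
open Pool.Agent.H565R2.LO2 (PerfK)

namespace DEGa

variable {L : FirstOrder.Language.{0, 0}} {M U Y : Type}

theorem le_encard_iff_fin {α : Type} {S : Set α} {k : ℕ} :
    (k : ℕ∞) ≤ S.encard ↔ ∃ b : Fin k → α, Function.Injective b ∧ ∀ i, b i ∈ S := by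
  constructor
  · intro h
    obtain ⟨t, htS, ht⟩ := Set.exists_subset_encard_eq h
    have hfin : t.Finite := Set.finite_of_encard_eq_coe ht
    have hc : t.ncard = k := by
      rw [Set.ncard, ht]; simp
    have := hfin.to_subtype
    have e : Fin k ≃ t := by
      have h1 : Nat.card t = k := hc
      exact (Finite.equivFinOfCardEq h1).symm
    exact ⟨fun i => (e i : α), fun i j hij => e.injective (Subtype.ext hij), fun i => htS (e i).2⟩
  · rintro ⟨b, hb, hS⟩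
    have h1 : (k : ℕ∞) ≤ (range b).encard := by
      have := hb.encard_range
      simpa using this
    exact h1.trans (Set.encard_le_encard (by rintro _ ⟨i, rfl⟩; exact hS i))

/-- Finite conjunctions. -/
theorem exists_conj (s : Set (C2F L)) (hs : s.Finite) : ∃ Ψ : C2F L, ∀ (M : Type) (I : Interp L M) (x y : M),
    Sat I Ψ x y ↔ ∀ ψ ∈ s, Sat I ψ x y := by
  induction s, hs using Set.Finite.induction_on with
  | empty =>
    refine ⟨.eq false false, fun M I x y => ?_⟩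
    simp [Sat]
  | @insert a s ha hs ih =>
    obtain ⟨Ψ, h⟩ := ih
    refine ⟨.and a Ψ, fun M I x y => ?_⟩
    simp only [Sat, h, mem_insert_iff, forall_eq_or_imp]

theorem tp_eq_of {J : Interp L U} {z y₀ : U} (h : ∀ ψ : C2F L, Sat J ψ y₀ y₀ → Sat J ψ z z) :
    tp J z = tp J y₀ := by
  funext φ
  refine propext ⟨fun h1 => ?_, h φ⟩
  by_contra h2
  exact h (.neg φ) h2 h1

theorem core (J : Interp L U) (hJ : CSat J) (x y₀ : U) (χ : C2F L) (k : ℕ)
    (h : ∀ ψ : C2F L, Sat J ψ y₀ y₀ → (k : ℕ∞) ≤ {z | Sat J χ x z ∧ Sat J ψ z z}.encard) :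
    (k : ℕ∞) ≤ {z | Sat J χ x z ∧ tp J z = tp J y₀}.encard := by
  classical
  rw [le_encard_iff_fin]
  let C : Set (C2F L × (Unit ⊕ Fin k) × (Unit ⊕ Fin k)) :=
    {c | (∃ i j, i ≠ j ∧ c = (.neg (.eq false true), .inr i, .inr j)) ∨
      (∃ i, c = (χ, .inl (), .inr i)) ∨ (∃ i ψ, Sat J ψ y₀ y₀ ∧ c = (ψ, .inr i, .inr i))}
  obtain ⟨b, hb⟩ := hJ Unit (Fin k) (fun _ => x) C (by
    intro s hsC hs
    obtain ⟨Ψ, hΨ⟩ := exists_conj {ψ | ψ ∈ Prod.fst '' s ∧ Sat J ψ y₀ y₀} ((hs.image _).subset fun ψ h => h.1)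
    obtain ⟨b, hb1, hb2⟩ := le_encard_iff_fin.1 (h Ψ ((hΨ U J y₀ y₀).2 fun ψ hψ => hψ.2))
    refine ⟨b, fun c hc => ?_⟩
    rcases hsC hc with ⟨i, j, hij, rfl⟩ | ⟨i, rfl⟩ | ⟨i, ψ, hψ, rfl⟩
    · exact fun he => hij (hb1 he)
    · exact (hb2 i).1
    · exact (hΨ U J _ _).1 (hb2 i).2 ψ ⟨⟨_, hc, rfl⟩, hψ⟩)
  refine ⟨b, fun i j hij => ?_, fun i => ⟨?_, ?_⟩⟩
  · by_contra hne
    exact hb _ (Or.inl ⟨i, j, hne, rfl⟩) hij
  · exact hb _ (Or.inr (Or.inl ⟨i, rfl⟩))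
  · exact tp_eq_of fun ψ hψ => hb _ (Or.inr (Or.inr ⟨i, ψ, hψ, rfl⟩))

theorem sat_of_tp {J : Interp L U} {z y₀ : U} (h : tp J z = tp J y₀) {ψ : C2F L} (hψ : Sat J ψ y₀ y₀) :
    Sat J ψ z z := by
  have := congrFun h ψ
  exact this.mpr hψ

end DEGa

open DEGa

theorem t_DEG1 (h2 : S_FML2) : S_DEG1 := by
  intro L _ _ U J hJ x y₀ θ k
  constructor
  · intro h ψ hψ
    refine h.trans (Set.encard_le_encard ?_)
    rintro z ⟨h1, h3, h4⟩
    exact ⟨h1, h4, sat_of_tp h3 hψ⟩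
  · intro h
    obtain ⟨χ, hχ⟩ := h2 L θ
    have h5 : ∀ z, Sat J (.and (.neg (.eq false true)) χ) x z ↔ z ≠ x ∧ th J x z = θ := by
      intro z
      simp only [Sat, hχ, pick_false, pick_true, ne_eq, eq_comm]
    have h6 := core J hJ x y₀ (.and (.neg (.eq false true)) χ) k (by
      intro ψ hψ
      refine (h ψ hψ).trans (Set.encard_le_encard ?_)
      rintro z ⟨h1, h3, h4⟩
      exact ⟨(h5 z).2 ⟨h1, h3⟩, h4⟩)
    refine h6.trans (Set.encard_le_encard ?_)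
    rintro z ⟨h1, h3⟩
    exact ⟨((h5 z).1 h1).1, h3, ((h5 z).1 h1).2⟩

theorem t_DEG2 : S_DEG2 := by
  intro L _ U J hJ y₀ k
  constructor
  · intro h ψ hψ
    refine h.trans (Set.encard_le_encard ?_)
    intro z h3
    exact sat_of_tp h3 hψ
  · intro h
    have h5 : ∀ z, Sat J (.eq false false) y₀ z := fun z => rfl
    have h6 := core J hJ y₀ y₀ (.eq false false) k (by
      intro ψ hψ
      refine (h ψ hψ).trans (Set.encard_le_encard ?_)
      intro z h4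
      exact ⟨h5 z, h4⟩)
    refine h6.trans (Set.encard_le_encard ?_)
    rintro z ⟨h1, h3⟩
    exact h3

theorem t_DEG3 (h2 : S_FML2) (h3 : S_FML3) : S_DEG3 := by
  intro L _ _ U J hJ
  refine ⟨fun x y hxy => rfl, fun q => rfl, fun x θ q => ?_⟩
  apply le_antisymm
  · exact le_iSup (fun x' : {x' // tp J x' = tp J x} =>
      {y | y ≠ x'.1 ∧ tp J y = q ∧ th J x'.1 y = θ}.encard) ⟨x, rfl⟩
  · refine iSup_le fun x' => ?_
    obtain ⟨x', hx'⟩ := x'
    refine ENat.forall_natCast_le_iff_le.1 fun k hk => ?_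
    by_cases hq : ∃ y₀, tp J y₀ = q
    · obtain ⟨y₀, rfl⟩ := hq
      have h4 := (t_DEG1 h2 L U J hJ x' y₀ θ k).1 hk
      refine (t_DEG1 h2 L U J hJ x y₀ θ k).2 fun ψ hψ => ?_
      obtain ⟨χ, hχ⟩ := h3 L k θ ψ
      rw [← hχ U J x x]
      exact sat_of_tp hx'.symm ((hχ U J x' x').2 (h4 ψ hψ))
    · have : {y | y ≠ x' ∧ tp J y = q ∧ th J x' y = θ} = ∅ := by
        ext y
        simp only [mem_ofPred_eq, mem_empty_iff_false, iff_false]
        rintro ⟨-, h, -⟩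
        exact hq ⟨y, h⟩
      rw [this, Set.encard_empty] at hk
      exact hk.trans zero_le

end Pool.Agent.H8C2
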