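import Pool.Agent.H8C2.StmB

/-!
Uniformly definable relations of project H8C2 (used by the pieces PART and FLIP).
-/

set_option autoImplicit false

namespace Pool.Agent.H8C2.PF

open FirstOrder Set
open Pool.Agent.H565R2.FO2 (pick Interp)
open Pool.Agent.H8C2

variable {L : FirstOrder.Language.{0, 0}}

/-- Uniform relations. -/
abbrev UR (L : FirstOrder.Language.{0, 0}) : Type 1 := ∀ (M : Type), Interp L M → M → M → Prop

/-- Uniformly definable relations. -/
def Df (P : UR L) : Prop :=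
  ∃ χ : C2F L, ∀ (M : Type) (I : Interp L M) (x y : M), Sat I χ x y ↔ P M I x y

theorem Df.neg {P : UR L} (h : Df P) : Df (L := L) (fun M I x y => ¬ P M I x y) := by
  obtain ⟨χ, hχ⟩ := h
  exact ⟨.neg χ, fun M I x y => not_congr (hχ M I x y)⟩

theorem Df.and {P Q : UR L} (h : Df P) (h' : Df Q) :
    Df (L := L) (fun M I x y => P M I x y ∧ Q M I x y) := by
  obtain ⟨χ, hχ⟩ := h
  obtain ⟨χ', hχ'⟩ := h'
  exact ⟨.and χ χ', fun M I x y => and_congr (hχ M I x y) (hχ' M I x y)⟩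

theorem Df.congr {P Q : UR L} (h : Df P) (e : ∀ M I x y, P M I x y ↔ Q M I x y) : Df Q := by
  obtain ⟨χ, hχ⟩ := h
  exact ⟨χ, fun M I x y => (hχ M I x y).trans (e M I x y)⟩

theorem Df.or {P Q : UR L} (h : Df P) (h' : Df Q) :
    Df (L := L) (fun M I x y => P M I x y ∨ Q M I x y) :=
  (h.neg.and h'.neg).neg.congr fun M I x y => by tauto

theorem Df.imp {P Q : UR L} (h : Df P) (h' : Df Q) :
    Df (L := L) (fun M I x y => P M I x y → Q M I x y) :=
  (h.neg.or h').congr fun M I x y => by tauto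

theorem Df.iff {P Q : UR L} (h : Df P) (h' : Df Q) :
    Df (L := L) (fun M I x y => P M I x y ↔ Q M I x y) :=
  ((h.imp h').and (h'.imp h)).congr fun M I x y => by tauto

theorem Df.eq : Df (L := L) (fun _ _ x y => x = y) :=
  ⟨.eq false true, fun _ _ _ _ => Iff.rfl⟩

theorem Df.const (p : Prop) : Df (L := L) (fun _ _ _ _ => p) := by
  have h1 : Df (L := L) (fun _ _ x _ => x = x) := ⟨.eq false false, fun _ _ _ _ => Iff.rfl⟩
  by_cases hp : p
  · exact h1.congr fun M I x y => by simp [hp]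
  · exact h1.neg.congr fun M I x y => by simp [hp]

theorem Df.exs {α : Type} (s : Finset α) {P : α → UR L} (h : ∀ a, Df (P a)) :
    Df (L := L) (fun M I x y => ∃ a ∈ s, P a M I x y) := by
  classical
  induction s using Finset.induction_on with
  | empty => exact (Df.const False).congr fun M I x y => by simp
  | insert a s _ ih => exact ((h a).or ih).congr fun M I x y => by simp

theorem Df.exf {α : Type} [Finite α] {P : α → UR L} (h : ∀ a, Df (P a)) :
    Df (L := L) (fun M I x y => ∃ a, P a M I x y) := by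
  have := Fintype.ofFinite α
  exact (Df.exs Finset.univ h).congr fun M I x y => by simp

theorem Df.allf {α : Type} [Finite α] {P : α → UR L} (h : ∀ a, Df (P a)) :
    Df (L := L) (fun M I x y => ∀ a, P a M I x y) :=
  (Df.exf fun a => (h a).neg).neg.congr fun M I x y => by simp

theorem Df.fst (h : S_FML1) (ψ : C2F L) : Df (L := L) (fun _ I x _ => Sat I ψ x x) := (h L ψ).1

theorem Df.snd (h : S_FML1) (ψ : C2F L) : Df (L := L) (fun _ I _ y => Sat I ψ y y) := (h L ψ).2

theorem Df.th (h : S_FML2) [Finite (L.Relations 2)] (θ : T2 L) :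
    Df (L := L) (fun _ I x y => H8C2.th I x y = θ) := h L θ

theorem Df.deg (h : S_FML3) [Finite (L.Relations 2)] (k : ℕ) (θ : T2 L) (ψ : C2F L) :
    Df (L := L) (fun _ I x _ => (k : ℕ∞) ≤ {z | z ≠ x ∧ H8C2.th I x z = θ ∧ Sat I ψ z z}.encard) :=
  h L k θ ψ

theorem Df.num (h : S_FML4) (k : ℕ) (ψ : C2F L) :
    Df (L := L) (fun _ I _ _ => (k : ℕ∞) ≤ {z | Sat I ψ z z}.encard) := h L k ψ

/-- The use of saturation. -/
theorem csat_sem {U : Type} {J : Interp L U} (h : CSat J) {κ : Type} [Countable κ] {Λ : Type}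
    (P : Λ → UR L) (hP : ∀ l, Df (P l)) (p q : Λ → κ)
    (hfin : ∀ s : Set Λ, s.Finite → ∃ b : κ → U, ∀ l ∈ s, P l U J (b (p l)) (b (q l))) :
    ∃ b : κ → U, ∀ l, P l U J (b (p l)) (b (q l)) := by
  choose χ hχ using hP
  have h0 : ∃ b : κ → U, ∀ z ∈ range (fun l : Λ => (χ l, (Sum.inr (p l) : Empty ⊕ κ),
      (Sum.inr (q l) : Empty ⊕ κ))), Sat J z.1 (Sum.elim Empty.elim b z.2.1)
        (Sum.elim Empty.elim b z.2.2) := by
    refine h Empty κ Empty.elim _ ?_
    intro s hs hsf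
    choose l hl using hs
    have := hsf.to_subtype
    obtain ⟨b, hb⟩ := hfin (range fun z : s => l z.2) (finite_range _)
    refine ⟨b, fun z hz => ?_⟩
    have h1 := (hχ _ U J _ _).2 (hb (l hz) ⟨⟨z, hz⟩, rfl⟩)
    have h2 := hl hz
    rw [← h2]
    exact h1
  obtain ⟨b, hb⟩ := h0
  exact ⟨b, fun l => (hχ l U J _ _).1 (hb _ ⟨l, rfl⟩)⟩

section good

variable {U : Type} {J : Interp L U}

/-- Infinite types. -/
theorem top_iff (hD2 : S_DEG2) [∀ n, Countable (L.Relations n)] (h : CSat J) (y₀ : U) :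
    (H8C2.dat J).c (tp J y₀) = ⊤ ↔
      ∀ (k : ℕ) (ψ : C2F L), Sat J ψ y₀ y₀ → (k : ℕ∞) ≤ {z | Sat J ψ z z}.encard := by
  have e : (H8C2.dat J).c (tp J y₀) = {y | tp J y = tp J y₀}.encard := rfl
  rw [e, ENat.eq_top_iff_forall_ge]
  exact forall_congr' fun k => hD2 L U J h y₀ k

/-- Generic binary types. -/
theorem bi_iff (hD1 : S_DEG1) [∀ n, Countable (L.Relations n)] [Finite (L.Relations 2)] (h : CSat J)
    (hf : Fits (H8C2.dat J) (tp J) (th J)) (x y : U) (θ : T2 L) :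
    (H8C2.dat J).Bi (tp J x) θ (tp J y) ↔
      (∀ (k : ℕ) (ψ : C2F L), Sat J ψ y y →
        (k : ℕ∞) ≤ {z | z ≠ x ∧ th J x z = θ ∧ Sat J ψ z z}.encard) ∧
      (∀ (k : ℕ) (ψ : C2F L), Sat J ψ x x →
        (k : ℕ∞) ≤ {z | z ≠ y ∧ th J y z = (H8C2.dat J).star θ ∧ Sat J ψ z z}.encard) := by
  unfold Dat.Bi
  rw [← hf.deg x θ (tp J y), ← hf.deg y ((H8C2.dat J).star θ) (tp J x), ENat.eq_top_iff_forall_ge,
    ENat.eq_top_iff_forall_ge]
  exact and_congr (forall_congr' fun k => hD1 L U J h x y θ k)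
    (forall_congr' fun k => hD1 L U J h y x _ k)

end good

end Pool.Agent.H8C2.PF
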