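import Pool.Agent.H8C2.DF

/-!
Piece FLIP of project H8C2: the models are finite flips of graphs without infinite clique subdivision.
-/

set_option autoImplicit false

namespace Pool.Agent.H8C2

open FirstOrder Set
open Pool.Agent.H565R2.FO2 (pick Interp)

variable {L : FirstOrder.Language.{0, 0}}

namespace PF

/-- The truth values of the formulas in `F`. -/
def vals (F : Finset (C2F L)) {M : Type} (I : Interp L M) (u : M) : {φ // φ ∈ F} → Prop :=
  fun φ => Sat I φ.1 u u

/-- The exceptional pairs. -/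
def adj (F : Finset (C2F L)) (G : ({φ // φ ∈ F} → Prop) → ({φ // φ ∈ F} → Prop) → T2 L) : UR L :=
  fun _ I x y => x ≠ y ∧
    (th I x y ≠ G (vals F I x) (vals F I y) ∨ th I y x ≠ G (vals F I y) (vals F I x))

theorem df_vals (h1 : S_FML1) (F : Finset (C2F L)) (a b : {φ // φ ∈ F} → Prop) :
    Df (L := L) (fun _ I x y => vals F I x = a ∧ vals F I y = b) := by
  have h : Df (L := L) (fun _ I x y => (∀ φ : {φ // φ ∈ F}, (Sat I φ.1 x x ↔ a φ)) ∧
      ∀ φ : {φ // φ ∈ F}, (Sat I φ.1 y y ↔ b φ)) :=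
    (Df.allf fun φ => (Df.fst h1 φ.1).iff (Df.const (a φ))).and
      (Df.allf fun φ => (Df.snd h1 φ.1).iff (Df.const (b φ)))
  refine h.congr fun M I x y => ?_
  simp only [funext_iff, vals, eq_iff_iff]

theorem df_adj (h1 : S_FML1) (h2 : S_FML2) [Finite (L.Relations 2)] (F : Finset (C2F L))
    (G : ({φ // φ ∈ F} → Prop) → ({φ // φ ∈ F} → Prop) → T2 L) : Df (adj F G) := by
  have hA : Df (L := L) (fun _ I x y => th I x y = G (vals F I x) (vals F I y)) := by
    have h : Df (L := L) (fun _ I x y => ∃ a, ∃ b, (vals F I x = a ∧ vals F I y = b) ∧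
        th I x y = G a b) :=
      Df.exf fun a => Df.exf fun b => (df_vals h1 F a b).and (Df.th h2 (G a b))
    refine h.congr fun M I x y => ⟨?_, fun h' => ⟨_, _, ⟨rfl, rfl⟩, h'⟩⟩
    rintro ⟨a, b, ⟨rfl, rfl⟩, h'⟩
    exact h'
  have hB : Df (L := L) (fun _ I x y => th I y x = G (vals F I y) (vals F I x)) := by
    have h : Df (L := L) (fun _ I x y => ∃ a, ∃ b, (vals F I x = a ∧ vals F I y = b) ∧
        th I x y = fun R => ((G b a R).2, (G b a R).1)) :=
      Df.exf fun a => Df.exf fun b => (df_vals h1 F a b).and (Df.th h2 _)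
    refine h.congr fun M I x y => ⟨?_, fun h' => ⟨_, _, ⟨rfl, rfl⟩, ?_⟩⟩
    · rintro ⟨a, b, ⟨rfl, rfl⟩, h'⟩
      funext R
      have h3 := congrFun h' R
      have h4 := congrArg Prod.fst h3
      have h5 := congrArg Prod.snd h3
      exact Prod.ext h5 h4
    · funext R
      have h3 := congrFun h' R
      have h4 := congrArg Prod.fst h3
      have h5 := congrArg Prod.snd h3
      exact Prod.ext h5 h4
  exact Df.eq.neg.and (hA.neg.or hB.neg)

/-- The conditions. -/
inductive Cf (L : FirstOrder.Language.{0, 0}) : Type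
  | a : ℕ → Cf L
  | b : ℕ → ℕ → Cf L
  | c : C2F L → ℕ → Cf L

def Cf.P (A : UR L) {U : Type} (J : Interp L U) : Cf L → UR L
  | .a _ => A
  | .b i j => fun _ _ x y => i ≠ j → ¬ x = y
  | .c φ _ => fun _ I x _ => {z | Sat J φ z z}.Finite → ¬ Sat I φ x x

def Cf.p : Cf L → ℕ
  | .a i => i
  | .b i _ => i
  | .c _ i => i

def Cf.q : Cf L → ℕ
  | .a i => i + 1
  | .b _ j => j
  | .c _ i => i

theorem Cf.df (h1 : S_FML1) {A : UR L} (hA : Df A) {U : Type} (J : Interp L U) :
    ∀ l : Cf L, Df (l.P A J)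
  | .a _ => hA
  | .b _ _ => (Df.const _).imp Df.eq.neg
  | .c φ _ => (Df.const _).imp (Df.fst h1 φ).neg

end PF

open PF

theorem t_FLIP (h1 : S_FML1) (h2 : S_FML2) (hD2 : S_DEG2) (hP : S_PART) (hW : S_WALK)
    (hR : S_RAY) : S_FLIP := by
  classical
  intro L _ _ U J hJ I f hf
  obtain ⟨F, G, hG⟩ := hP L U J hJ
  have hadj : Df (adj F G) := df_adj h1 h2 F G
  have hinj : Function.Injective f := by
    intro x y hxy
    exact (hf (.eq false true) x y).2 hxy
  have htr : ∀ x y, adj F G ℕ I x y → adj F G U J (f x) (f y) := by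
    obtain ⟨χ, hχ⟩ := hadj
    intro x y h
    exact (hχ U J _ _).1 ((hf χ x y).1 ((hχ ℕ I x y).2 h))
  let S : SimpleGraph ℕ :=
    { Adj := fun u v => adj F G ℕ I u v
      symm := ⟨fun u v h => ⟨h.1.symm, h.2.symm⟩⟩
      loopless := ⟨fun u h => h.1 rfl⟩ }
  let e := Finite.equivFin ({φ // φ ∈ F} → Prop)
  refine ⟨S, _, fun u => e (vals F I u), fun R a b => (G (e.symm a) (e.symm b) R).1, ?_, ?_⟩
  · intro hsub
    obtain ⟨x, hx⟩ := csat_sem hJ.sat (Cf.P (adj F G) J) (Cf.df h1 hadj J) Cf.p Cf.q (by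
      intro s hs
      have hfin : {z : ℕ | ∃ φ i, (Cf.c φ i : Cf L) ∈ s ∧ {z | Sat J φ z z}.Finite ∧
          Sat J φ (f z) (f z)}.Finite := by
        have hsub' : {z : ℕ | ∃ φ i, (Cf.c φ i : Cf L) ∈ s ∧ {z | Sat J φ z z}.Finite ∧
            Sat J φ (f z) (f z)} ⊆
            ⋃ l ∈ s, {z : ℕ | ∃ φ i, l = Cf.c φ i ∧ {z | Sat J φ z z}.Finite ∧
              Sat J φ (f z) (f z)} := by
          rintro z ⟨φ, i, hl, h3, h4⟩
          exact mem_iUnion₂.2 ⟨_, hl, φ, i, rfl, h3, h4⟩
        refine (hs.biUnion fun l _ => ?_).subset hsub'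
        rcases l with i | ⟨i, j⟩ | ⟨φ, i⟩
        · refine finite_empty.subset ?_
          rintro z ⟨_, _, h, -⟩
          cases h
        · refine finite_empty.subset ?_
          rintro z ⟨_, _, h, -⟩
          cases h
        · by_cases hφ : {z | Sat J φ z z}.Finite
          · refine (hφ.preimage hinj.injOn).subset ?_
            rintro z ⟨φ', i', h, -, h4⟩
            cases h
            exact h4
          · refine finite_empty.subset ?_
            rintro z ⟨φ', i', h, h3, -⟩
            cases h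
            exact hφ h3
      obtain ⟨x, hx1, hx2, hx3⟩ := hR S hsub hfin.toFinset
      refine ⟨fun i => f (x i), ?_⟩
      rintro (i | ⟨i, j⟩ | ⟨φ, i⟩) hl
      · exact htr _ _ (hx2 i)
      · exact fun hij h => hij (hx1 (hinj h))
      · intro hφ h
        exact hx3 i (hfin.mem_toFinset.2 ⟨φ, i, hl, hφ, h⟩))
    have hinf : ∀ i, (dat J).c (tp J (x i)) = ⊤ := by
      intro i
      refine (top_iff hD2 hJ.sat _).2 fun k ψ hψ => ?_
      have h3 : ¬ {z | Sat J ψ z z}.Finite := fun h => hx (.c ψ i) h hψ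
      rw [encard_eq_top_iff.2 h3]
      exact le_top
    refine hW L U J hJ ⟨x, ?_, hinf, ?_⟩
    · intro i j hij
      by_contra hne
      exact hx (.b i j) hne hij
    · intro i hB
      have h4 := (hx (.a i) : adj F G U J (x i) (x (i + 1)))
      have e1 := (hJ.bi _ _ (hinf i) (hinf (i + 1))).unique hB (hG _ _ (hinf i) (hinf (i + 1)))
      have e2 := (hJ.bi _ _ (hinf (i + 1)) (hinf i)).unique hB.symm
        (hG _ _ (hinf (i + 1)) (hinf i))
      rcases h4.2 with h5 | h5
      · exact h5 e1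
      · exact h5 e2
  · intro R u v huv hS
    have h3 : th I u v = G (vals F I u) (vals F I v) := by
      by_contra h
      exact hS ⟨huv, Or.inl h⟩
    have h4 := congrArg Prod.fst (congrFun h3 R)
    simp only [Equiv.symm_apply_apply]
    exact iff_of_eq h4

end Pool.Agent.H8C2
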