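import Pool.Agent.H8C2.StmB

/-!
# Piece FML of project H8C2: some formulas
-/

set_option autoImplicit false

namespace Pool.Agent.H8C2

open FirstOrder Set MeasureTheory
open Pool.Agent.H565R2.FO2 (pick Interp Code toI ofI toI_ofI Iso)

namespace FMLx

variable {L : FirstOrder.Language.{0, 0}}

theorem one_le_encard_iff {M : Type} (s : Set M) : ((1 : ℕ) : ℕ∞) ≤ s.encard ↔ s.Nonempty := by
  rw [Nat.cast_one, Set.one_le_encard_iff_nonempty]

/-- The formula `ψ(x, x)`. -/
def fst (ψ : C2F L) : C2F L := .ex true 1 (.and (.eq false true) ψ)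

/-- The formula `ψ(y, y)`. -/
def snd (ψ : C2F L) : C2F L := .ex false 1 (.and (.eq false true) ψ)

theorem sat_fst (ψ : C2F L) (M : Type) (I : Interp L M) (x y : M) :
    Sat I (fst ψ) x y ↔ Sat I ψ x x := by
  show ((1 : ℕ) : ℕ∞) ≤ Set.encard {z | x = z ∧ Sat I ψ x z} ↔ _
  rw [one_le_encard_iff]
  constructor
  · rintro ⟨z, hz, h⟩
    rw [← hz] at h
    exact h
  · intro h
    exact ⟨x, rfl, h⟩

theorem sat_snd (ψ : C2F L) (M : Type) (I : Interp L M) (x y : M) :
    Sat I (snd ψ) x y ↔ Sat I ψ y y := by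
  show ((1 : ℕ) : ℕ∞) ≤ Set.encard {z | z = y ∧ Sat I ψ z y} ↔ _
  rw [one_le_encard_iff]
  constructor
  · rintro ⟨z, hz, h⟩
    rw [hz] at h
    exact h
  · intro h
    exact ⟨y, rfl, h⟩

/-- Finite conjunctions. -/
theorem conj {α : Type} (f : α → C2F L) (s : Finset α) : ∃ χ : C2F L,
    ∀ (M : Type) (I : Interp L M) (x y : M), Sat I χ x y ↔ ∀ i ∈ s, Sat I (f i) x y := by
  classical
  induction s using Finset.induction_on with
  | empty => exact ⟨.eq false false, fun M I x y => ⟨fun _ i hi => absurd hi (Finset.notMem_empty i),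
      fun _ => rfl⟩⟩
  | insert a s ha ih =>
    obtain ⟨χ, hχ⟩ := ih
    refine ⟨.and (f a) χ, fun M I x y => ?_⟩
    constructor
    · rintro ⟨h1, h2⟩ i hi
      rcases Finset.mem_insert.1 hi with rfl | hi
      · exact h1
      · exact (hχ M I x y).1 h2 i hi
    · intro h
      exact ⟨h a (Finset.mem_insert_self a s), (hχ M I x y).2 fun i hi =>
        h i (Finset.mem_insert_of_mem hi)⟩

/-- A formula or its negation. -/
theorem lit (ψ : C2F L) (P : Prop) : ∃ χ : C2F L,
    ∀ (M : Type) (I : Interp L M) (x y : M), Sat I χ x y ↔ (Sat I ψ x y ↔ P) := by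
  by_cases h : P
  · exact ⟨ψ, fun M I x y => ⟨fun h1 => ⟨fun _ => h, fun _ => h1⟩, fun h1 => h1.2 h⟩⟩
  · exact ⟨.neg ψ, fun M I x y => ⟨fun h1 => ⟨fun h2 => absurd h2 h1, fun h2 => absurd h2 h⟩,
      fun h1 h2 => h (h1.1 h2)⟩⟩

theorem vec1 {M : Type} (x y : M) :
    (fun k => pick x y ((![false, true] : Fin 2 → Bool) k)) = ![x, y] := by
  funext k
  fin_cases k <;> rfl

theorem vec2 {M : Type} (x y : M) :
    (fun k => pick x y ((![true, false] : Fin 2 → Bool) k)) = ![y, x] := by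
  funext k
  fin_cases k <;> rfl

end FMLx

open FMLx

theorem t_FML1 : S_FML1 := fun _ ψ => ⟨⟨fst ψ, sat_fst ψ⟩, ⟨snd ψ, sat_snd ψ⟩⟩

theorem t_FML2 : S_FML2 := by
  intro L _ θ
  classical
  have hfin : Fintype (L.Relations 2) := Fintype.ofFinite _
  choose f hf using fun R : L.Relations 2 => lit (C2F.rel R ![false, true]) (θ R).1
  choose g hg using fun R : L.Relations 2 => lit (C2F.rel R ![true, false]) (θ R).2
  obtain ⟨χ, hχ⟩ := conj (fun R : L.Relations 2 => C2F.and (f R) (g R)) Finset.univ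
  refine ⟨χ, fun M I x y => ?_⟩
  rw [hχ]
  have key1 : ∀ R : L.Relations 2, Sat I (C2F.rel R ![false, true]) x y ↔ I 2 R ![x, y] := by
    intro R
    show I 2 R (fun k => pick x y ((![false, true] : Fin 2 → Bool) k)) ↔ _
    rw [vec1]
  have key2 : ∀ R : L.Relations 2, Sat I (C2F.rel R ![true, false]) x y ↔ I 2 R ![y, x] := by
    intro R
    show I 2 R (fun k => pick x y ((![true, false] : Fin 2 → Bool) k)) ↔ _
    rw [vec2]
  constructor
  · intro h
    funext R
    obtain ⟨h1, h2⟩ := h R (Finset.mem_univ R)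
    have h1' := (hf R M I x y).1 h1
    have h2' := (hg R M I x y).1 h2
    rw [key1] at h1'
    rw [key2] at h2'
    exact Prod.ext (propext h1') (propext h2')
  · intro h R _
    have h1 : th I x y R = θ R := congrFun h R
    refine ⟨(hf R M I x y).2 ?_, (hg R M I x y).2 ?_⟩
    · rw [key1]
      exact Iff.of_eq (congrArg Prod.fst h1)
    · rw [key2]
      exact Iff.of_eq (congrArg Prod.snd h1)

theorem t_FML3 : S_FML3 := by
  intro L _ k θ ψ
  obtain ⟨χ, hχ⟩ := t_FML2 L θ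
  refine ⟨.ex true k (.and (.neg (.eq false true)) (.and χ (snd ψ))), fun M I x y => ?_⟩
  have : {z | Sat I (.and (.neg (.eq false true)) (.and χ (snd ψ))) x z} =
      {z | z ≠ x ∧ th I x z = θ ∧ Sat I ψ z z} := by
    ext z
    constructor
    · rintro ⟨h1, h2, h3⟩
      exact ⟨fun h => h1 h.symm, (hχ M I x z).1 h2, (sat_snd ψ M I x z).1 h3⟩
    · rintro ⟨h1, h2, h3⟩
      exact ⟨fun h => h1 (Eq.symm h), (hχ M I x z).2 h2, (sat_snd ψ M I x z).2 h3⟩
  show (k : ℕ∞) ≤ Set.encard {z | Sat I (.and (.neg (.eq false true)) (.and χ (snd ψ))) x z} ↔ _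
  rw [this]

theorem t_FML4 : S_FML4 := by
  intro L k ψ
  refine ⟨.ex true k (snd ψ), fun M I x y => ?_⟩
  have : {z | Sat I (snd ψ) x z} = {z | Sat I ψ z z} := by
    ext z
    exact sat_snd ψ M I x z
  show (k : ℕ∞) ≤ Set.encard {z | Sat I (snd ψ) x z} ↔ _
  rw [this]

end Pool.Agent.H8C2
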