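import Pool.Agent.H8C2.StmA

/-!
# Piece FREE of project H8C2 (helper77): free completion of a typed graph by trees
-/

set_option autoImplicit false

namespace Pool.Agent.H8C2

open Set

namespace Free

variable {Q Θ B : Type} (D : Dat Q Θ) (τ₀ : B → Q) (s₀ : B → B → Option Θ)

/-- types with infinitely many points -/
abbrev QI : Type := {q : Q // D.c q = ⊤}

/-- a step: the binary type, the type, the number of the child -/
abbrev Stp : Type := Θ × QI D × ℕ

/-- label of the vertex `(b, l)` -/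
def lab (b : B) : List (Stp D) → Q
  | [] => τ₀ b
  | st :: _ => st.2.1.1

open Classical in
/-- number of children of kind `(θ, q)` of the vertex `(b, l)` -/
noncomputable def cap (b : B) (l : List (Stp D)) (θ : Θ) (q : Q) : ℕ∞ :=
  match l with
  | [] => D.d (τ₀ b) θ q - {w | τ₀ w = q ∧ s₀ b w = some θ}.encard
  | st :: l' => if θ = D.star st.1 ∧ q = lab D τ₀ b l' then D.d st.2.1.1 θ q - 1 else D.d st.2.1.1 θ q

/-- valid vertices -/
def Valid (b : B) : List (Stp D) → Prop
  | [] => True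
  | st :: l => Valid b l ∧ ¬ D.Bi (lab D τ₀ b l) st.1 st.2.1.1 ∧
      (st.2.2 : ℕ∞) < cap D τ₀ s₀ b l st.1 st.2.1.1

/-- the edges -/
inductive Edge : B × List (Stp D) → B × List (Stp D) → Θ → Prop
  | base (b b' : B) (θ : Θ) : s₀ b b' = some θ → Edge (b, []) (b', []) θ
  | down (b : B) (l : List (Stp D)) (st : Stp D) : Edge (b, l) (b, st :: l) st.1
  | up (b : B) (l : List (Stp D)) (st : Stp D) : Edge (b, st :: l) (b, l) (D.star st.1)

variable {D τ₀ s₀}

lemma edge_uniq {x y : B × List (Stp D)} {θ θ' : Θ} (h : Edge D s₀ x y θ) (h' : Edge D s₀ x y θ') :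
    θ = θ' := by
  cases h with
  | base b b' θ h =>
    cases h' with
    | base _ _ _ h2 => exact Option.some.inj (h.symm.trans h2)
  | down b l st =>
    generalize hy : (b, st :: l) = y at h'
    cases h' with
    | base _ _ _ h2 => simp at hy
    | down _ _ st' =>
      simp only [Prod.mk.injEq, List.cons.injEq] at hy
      rw [hy.2.1]
    | up _ l' st' =>
      simp only [Prod.mk.injEq] at hy
      have := congrArg List.length hy.2
      simp at this
      omega
  | up b l st =>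
    generalize hy : (b, st :: l) = y at h'
    cases h' with
    | base _ _ _ h2 => simp at hy
    | down _ _ st' =>
      simp only [Prod.mk.injEq] at hy
      have := congrArg List.length hy.2
      simp at this
      omega
    | up _ l' st' =>
      simp only [Prod.mk.injEq, List.cons.injEq] at hy
      rw [hy.2.1]

variable (D τ₀ s₀)

open Classical in
/-- the graph on pairs -/
noncomputable def sE (x y : B × List (Stp D)) : Option Θ :=
  if h : ∃ θ, Edge D s₀ x y θ then some h.choose else none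

variable {D τ₀ s₀}

lemma sE_iff {x y : B × List (Stp D)} {θ : Θ} : sE D s₀ x y = some θ ↔ Edge D s₀ x y θ := by
  unfold sE
  constructor
  · intro h
    split_ifs at h with h1
    rw [← Option.some.inj h]
    exact h1.choose_spec
  · intro h
    have h1 : ∃ θ, Edge D s₀ x y θ := ⟨θ, h⟩
    rw [dif_pos h1]
    exact congrArg some (edge_uniq h1.choose_spec h)

lemma sE_ne {x y : B × List (Stp D)} : sE D s₀ x y ≠ none ↔ ∃ θ, Edge D s₀ x y θ := by
  rw [Option.ne_none_iff_exists']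
  exact exists_congr fun θ => sE_iff

lemma lab_inf (hp : Part D τ₀ s₀) (b : B) (l : List (Stp D)) : D.c (lab D τ₀ b l) = ⊤ := by
  cases l with
  | nil => exact hp.inf b
  | cons st l => exact st.2.1.2

lemma lab_cons (b : B) (st : Stp D) (l : List (Stp D)) : lab D τ₀ b (st :: l) = st.2.1.1 := rfl

lemma cap_nil (b : B) (θ : Θ) (q : Q) : cap D τ₀ s₀ b [] θ q =
    D.d (τ₀ b) θ q - {w | τ₀ w = q ∧ s₀ b w = some θ}.encard := rfl

lemma cap_pos (b : B) (st : Stp D) (l : List (Stp D)) (θ : Θ) (q : Q)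
    (h : θ = D.star st.1 ∧ q = lab D τ₀ b l) :
    cap D τ₀ s₀ b (st :: l) θ q = D.d st.2.1.1 θ q - 1 := by
  unfold cap
  exact if_pos h

lemma cap_neg (b : B) (st : Stp D) (l : List (Stp D)) (θ : Θ) (q : Q)
    (h : ¬ (θ = D.star st.1 ∧ q = lab D τ₀ b l)) :
    cap D τ₀ s₀ b (st :: l) θ q = D.d st.2.1.1 θ q := by
  unfold cap
  exact if_neg h

lemma cap_le (b : B) (l : List (Stp D)) (θ : Θ) (q : Q) :
    cap D τ₀ s₀ b l θ q ≤ D.d (lab D τ₀ b l) θ q := by
  cases l with
  | nil => rw [cap_nil]; exact tsub_le_self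
  | cons st l =>
    rw [lab_cons]
    by_cases h : θ = D.star st.1 ∧ q = lab D τ₀ b l
    · rw [cap_pos b st l θ q h]; exact tsub_le_self
    · rw [cap_neg b st l θ q h]

lemma encard_lt (m : ℕ∞) : {i : ℕ | (i : ℕ∞) < m}.encard = m := by
  induction m using ENat.recTopCoe with
  | top =>
    have h : {i : ℕ | (i : ℕ∞) < ⊤} = univ := by
      ext i
      simp
    rw [h]
    simp
  | coe n =>
    have h : {i : ℕ | (i : ℕ∞) < (n : ℕ∞)} = ((Finset.range n : Finset ℕ) : Set ℕ) := by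
      ext i
      simp
    rw [h, Set.encard_coe_eq_coe_finsetCard, Finset.card_range]

variable (D τ₀ s₀)

/-- the vertices -/
def Ver : Type := {x : B × List (Stp D) // Valid D τ₀ s₀ x.1 x.2}

variable {D τ₀ s₀}

lemma edge_irr (hp : Part D τ₀ s₀) {x y : B × List (Stp D)} {θ : Θ} (h : Edge D s₀ x y θ) :
    x ≠ y := by
  cases h with
  | base b b' θ h =>
    intro he
    simp only [Prod.mk.injEq, and_true] at he
    subst he
    rw [hp.irr] at h
    exact absurd h (by simp)
  | down b l st =>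
    intro he
    have := congrArg (fun z => z.2.length) he
    simp at this
  | up b l st =>
    intro he
    have := congrArg (fun z => z.2.length) he
    simp at this

lemma edge_up {x y : B × List (Stp D)} {θ : Θ} (h : Edge D s₀ x y θ) (h0 : x.2.length ≠ 0)
    (h1 : y.2.length ≤ x.2.length) : y = (x.1, x.2.tail) := by
  cases h with
  | base b b' θ h => simp at h0
  | down b l st => simp at h1
  | up b l st => rfl

lemma edge_cases {b : B} {l : List (Stp D)} {y : B × List (Stp D)} {θ : Θ}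
    (h : Edge D s₀ (b, l) y θ) :
    (l = [] ∧ ∃ b', y = (b', []) ∧ s₀ b b' = some θ) ∨
    (∃ st : Stp D, y = (b, st :: l) ∧ st.1 = θ) ∨
    (∃ (st : Stp D) (l' : List (Stp D)), l = st :: l' ∧ y = (b, l') ∧ θ = D.star st.1) := by
  cases h with
  | base _ b' _ h => exact Or.inl ⟨rfl, b', rfl, h⟩
  | down _ _ st => exact Or.inr (Or.inl ⟨st, rfl, rfl⟩)
  | up _ l' st => exact Or.inr (Or.inr ⟨st, l', rfl, rfl, rfl⟩)

/-- the children of kind `(θ, q)` -/
lemma encard_children (x : Ver D τ₀ s₀) (θ : Θ) (q : Q) (hq : D.c q = ⊤)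
    (hb : ¬ D.Bi (lab D τ₀ x.1.1 x.1.2) θ q) :
    {w : Ver D τ₀ s₀ | ∃ i : ℕ, w.1 = (x.1.1, ((θ, (⟨q, hq⟩, i)) : Stp D) :: x.1.2)}.encard =
      cap D τ₀ s₀ x.1.1 x.1.2 θ q := by
  rw [← encard_lt (cap D τ₀ s₀ x.1.1 x.1.2 θ q)]
  let f : {i : ℕ | (i : ℕ∞) < cap D τ₀ s₀ x.1.1 x.1.2 θ q} → Ver D τ₀ s₀ := fun i =>
    ⟨(x.1.1, ((θ, (⟨q, hq⟩, i.1)) : Stp D) :: x.1.2), x.2, hb, i.2⟩
  have hf : Function.Injective f := by
    intro i j h
    have h1 := congrArg Subtype.val h
    simp only [f, Prod.mk.injEq, List.cons.injEq, true_and, and_true] at h1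
    exact Subtype.ext h1
  have hr : {w : Ver D τ₀ s₀ | ∃ i : ℕ, w.1 = (x.1.1, ((θ, (⟨q, hq⟩, i)) : Stp D) :: x.1.2)} =
      f '' univ := by
    ext w
    constructor
    · rintro ⟨i, hi⟩
      have h2 := w.2
      rw [hi] at h2
      exact ⟨⟨i, h2.2.2⟩, trivial, Subtype.ext hi.symm⟩
    · rintro ⟨i, -, rfl⟩
      exact ⟨i.1, rfl⟩
  rw [hr, hf.encard_image, Set.encard_univ]
  rfl

/-- the degrees -/
lemma deg (hz : ∀ p θ q, D.c p = ⊤ → D.c q = ⊤ → D.d p θ q ≠ 0 → D.d q (D.star θ) p ≠ 0)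
    (hp : Part D τ₀ s₀) (v : Ver D τ₀ s₀) (θ : Θ) (q : Q) (hq : D.c q = ⊤)
    (hb : ¬ D.Bi (lab D τ₀ v.1.1 v.1.2) θ q) :
    {w : Ver D τ₀ s₀ | lab D τ₀ w.1.1 w.1.2 = q ∧ sE D s₀ v.1 w.1 = some θ}.encard =
      D.d (lab D τ₀ v.1.1 v.1.2) θ q := by
  have hch := encard_children v θ q hq hb
  obtain ⟨⟨b, l⟩, hv⟩ := v
  simp only at hch hb ⊢
  cases l with
  | nil =>
    let e : B → Ver D τ₀ s₀ := fun b => ⟨(b, []), trivial⟩
    have he : Function.Injective e := by
      intro b b' h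
      have := congrArg Subtype.val h
      simpa [e] using this
    have hset : {w : Ver D τ₀ s₀ | lab D τ₀ w.1.1 w.1.2 = q ∧ sE D s₀ (b, []) w.1 = some θ} =
        {w : Ver D τ₀ s₀ | ∃ i : ℕ, w.1 = (b, ((θ, (⟨q, hq⟩, i)) : Stp D) :: [])} ∪
          e '' {w | τ₀ w = q ∧ s₀ b w = some θ} := by
      ext w
      rw [mem_union, mem_ofPred_eq, mem_ofPred_eq, sE_iff]
      constructor
      · rintro ⟨h1, h2⟩
        rcases edge_cases h2 with ⟨-, b', h3, h4⟩ | ⟨st, h3, h4⟩ | ⟨st, l', h3, -⟩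
        · refine Or.inr ⟨b', ⟨?_, h4⟩, Subtype.ext h3.symm⟩
          rw [h3] at h1
          exact h1
        · left
          rw [h3] at h1
          refine ⟨st.2.2, ?_⟩
          rw [h3]
          obtain ⟨θ', ⟨q', hq'⟩, i⟩ := st
          simp only [lab] at h1 h4
          subst h1 h4
          rfl
        · exact absurd h3 (by simp)
      · rintro (⟨i, hi⟩ | ⟨b', ⟨h1, h2⟩, rfl⟩)
        · rw [hi]
          exact ⟨rfl, Edge.down _ _ _⟩
        · exact ⟨h1, Edge.base _ _ _ h2⟩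
    have hdis : Disjoint {w : Ver D τ₀ s₀ | ∃ i : ℕ, w.1 = (b, ((θ, (⟨q, hq⟩, i)) : Stp D) :: [])}
        (e '' {w | τ₀ w = q ∧ s₀ b w = some θ}) := by
      rw [Set.disjoint_left]
      rintro w ⟨i, hi⟩ ⟨b', -, rfl⟩
      simp [e] at hi
    rw [hset, encard_union_eq hdis, hch, he.encard_image, cap_nil]
    exact tsub_add_cancel_of_le (hp.deg b θ q hq hb)
  | cons st l =>
    have hset : {w : Ver D τ₀ s₀ | lab D τ₀ w.1.1 w.1.2 = q ∧ sE D s₀ (b, st :: l) w.1 = some θ} =
        {w : Ver D τ₀ s₀ | ∃ i : ℕ, w.1 = (b, ((θ, (⟨q, hq⟩, i)) : Stp D) :: (st :: l))} ∪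
          {w : Ver D τ₀ s₀ | w.1 = (b, l) ∧ θ = D.star st.1 ∧ q = lab D τ₀ b l} := by
      ext w
      rw [mem_union, mem_ofPred_eq, mem_ofPred_eq, mem_ofPred_eq, sE_iff]
      constructor
      · rintro ⟨h1, h2⟩
        rcases edge_cases h2 with ⟨h3, -⟩ | ⟨st', h3, h4⟩ | ⟨st', l', h3, h4, h5⟩
        · exact absurd h3 (by simp)
        · left
          rw [h3] at h1
          refine ⟨st'.2.2, ?_⟩
          rw [h3]
          obtain ⟨θ', ⟨q', hq'⟩, i⟩ := st'
          simp only [lab] at h1 h4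
          subst h1 h4
          rfl
        · right
          rw [List.cons.injEq] at h3
          obtain ⟨rfl, rfl⟩ := h3
          refine ⟨h4, h5, ?_⟩
          rw [h4] at h1
          exact h1.symm
      · rintro (⟨i, hi⟩ | ⟨h1, h2, h3⟩)
        · rw [hi]
          exact ⟨rfl, Edge.down _ _ _⟩
        · rw [h1, h2]
          exact ⟨h3.symm, Edge.up _ _ _⟩
    have hdis : Disjoint
        {w : Ver D τ₀ s₀ | ∃ i : ℕ, w.1 = (b, ((θ, (⟨q, hq⟩, i)) : Stp D) :: (st :: l))}
        {w : Ver D τ₀ s₀ | w.1 = (b, l) ∧ θ = D.star st.1 ∧ q = lab D τ₀ b l} := by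
      rw [Set.disjoint_left]
      rintro w ⟨i, hi⟩ ⟨h1, -⟩
      rw [h1] at hi
      have := congrArg (fun z => z.2.length) hi
      simp at this
      omega
    rw [hset, encard_union_eq hdis, hch]
    by_cases hc : θ = D.star st.1 ∧ q = lab D τ₀ b l
    · obtain ⟨v1, hv1⟩ : ∃ v1 : Ver D τ₀ s₀, v1.1 = (b, l) := ⟨⟨(b, l), hv.1⟩, rfl⟩
      have h1 : {w : Ver D τ₀ s₀ | w.1 = (b, l) ∧ θ = D.star st.1 ∧ q = lab D τ₀ b l} = {v1} := by
        ext w
        constructor
        · rintro ⟨h, -⟩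
          exact Subtype.ext (h.trans hv1.symm)
        · rintro rfl
          exact ⟨hv1, hc⟩
      rw [h1, encard_singleton, cap_pos _ _ _ _ _ hc, lab_cons]
      apply tsub_add_cancel_of_le
      rw [Order.one_le_iff_ne_zero]
      obtain ⟨h2, h3⟩ := hc
      rw [h2, h3]
      refine hz _ _ _ (lab_inf hp _ _) st.2.1.2 ?_
      intro h4
      have h5 := hv.2.2.trans_le (cap_le b l st.1 st.2.1.1)
      rw [h4] at h5
      simp at h5
    · have h1 : {w : Ver D τ₀ s₀ | w.1 = (b, l) ∧ θ = D.star st.1 ∧ q = lab D τ₀ b l} = ∅ := by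
        ext w
        simp only [mem_ofPred_eq, mem_empty_iff_false, iff_false, not_and]
        intro _ h2 h3
        exact hc ⟨h2, h3⟩
      rw [h1, encard_empty, add_zero, cap_neg _ _ _ _ _ hc, lab_cons]

end Free

open Free in
theorem t_FREE : S_FREE := by
  intro Q Θ B _ _ D τ₀ s₀ hQ hz hp honto
  have hQc : Countable (QI D) := hQ.to_subtype
  have hcs : Countable (Stp D) := inferInstance
  have hV : Countable (Ver D τ₀ s₀) := by
    unfold Ver
    infer_instance
  refine ⟨Ver D τ₀ s₀, hV, fun v => lab D τ₀ v.1.1 v.1.2, fun v w => sE D s₀ v.1 w.1,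
    fun b => ⟨(b, []), trivial⟩, fun v => v.1.2.length, ?_, ?_, ?_, ?_, ?_, ?_⟩
  · refine ⟨fun v => lab_inf hp _ _, ?_, ?_, ?_, ?_, ?_⟩
    · intro q hq
      obtain ⟨b, hb⟩ := honto q hq
      exact ⟨⟨(b, []), trivial⟩, hb⟩
    · intro v
      by_contra h
      obtain ⟨θ, hθ⟩ := sE_ne.1 h
      exact edge_irr hp hθ rfl
    · rintro ⟨⟨b, l⟩, hv⟩ ⟨⟨b', l'⟩, hw⟩ θ h
      rw [sE_iff] at h ⊢
      simp only at h ⊢
      cases h with
      | base _ _ _ h => exact Edge.base _ _ _ (hp.symm _ _ _ h)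
      | down _ _ st => exact Edge.up _ _ st
      | up _ _ st =>
        rw [D.star_star]
        exact Edge.down _ _ st
    · rintro ⟨⟨b, l⟩, hv⟩ ⟨⟨b', l'⟩, hw⟩ θ h
      rw [sE_iff] at h
      simp only at h ⊢
      cases h with
      | base _ _ _ h => exact hp.spar _ _ _ h
      | down _ _ st => exact hw.2.1
      | up _ _ st =>
        intro hb
        have := hb.symm
        rw [D.star_star] at this
        exact hv.2.1 this
    · exact fun v θ q hq hb => deg hz hp v θ q hq hb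
  · intro b b' h
    have := congrArg Subtype.val h
    simpa using this
  · intro b
    rfl
  · intro b b'
    apply Option.ext
    intro θ
    show sE D s₀ (b, []) (b', []) = some θ ↔ _
    rw [sE_iff]
    constructor
    · intro h
      cases h with
      | base _ _ _ h => exact h
    · exact fun h => Edge.base _ _ _ h
  · rintro ⟨⟨b, l⟩, hv⟩
    constructor
    · intro h
      have hl : l = [] := List.length_eq_zero_iff.1 h
      subst hl
      exact ⟨b, rfl⟩
    · rintro ⟨b', h⟩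
      have := congrArg (fun v => v.1.2.length) h
      simpa using this.symm
  · intro v w w' h0 h1 h2 h3 h4
    obtain ⟨θ1, e1⟩ := sE_ne.1 h1
    obtain ⟨θ2, e2⟩ := sE_ne.1 h2
    exact Subtype.ext ((edge_up e1 h0 h3).trans (edge_up e2 h0 h4).symm)

end Pool.Agent.H8C2
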