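import Pool.Agent.H8C2.Asm3

/-!
Project H8C2: from codes to first-order theories.
-/

set_option autoImplicit false

namespace Pool.Agent.H8C2

open FirstOrder Set Pool.Agent.H834V
open Pool.Agent.H565R2.FO2 (pick Interp Code toI ofI toI_ofI Iso)
open Pool.Agent.H565R2.LO2 (PerfK)

/-- The structure satisfies the universal closure of the two-variable formula `φ`. -/
def Holds {L : FirstOrder.Language.{0, 0}} (S : L.Structure ℕ) (φ : C2F L) : Prop :=
  ∀ x y : ℕ, Sat (rel S) φ x y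

/-- The structure of a code. -/
def strc {L : FirstOrder.Language.{0, 0}} (hR : L.IsRelational) (c : Code L) : L.Structure ℕ :=
  { funMap := fun {n} f => (hR n).elim f
    RelMap := fun {n} R t => c ⟨n, R, t⟩ = true }

theorem code_strc {L : FirstOrder.Language.{0, 0}} (hR : L.IsRelational) (c : Code L) :
    code (strc hR c) = c := by
  funext p
  rw [Bool.eq_iff_iff]
  simp only [code, ofI, decide_eq_true_eq]
  exact Iff.rfl

theorem strc_equiv {L : FirstOrder.Language.{0, 0}} (hR : L.IsRelational) (S : L.Structure ℕ)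
    (c : Code L) (h : Iso (code S) c) :
    Nonempty (@FirstOrder.Language.Equiv L ℕ ℕ S (strc hR c)) := by
  obtain ⟨g, hg⟩ := h
  refine ⟨@FirstOrder.Language.Equiv.mk L ℕ ℕ S (strc hR c) g ?_ ?_⟩
  · intro n f
    exact (hR n).elim f
  · intro n R t
    have h1 := hg n R t
    rw [Bool.eq_iff_iff] at h1
    simp only [code, ofI, decide_eq_true_eq] at h1
    exact h1.symm

theorem strc_iso {L : FirstOrder.Language.{0, 0}} (hR : L.IsRelational) (c c' : Code L)
    (h : Nonempty (@FirstOrder.Language.Equiv L ℕ ℕ (strc hR c) (strc hR c'))) : Iso c c' := by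
  obtain ⟨g⟩ := h
  refine ⟨@FirstOrder.Language.Equiv.toEquiv L ℕ ℕ (strc hR c) (strc hR c') g, fun n R t => ?_⟩
  rw [Bool.eq_iff_iff]
  exact (@FirstOrder.Language.Equiv.map_rel' L ℕ ℕ (strc hR c) (strc hR c') g n R t).symm

/-- The theorem for theories, from the dichotomy for the sets of two-variable formulas. -/
theorem final
    (hD : ∀ (L : FirstOrder.Language.{0, 0}) [Countable L.Symbols] [L.IsRelational]
      [∀ n, Countable (L.Relations n)] [Finite (L.Relations 2)] (Φ : Set (C2F L)),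
      ((∃ g : ℕ → Code L, ∀ c ∈ Mod Φ, ∃ n, Iso c (g n)) ∧ ∀ c ∈ Mod Φ,
        (∀ n, 2 < n → IsEmpty (L.Relations n)) ∧ Flip (toI c)) ∨ PerfK (Mod Φ))
    (L : FirstOrder.Language.{0, 0}) (hL : Countable L.Symbols) (hR : L.IsRelational)
    (hfin : Finite (L.Relations 2)) (T : L.Theory)
    (hT : ∀ σ ∈ T, ∃ φ : C2F L, ∀ S : L.Structure ℕ,
      @FirstOrder.Language.Sentence.Realize L ℕ S σ ↔ Holds S φ) :
    ((∃ g : ℕ → L.Structure ℕ, ∀ S : L.Structure ℕ, @FirstOrder.Language.Theory.Model L ℕ S T →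
        ∃ n : ℕ, Nonempty (@FirstOrder.Language.Equiv L ℕ ℕ S (g n))) ∧
      ∀ S : L.Structure ℕ, @FirstOrder.Language.Theory.Model L ℕ S T →
        (∀ n, 2 < n → IsEmpty (L.Relations n)) ∧ Flip (rel S)) ∨
    (∃ f : (ℕ → Bool) → L.Structure ℕ,
      (∀ x : ℕ → Bool, @FirstOrder.Language.Theory.Model L ℕ (f x) T) ∧
      (∀ x y : ℕ → Bool, Nonempty (@FirstOrder.Language.Equiv L ℕ ℕ (f x) (f y)) → x = y) ∧
      (∀ (n : ℕ) (Q : L.Relations n) (a : Fin n → ℕ),
        IsClopen {x : ℕ → Bool | @FirstOrder.Language.Structure.RelMap L ℕ (f x) n Q a})) := by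
  classical
  have hRc : ∀ n, Countable (L.Relations n) := countable_relations hL
  choose F hF using hT
  let Φ : Set (C2F L) := {φ | ∃ σ, ∃ hσ : σ ∈ T, F σ hσ = φ}
  have hmod : ∀ S : L.Structure ℕ, code S ∈ Mod Φ ↔ @FirstOrder.Language.Theory.Model L ℕ S T := by
    intro S
    have e : toI (code S) = rel S := toI_ofI _
    constructor
    · intro h
      refine ⟨fun σ hσ => (hF σ hσ S).2 fun x y => ?_⟩
      have h1 := h (F σ hσ) ⟨σ, hσ, rfl⟩ x y
      rwa [e] at h1
    · rintro h _ ⟨σ, hσ, rfl⟩ x y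
      rw [e]
      exact (hF σ hσ S).1 (h.realize_of_mem σ hσ) x y
  rcases hD L Φ with ⟨⟨g, hg⟩, h2⟩ | ⟨f, hf1, hf2, hf3⟩
  · left
    refine ⟨⟨fun n => strc hR (g n), fun S hS => ?_⟩, fun S hS => ?_⟩
    · obtain ⟨n, hn⟩ := hg (code S) ((hmod S).2 hS)
      exact ⟨n, strc_equiv hR S _ hn⟩
    · obtain ⟨h3, h4⟩ := h2 (code S) ((hmod S).2 hS)
      rw [show toI (code S) = rel S from toI_ofI _] at h4
      exact ⟨h3, h4⟩
  · right
    refine ⟨fun x => strc hR (f x), fun x => (hmod _).1 (by rw [code_strc]; exact hf2 x),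
      fun x y h => hf3 x y (strc_iso hR _ _ h), fun n R a => ?_⟩
    have h1 : Continuous (fun x => f x ⟨n, R, a⟩) := (continuous_apply _).comp hf1
    exact (isClopen_discrete {true}).preimage h1

end Pool.Agent.H8C2
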