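import Pool.Agent.H8C2.StmB

/-!
# Project H8C2, piece LS (helper55): downward Löwenheim-Skolem for two-variable formulas
-/

set_option autoImplicit false

namespace Pool.Agent.H8C2

open FirstOrder Set MeasureTheory
open Pool.Agent.H565R2.FO2 (pick Interp Code toI ofI toI_ofI Iso)
open Pool.Agent.H565R2.LO2 (PerfK)

namespace LSP

variable {U : Type}

theorem wit_ex (A : Set U) : ∃ T : Set U, T ⊆ A ∧ T.Countable ∧
    ∀ n : ℕ, (n : ℕ∞) ≤ A.encard → (n : ℕ∞) ≤ T.encard := by
  by_cases hA : A.Finite
  · exact ⟨A, Subset.rfl, hA.countable, fun n h => h⟩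
  · obtain ⟨T, hT1, hT2, hT3⟩ :=
      (show A.Infinite from hA).exists_subset_countable_infinite
    refine ⟨T, hT1, hT2, fun n _ => ?_⟩
    rw [hT3.encard_eq]
    exact le_top

/-- countably many witnesses -/
noncomputable def wit (A : Set U) : Set U := (wit_ex A).choose

theorem wit_sub (A : Set U) : wit A ⊆ A := (wit_ex A).choose_spec.1

theorem wit_cnt (A : Set U) : (wit A).Countable := (wit_ex A).choose_spec.2.1

theorem wit_le {A N : Set U} (h : wit A ⊆ N) (n : ℕ) :
    (n : ℕ∞) ≤ (A ∩ N).encard ↔ (n : ℕ∞) ≤ A.encard := by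
  constructor
  · intro h1
    exact h1.trans (encard_le_encard inter_subset_left)
  · intro h1
    exact ((wit_ex A).choose_spec.2.2 n h1).trans
      (encard_le_encard (subset_inter (wit_sub A) h))

/-- closure under countably many countable-valued functions -/
theorem closure_ex {ι : Type} [Countable ι] (W : ι → U → Set U) (hW : ∀ i x, (W i x).Countable)
    (S : Set U) (hS : S.Countable) : ∃ N : Set U, S ⊆ N ∧ N.Countable ∧
      ∀ i, ∀ x ∈ N, W i x ⊆ N := by
  let step : Set U → Set U := fun A => A ∪ ⋃ x ∈ A, ⋃ i, W i x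
  have hstep : ∀ A : Set U, A.Countable → (step A).Countable := by
    intro A hA
    refine hA.union (hA.biUnion fun x _ => countable_iUnion fun i => hW i x)
  let T : ℕ → Set U := fun k => step^[k] S
  have hT : ∀ k, (T k).Countable := by
    intro k
    induction k with
    | zero => exact hS
    | succ k ih =>
      change (step^[k + 1] S).Countable
      rw [Function.iterate_succ_apply']
      exact hstep _ ih
  refine ⟨⋃ k, T k, subset_iUnion T 0, countable_iUnion hT, ?_⟩
  intro i x hx y hy
  obtain ⟨k, hk⟩ := mem_iUnion.1 hx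
  refine mem_iUnion.2 ⟨k + 1, ?_⟩
  change y ∈ step^[k + 1] S
  rw [Function.iterate_succ_apply']
  exact Or.inr (mem_iUnion₂.2 ⟨x, hk, mem_iUnion.2 ⟨i, hy⟩⟩)

theorem pick_coe {N : Set U} (x y : N) (i : Bool) :
    ((pick x y i : N) : U) = pick (x : U) (y : U) i := by
  cases i <;> rfl

theorem encard_sub {N : Set U} (p : U → Prop) :
    ({z : N | p z} : Set N).encard = ({z | p z} ∩ N).encard := by
  rw [← Subtype.val_injective.encard_image]
  congr 1
  ext z
  simp only [mem_image, mem_ofPred_eq, Subtype.exists, exists_and_left, mem_inter_iff]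
  constructor
  · rintro ⟨a, ha, hN, rfl⟩
    exact ⟨ha, hN⟩
  · rintro ⟨h1, h2⟩
    exact ⟨z, h1, h2, rfl⟩

end LSP

open LSP in
theorem t_LS (hs : S_SYN1) : S_LS := by
  intro L hL U _ J S hS
  have : Countable (C2F L) := hs L hL
  let W : C2F L × Bool → U → Set U := fun i x =>
    bif i.2 then wit {z | Sat J i.1 z x} else wit {z | Sat J i.1 x z}
  have hW : ∀ i x, (W i x).Countable := by
    rintro ⟨φ, b⟩ x
    cases b <;> exact wit_cnt _
  obtain ⟨S', hS', hS'c, hS'i⟩ : ∃ S' : Set U, S ⊆ S' ∧ S'.Countable ∧ S'.Infinite := by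
    have f := Infinite.natEmbedding U
    refine ⟨S ∪ range f, subset_union_left, hS.union (countable_range f), ?_⟩
    exact (infinite_range_of_injective f.injective).mono subset_union_right
  obtain ⟨N, hSN, hN, hcl⟩ := closure_ex W hW S' hS'c
  refine ⟨N, hS'.trans hSN, hN, hS'i.mono hSN, ?_⟩
  intro φ
  induction φ with
  | eq i j =>
    intro x y
    change pick x y i = pick x y j ↔ pick (x : U) (y : U) i = pick (x : U) (y : U) j
    rw [← pick_coe, ← pick_coe, Subtype.ext_iff]
  | @rel n R v =>
    intro x y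
    change J n R (fun k => ((pick x y (v k) : N) : U)) ↔ J n R (fun k => pick (x : U) (y : U) (v k))
    simp only [pick_coe]
  | neg φ ih =>
    intro x y
    exact not_congr (ih x y)
  | and φ ψ ih1 ih2 =>
    intro x y
    exact and_congr (ih1 x y) (ih2 x y)
  | ex b n φ ih =>
    intro x y
    cases b with
    | false =>
      change (n : ℕ∞) ≤ Set.encard {z : N | Sat _ φ z y} ↔
        (n : ℕ∞) ≤ Set.encard {z : U | Sat J φ z y}
      have e1 : {z : N | Sat (fun n R (v : Fin n → N) => J n R fun k => (v k : U)) φ z y} =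
          {z : N | Sat J φ z y} := by
        ext z
        exact ih z y
      rw [e1, encard_sub (fun z => Sat J φ z y)]
      exact wit_le (hcl (φ, true) y y.2) n
    | true =>
      change (n : ℕ∞) ≤ Set.encard {z : N | Sat _ φ x z} ↔
        (n : ℕ∞) ≤ Set.encard {z : U | Sat J φ x z}
      have e1 : {z : N | Sat (fun n R (v : Fin n → N) => J n R fun k => (v k : U)) φ x z} =
          {z : N | Sat J φ x z} := by
        ext z
        exact ih x z
      rw [e1, encard_sub (fun z => Sat J φ x z)]
      exact wit_le (hcl (φ, false) x x.2) n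

end Pool.Agent.H8C2
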