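import Pool.Agent.H8C2.StmB

/-!
# Project H8C2 (helper8): piece MEA (helper24)
-/

set_option autoImplicit false

namespace Pool.Agent.H8C2

open FirstOrder Set MeasureTheory
open Pool.Agent.H565R2.FO2 (pick Interp Code toI ofI toI_ofI Iso meas_toI)
open Pool.Agent.H565R2.LO2 (PerfK perfK_of_inv iso_symm)

variable {L : FirstOrder.Language.{0, 0}}

private theorem mea_mod (h1 : S_SYN1) (h3 : S_SYN3) [∀ n, Countable (L.Relations n)]
    (Φ : Set (C2F L)) : MeasurableSet (Mod Φ) := by
  have := h1 L inferInstance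
  apply measurableSet_setOfPred.2
  exact Measurable.forall fun φ => measurable_const.imp
    (Measurable.forall fun x => Measurable.forall fun y => h3 L φ x y)

/-- An invariant in the set of the sets of naturals which takes all values gives perfectly many
models. -/
private theorem mea_perf (h1 : S_SYN1) (h3 : S_SYN3) [∀ n, Countable (L.Relations n)]
    (Φ : Set (C2F L)) (P : Code L → ℕ → Prop) (hP : ∀ n, Measurable fun c => P c n)
    (hiso : ∀ c c', Iso c c' → ∀ n, P c n → P c' n) (t : ℕ → ℕ)
    (hex : ∀ g : ℕ → Bool, ∃ c ∈ Mod Φ, ∀ k, P c (t k) ↔ g k = true) : PerfK (Mod Φ) := by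
  classical
  have := (mea_mod h1 h3 Φ).standardBorel
  refine perfK_of_inv (K := Mod Φ) (Y := ↥(Mod Φ)) (Z := ℕ → Bool) (ι := Unit)
    (fun y => y.1) measurable_subtype_coe (fun y => y.2)
    (fun _ y => fun k => decide (P y.1 (t k))) ?_ ?_ ?_
  · intro i
    rw [measurable_pi_iff]
    intro k
    apply measurable_to_bool
    have h4 : (fun y : ↥(Mod Φ) => decide (P y.1 (t k))) ⁻¹' {true} =
        {y : ↥(Mod Φ) | P y.1 (t k)} := by
      ext y; simp
    rw [h4]
    exact measurableSet_setOfPred.2 ((hP (t k)).comp measurable_subtype_coe)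
  · intro y y' hyy i
    refine ⟨(), ?_⟩
    funext k
    rw [decide_eq_decide]
    exact ⟨hiso _ _ hyy _, hiso _ _ (iso_symm hyy) _⟩
  · intro hc
    have h5 : (Set.univ : Set (ℕ → Bool)).Countable := by
      refine hc.mono ?_
      intro g _
      obtain ⟨c, hc1, hc2⟩ := hex g
      refine mem_iUnion.2 ⟨(), ⟨c, hc1⟩, ?_⟩
      funext k
      show decide (P c (t k)) = g k
      rw [Bool.eq_iff_iff, decide_eq_true_iff]
      exact hc2 k
    exact Pool.Agent.H565R2.FO2.Cfg.cantor_unc h5

private theorem mea_tp (h1 : S_SYN1) (h3 : S_SYN3) [∀ n, Countable (L.Relations n)] (p : Ty L)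
    (x : ℕ) : Measurable fun c : Code L => tp (toI c) x = p := by
  have := h1 L inferInstance
  have h : (fun c : Code L => tp (toI c) x = p) =
      fun c : Code L => ∀ φ, (Sat (toI c) φ x x ↔ p φ) := by
    funext c
    apply propext
    constructor
    · intro h φ
      rw [← h]
      exact Iff.rfl
    · intro h
      funext φ
      exact propext (h φ)
  rw [h]
  exact Measurable.forall fun φ => (h3 L φ x x).iff measurable_const

private theorem mea_th [∀ n, Countable (L.Relations n)] (θ : T2 L)
    (x y : ℕ) : Measurable fun c : Code L => th (toI c) x y = θ := by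
  have h : (fun c : Code L => th (toI c) x y = θ) =
      fun c : Code L => ∀ R, (toI c 2 R ![x, y] ↔ (θ R).1) ∧ (toI c 2 R ![y, x] ↔ (θ R).2) := by
    funext c
    apply propext
    constructor
    · intro h R
      rw [← h]
      exact ⟨Iff.rfl, Iff.rfl⟩
    · intro h
      funext R
      exact Prod.ext (propext (h R).1) (propext (h R).2)
  rw [h]
  exact Measurable.forall fun R => ((meas_toI R _).iff measurable_const).and
    ((meas_toI R _).iff measurable_const)

private theorem mea_card {A : Set ℕ} (n : ℕ) :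
    A.encard = n ↔ ∃ s : Finset ℕ, s.card = n ∧ ∀ z, z ∈ s ↔ z ∈ A := by
  constructor
  · intro h
    have hf : A.Finite := Set.finite_of_encard_eq_coe h
    refine ⟨hf.toFinset, ?_, fun z => hf.mem_toFinset⟩
    rw [hf.encard_eq_coe_toFinset_card] at h
    exact_mod_cast h
  · rintro ⟨s, hs, h⟩
    have h2 : A = (s : Set ℕ) := by
      ext z
      exact (h z).symm
    rw [h2, Set.encard_coe_eq_coe_finsetCard, hs]

private theorem mea_fin {A : Set ℕ} : A.Finite ↔ ∃ N : ℕ, ∀ z, z ∈ A → z ≤ N := by
  rw [Set.finite_iff_bddAbove]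
  exact Iff.rfl

section iso

variable {M N : Type} {I : Interp L M} {J : Interp L N} (e : M ≃ N)
  (he : ∀ n (R : L.Relations n) (t : Fin n → M), I n R t ↔ J n R (fun k => e (t k)))

include he

private theorem iso_tp (h2 : S_SYN2) (x : M) : tp J (e x) = tp I x := by
  funext φ
  exact propext (h2 L M N I J e he φ x x).symm

private theorem iso_th (x y : M) : th J (e x) (e y) = th I x y := by
  funext R
  have h : ∀ a b : M, (fun k => e ((![a, b] : Fin 2 → M) k)) = ![e a, e b] := by
    intro a b
    funext k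
    fin_cases k <;> rfl
  refine Prod.ext (propext ?_) (propext ?_)
  · show J 2 R ![e x, e y] ↔ I 2 R ![x, y]
    rw [he, h]
  · show J 2 R ![e y, e x] ↔ I 2 R ![y, x]
    rw [he, h]

private theorem iso_A (h2 : S_SYN2) {p q : Ty L} {B : Set (T2 L)} {n : ℕ} (h : InvA p q B I n) :
    InvA p q B J n := by
  obtain ⟨x, hx, hn⟩ := h
  refine ⟨e x, by rw [iso_tp e he h2]; exact hx, ?_⟩
  have hin : ∀ x', {y | tp J y = q ∧ y ≠ e x ∧ y ≠ e x' ∧ th J (e x) y ∈ B ∧ th J (e x') y ∈ B ∧
      th J (e x) y ≠ th J (e x') y} = e '' {y | tp I y = q ∧ y ≠ x ∧ y ≠ x' ∧ th I x y ∈ B ∧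
      th I x' y ∈ B ∧ th I x y ≠ th I x' y} := by
    intro x'
    ext y
    obtain ⟨y, rfl⟩ := e.surjective y
    rw [e.injective.mem_set_image]
    simp only [mem_ofPred_eq, iso_tp e he h2, iso_th e he, ne_eq, EmbeddingLike.apply_eq_iff_eq]
  have hout : {x' | tp J x' = p ∧ {y | tp J y = q ∧ y ≠ e x ∧ y ≠ x' ∧ th J (e x) y ∈ B ∧
      th J x' y ∈ B ∧ th J (e x) y ≠ th J x' y}.Finite} = e '' {x' | tp I x' = p ∧
      {y | tp I y = q ∧ y ≠ x ∧ y ≠ x' ∧ th I x y ∈ B ∧
      th I x' y ∈ B ∧ th I x y ≠ th I x' y}.Finite} := by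
    ext x'
    obtain ⟨x', rfl⟩ := e.surjective x'
    rw [e.injective.mem_set_image]
    show (tp J (e x') = p ∧ _) ↔ (tp I x' = p ∧ _)
    rw [hin, iso_tp e he h2, Set.finite_image_iff e.injective.injOn]
  rw [hout, e.injective.encard_image]
  exact hn

private theorem iso_B (h2 : S_SYN2) {E : Set (Ty L × T2 L × Ty L)} {n : ℕ} (h : InvB E I n) :
    InvB E J n := by
  obtain ⟨h3, f, hf, h4⟩ := h
  refine ⟨h3, fun i => e (f i), e.injective.comp hf, fun i => ?_⟩
  rw [iso_tp e he h2, iso_tp e he h2, iso_th e he]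
  exact h4 i

end iso

private theorem iso_get {c c' : Code L} (h : Iso c c') : ∃ e : ℕ ≃ ℕ,
    ∀ n (R : L.Relations n) (t : Fin n → ℕ), toI c n R t ↔ toI c' n R (fun k => e (t k)) := by
  obtain ⟨g, hg⟩ := h
  refine ⟨g, fun n R t => ?_⟩
  unfold toI
  rw [hg]

theorem t_MEA (h1 : S_SYN1) (h2 : S_SYN2) (h3 : S_SYN3) : S_MEA := by
  intro L _ _ Φ p q B hex
  have hfin : Finite (T2 L) := Pi.finite
  have hmem : ∀ (x y : ℕ), Measurable fun c : Code L => th (toI c) x y ∈ B := by
    intro x y
    have h : (fun c : Code L => th (toI c) x y ∈ B) =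
        fun c : Code L => ∃ θ : T2 L, θ ∈ B ∧ th (toI c) x y = θ := by
      funext c
      apply propext
      constructor
      · intro h
        exact ⟨_, h, rfl⟩
      · rintro ⟨θ, hθ, h⟩
        rw [h]
        exact hθ
    rw [h]
    exact Measurable.exists fun θ => measurable_const.and (mea_th θ x y)
  have hne : ∀ (x x' y : ℕ), Measurable fun c : Code L => th (toI c) x y ≠ th (toI c) x' y := by
    intro x x' y
    have h : (fun c : Code L => th (toI c) x y ≠ th (toI c) x' y) =
        fun c : Code L => ∃ θ : T2 L, th (toI c) x y = θ ∧ ¬ th (toI c) x' y = θ := by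
      funext c
      apply propext
      constructor
      · intro h
        exact ⟨_, rfl, fun h' => h h'.symm⟩
      · rintro ⟨θ, hθ, h⟩ h'
        exact h (h'.symm.trans hθ)
    rw [h]
    exact Measurable.exists fun θ => (mea_th θ x y).and (mea_th θ x' y).not
  refine mea_perf h1 h3 Φ (fun c n => InvA p q B (toI c) n) (fun n => ?_) ?_ (fun k => k + 3) ?_
  · unfold InvA
    refine Measurable.exists fun x => (mea_tp h1 h3 p x).and ?_
    simp only [mea_card, mem_ofPred_eq, mea_fin]
    refine Measurable.exists fun s => measurable_const.and (Measurable.forall fun x' =>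
      measurable_const.iff ((mea_tp h1 h3 p x').and (Measurable.exists fun N =>
        Measurable.forall fun y => Measurable.imp ?_ measurable_const)))
    exact (mea_tp h1 h3 q y).and (measurable_const.and (measurable_const.and
      ((hmem x y).and ((hmem x' y).and (hne x x' y)))))
  · intro c c' hcc n h
    obtain ⟨e, he⟩ := iso_get hcc
    exact iso_A e he h2 h
  · intro g
    obtain ⟨c, hc, h⟩ := hex ({2} ∪ {n | ∃ k, g k = true ∧ n = k + 3}) ⟨2, Or.inl rfl⟩ (by
      rintro n (rfl | ⟨k, -, rfl⟩)
      · exact le_refl _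
      · omega)
    refine ⟨c, hc, fun k => ?_⟩
    rw [h]
    constructor
    · rintro (h4 | ⟨l, hl, h4⟩)
      · have h5 : k + 3 = 2 := h4
        omega
      · have h5 : k = l := by omega
        rw [h5]
        exact hl
    · intro hk
      exact Or.inr ⟨k, hk, rfl⟩

theorem t_MEB (h1 : S_SYN1) (h2 : S_SYN2) (h3 : S_SYN3) : S_MEB := by
  intro L _ Φ E m hE hm hex
  have := hE.to_subtype
  refine mea_perf h1 h3 Φ (fun c n => InvB E (toI c) n) (fun n => ?_) ?_
    (fun k => m * (k + 3)) ?_
  · by_cases hn : n < 3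
    · have h0 : (fun c : Code L => InvB E (toI c) n) = fun _ => False := by
        funext c
        apply propext
        constructor
        · intro h
          have h4 : 3 ≤ n := h.1
          omega
        · intro h
          exact h.elim
      rw [h0]
      exact measurable_const
    · unfold InvB
      refine measurable_const.and ?_
      have : NeZero n := ⟨by omega⟩
      have : Countable (ZMod n → ℕ) := inferInstance
      refine Measurable.exists fun f => measurable_const.and (Measurable.forall fun i => ?_)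
      have h : (fun c : Code L => (tp (toI c) (f i), th (toI c) (f i) (f (i + 1)),
          tp (toI c) (f (i + 1))) ∈ E) = fun c : Code L => ∃ ε : ↥E,
          tp (toI c) (f i) = ε.1.1 ∧ th (toI c) (f i) (f (i + 1)) = ε.1.2.1 ∧
          tp (toI c) (f (i + 1)) = ε.1.2.2 := by
        funext c
        apply propext
        constructor
        · intro h
          exact ⟨⟨_, h⟩, rfl, rfl, rfl⟩
        · rintro ⟨⟨⟨a, b, d⟩, hε⟩, ha, hb, hd⟩
          rw [ha, hb, hd]
          exact hε
      rw [h]
      exact Measurable.exists fun ε => (mea_tp h1 h3 _ _).and ((mea_th _ _ _).and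
        (mea_tp h1 h3 _ _))
  · intro c c' hcc n h
    obtain ⟨e, he⟩ := iso_get hcc
    exact iso_B e he h2 h
  · intro g
    obtain ⟨c, hc, h⟩ := hex {n | ∃ k, g k = true ∧ n = k + 3} (by
      rintro n ⟨k, -, rfl⟩
      omega)
    refine ⟨c, hc, fun k => ?_⟩
    rw [h]
    constructor
    · rintro ⟨l, ⟨l', hl', rfl⟩, h4⟩
      have h5 : k + 3 = l' + 3 := Nat.eq_of_mul_eq_mul_left hm h4
      have h6 : k = l' := by omega
      rw [h6]
      exact hl'
    · intro hk
      exact ⟨k + 3, ⟨k, hk, rfl⟩, rfl⟩

end Pool.Agent.H8C2
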