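import Pool.Agent.H8C2.DF

/-!
Piece PART of project H8C2: the generic binary type depends only on finitely many formulas.
-/

set_option autoImplicit false

namespace Pool.Agent.H8C2

open FirstOrder Set
open Pool.Agent.H565R2.FO2 (pick Interp)

variable {L : FirstOrder.Language.{0, 0}}

namespace PF

/-- The conditions. -/
inductive Cd (L : FirstOrder.Language.{0, 0}) : Type
  | a : C2F L → Bool → Cd L
  | c : C2F L → ℕ → Bool → Bool → Cd L
  | d : C2F L → ℕ → Bool → Bool → Cd L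

/-- The binary type between the unknowns `(i, j)` and `(!i, j)`. -/
def tht (θ : Bool → T2 L) : Bool → Bool → T2 L
  | false, j => θ j
  | true, j => fun R => ((θ j R).2, (θ j R).1)

def Cd.P (θ : Bool → T2 L) : Cd L → UR L
  | .a φ _ => fun _ I x y => Sat I φ x x ↔ Sat I φ y y
  | .c ψ k _ _ => fun _ I x _ => Sat I ψ x x → (k : ℕ∞) ≤ {z | Sat I ψ z z}.encard
  | .d ψ k i j => fun _ I x y => Sat I ψ y y →
      (k : ℕ∞) ≤ {z | z ≠ x ∧ th I x z = tht θ i j ∧ Sat I ψ z z}.encard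

def Cd.p : Cd L → Bool × Bool
  | .a _ i => (i, false)
  | .c _ _ i j => (i, j)
  | .d _ _ i j => (i, j)

def Cd.q : Cd L → Bool × Bool
  | .a _ i => (i, true)
  | .c _ _ i j => (i, j)
  | .d _ _ i j => (!i, j)

theorem Cd.df (h1 : S_FML1) (h3 : S_FML3) (h4 : S_FML4) [Finite (L.Relations 2)]
    (θ : Bool → T2 L) : ∀ l : Cd L, Df (l.P θ)
  | .a φ _ => (Df.fst h1 φ).iff (Df.snd h1 φ)
  | .c ψ k _ _ => (Df.fst h1 ψ).imp (Df.num h4 k ψ)
  | .d ψ k i j => (Df.snd h1 ψ).imp (Df.deg h3 k (tht θ i j) ψ)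

/-- The generic binary types of close pairs of types agree. -/
theorem not_four (h1 : S_FML1) (h3 : S_FML3) (h4 : S_FML4) (hD1 : S_DEG1) (hD2 : S_DEG2)
    [∀ n, Countable (L.Relations n)] [Finite (L.Relations 2)] {U : Type} {J : Interp L U}
    (hJ : Good J) (θ : Bool → T2 L) (hθ : θ false ≠ θ true)
    (h : ∀ F : Finset (C2F L), ∃ b : Bool × Bool → U,
      (∀ φ ∈ F, ∀ i, Sat J φ (b (i, false)) (b (i, false)) ↔ Sat J φ (b (i, true)) (b (i, true))) ∧
      (∀ z, (dat J).c (tp J (b z)) = ⊤) ∧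
      ∀ j, (dat J).Bi (tp J (b (false, j))) (θ j) (tp J (b (true, j)))) : False := by
  classical
  obtain ⟨b, hb⟩ := csat_sem hJ.sat (Cd.P θ) (Cd.df h1 h3 h4 θ) Cd.p Cd.q (by
    intro s hs
    obtain ⟨b, hb1, hb2, hb3⟩ := h (hs.toFinset.image fun l => match l with
      | .a φ _ => φ
      | .c φ _ _ _ => φ
      | .d φ _ _ _ => φ)
    refine ⟨b, ?_⟩
    rintro (⟨φ, i⟩ | ⟨ψ, k, i, j⟩ | ⟨ψ, k, i, j⟩) hl
    · exact hb1 φ (Finset.mem_image.2 ⟨_, hs.mem_toFinset.2 hl, rfl⟩) i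
    · exact (top_iff hD2 hJ.sat _).1 (hb2 (i, j)) k ψ
    · have hB := (bi_iff hD1 hJ.sat hJ.fits _ _ _).1 (hb3 j)
      cases i
      · exact hB.1 k ψ
      · exact hB.2 k ψ)
  have hA : ∀ i, tp J (b (i, false)) = tp J (b (i, true)) := by
    intro i
    funext φ
    exact propext (hb (.a φ i))
  have hC : ∀ i j, (dat J).c (tp J (b (i, j))) = ⊤ := by
    intro i j
    exact (top_iff hD2 hJ.sat _).2 fun k ψ => hb (.c ψ k i j)
  have hB : ∀ j, (dat J).Bi (tp J (b (false, j))) (θ j) (tp J (b (true, j))) := by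
    intro j
    exact (bi_iff hD1 hJ.sat hJ.fits _ _ _).2
      ⟨fun k ψ => hb (.d ψ k false j), fun k ψ => hb (.d ψ k true j)⟩
  have h5 := hB false
  rw [hA false, hA true] at h5
  exact hθ ((hJ.bi _ _ (hC false true) (hC true true)).unique h5 (hB true))

end PF

open PF

theorem t_PART (h1 : S_FML1) (h3 : S_FML3) (h4 : S_FML4) (hD1 : S_DEG1) (hD2 : S_DEG2) :
    S_PART := by
  classical
  intro L _ _ U J hJ
  have key : ∀ θ : Bool → T2 L, ∃ F : Finset (C2F L), θ false ≠ θ true → ∀ b : Bool × Bool → U,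
      (∀ φ ∈ F, ∀ i, Sat J φ (b (i, false)) (b (i, false)) ↔ Sat J φ (b (i, true)) (b (i, true))) →
      (∀ z, (dat J).c (tp J (b z)) = ⊤) →
      ¬ ∀ j, (dat J).Bi (tp J (b (false, j))) (θ j) (tp J (b (true, j))) := by
    intro θ
    by_contra hcon
    push Not at hcon
    obtain ⟨hθ, -⟩ := hcon ∅
    exact not_four h1 h3 h4 hD1 hD2 hJ θ hθ fun F => (hcon F).2
  choose F hF using key
  have : Fintype (Bool → T2 L) := Fintype.ofFinite _
  let F' : Finset (C2F L) := Finset.univ.biUnion F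
  let val : U → {φ // φ ∈ F'} → Prop := fun u φ => Sat J φ.1 u u
  let Q : ({φ // φ ∈ F'} → Prop) → ({φ // φ ∈ F'} → Prop) → T2 L → Prop := fun a b θ =>
    ∃ u v, (dat J).c (tp J u) = ⊤ ∧ (dat J).c (tp J v) = ⊤ ∧ val u = a ∧ val v = b ∧
      (dat J).Bi (tp J u) θ (tp J v)
  refine ⟨F', fun a b => if h : ∃ θ, Q a b θ then h.choose else fun _ => (True, True), ?_⟩
  intro u v hu hv
  obtain ⟨θ', hθ', -⟩ := hJ.bi _ _ hu hv
  have hex : ∃ θ, Q (val u) (val v) θ := ⟨θ', u, v, hu, hv, rfl, rfl, hθ'⟩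
  have e : (if h : ∃ θ, Q (val u) (val v) θ then h.choose else fun _ => (True, True)) = hex.choose :=
    dif_pos hex
  change (dat J).Bi (tp J u)
    (if h : ∃ θ, Q (val u) (val v) θ then h.choose else fun _ => (True, True)) (tp J v)
  rw [e]
  obtain ⟨u₀, v₀, hu₀, hv₀, h1', h2', hB₀⟩ := hex.choose_spec
  generalize hex.choose = θ₀ at hB₀ ⊢
  by_cases hne : θ₀ = θ'
  · rw [hne]
    exact hθ'
  · exfalso
    let θ : Bool → T2 L := fun j => cond j θ' θ₀
    let b : Bool × Bool → U := fun z => cond z.2 (cond z.1 v u) (cond z.1 v₀ u₀)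
    refine hF θ hne b ?_ ?_ ?_
    · intro φ hφ i
      have hφ' : φ ∈ F' := Finset.mem_biUnion.2 ⟨θ, Finset.mem_univ _, hφ⟩
      cases i
      · exact iff_of_eq (congrFun h1' ⟨φ, hφ'⟩)
      · exact iff_of_eq (congrFun h2' ⟨φ, hφ'⟩)
    · rintro ⟨_ | _, _ | _⟩
      · exact hu₀
      · exact hu
      · exact hv₀
      · exact hv
    · rintro (_ | _)
      · exact hB₀
      · exact hθ'

end Pool.Agent.H8C2
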