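import Pool.Agent.H8C2.StmA

/-! # Project H8C2, piece RAY: a ray in an infinite clique subdivision (helper86) -/

set_option autoImplicit false

namespace Pool.Agent.H8C2

open Set

/-- the concatenation of the paths `P K (K+1)`, …, `P (K+n-1) (K+n)` -/
private def ray_walk (G : SimpleGraph ℕ) (v : ℕ → ℕ) (P : ∀ i j, G.Walk (v i) (v j)) (K : ℕ) :
    ∀ n, G.Walk (v K) (v (K + n))
  | 0 => SimpleGraph.Walk.nil
  | n + 1 => (ray_walk G v P K n).append (P (K + n) (K + n + 1))

theorem t_RAY : S_RAY := by
  classical
  rintro G ⟨v, hv, P, hP, hend, hdisj⟩ F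
  -- the number `K`
  have hK : ∃ K, ∀ k, K ≤ k → ∀ f ∈ F, f ∉ (P k (k + 1)).support := by
    have h1 : ∀ f : ℕ, {k | f ∈ (P k (k + 1)).support}.Finite := by
      intro f
      by_cases hf : ∃ j, f = v j
      · obtain ⟨j, rfl⟩ := hf
        refine (finite_le_nat j).subset ?_
        intro k hk
        rcases hend k (k + 1) j (by omega) hk with h | h
        · exact h.ge
        · show k ≤ j
          omega
      · refine Set.Subsingleton.finite ?_
        intro k hk l hl
        by_contra hkl
        exact hf (hdisj k (k + 1) l (l + 1) (by omega) (by omega)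
          (fun h => hkl (Prod.ext_iff.1 h).1) f hk hl)
    have h2 : (⋃ f ∈ F, {k | f ∈ (P k (k + 1)).support}).Finite :=
      F.finite_toSet.biUnion fun f _ => h1 f
    obtain ⟨K, hK⟩ := h2.bddAbove
    refine ⟨K + 1, fun k hk f hf h => ?_⟩
    have h3 : k ∈ ⋃ f ∈ F, {k | f ∈ (P k (k + 1)).support} := by
      simp only [mem_iUnion, mem_ofPred_eq]
      exact ⟨f, hf, h⟩
    have := hK h3
    omega
  obtain ⟨K, hK⟩ := hK
  set W := ray_walk G v P K with hW
  have hW0 : ∀ n, W (n + 1) = (W n).append (P (K + n) (K + n + 1)) := fun n => rfl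
  have hsup : ∀ n x, x ∈ (W n).support → (n = 0 ∧ x = v K) ∨
      ∃ k, k < n ∧ x ∈ (P (K + k) (K + k + 1)).support := by
    intro n
    induction n with
    | zero =>
      intro x hx
      left
      refine ⟨rfl, ?_⟩
      have : W 0 = SimpleGraph.Walk.nil := rfl
      rw [this] at hx
      simpa using hx
    | succ n ih =>
      intro x hx
      right
      rw [hW0, SimpleGraph.Walk.mem_support_append_iff] at hx
      rcases hx with hx | hx
      · rcases ih x hx with ⟨h1, h2⟩ | ⟨k, h1, h2⟩
        · subst h1
          refine ⟨0, by omega, ?_⟩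
          rw [h2]
          exact SimpleGraph.Walk.start_mem_support _
        · exact ⟨k, by omega, h2⟩
      · exact ⟨n, by omega, hx⟩
  have hpath : ∀ n, (W n).IsPath := by
    intro n
    induction n with
    | zero => exact SimpleGraph.Walk.IsPath.nil
    | succ n ih =>
      rw [hW0, SimpleGraph.Walk.isPath_def, SimpleGraph.Walk.support_append, List.nodup_append]
      have h1 := hP (K + n) (K + n + 1) (by omega)
      have h2 := h1.support_nodup
      have h3 : v (K + n) ∉ (P (K + n) (K + n + 1)).support.tail := by
        rw [← SimpleGraph.Walk.cons_tail_support] at h2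
        exact (List.nodup_cons.1 h2).1
      refine ⟨ih.support_nodup, h2.tail, ?_⟩
      intro x hx y hy hxy
      subst hxy
      have hy' : x ∈ (P (K + n) (K + n + 1)).support := List.mem_of_mem_tail hy
      rcases hsup n x hx with ⟨h4, h5⟩ | ⟨k, h4, h5⟩
      · subst h4
        exact h3 (h5 ▸ hy)
      · obtain ⟨j, hj⟩ := hdisj (K + k) (K + k + 1) (K + n) (K + n + 1) (by omega) (by omega)
          (fun h => by have := (Prod.ext_iff.1 h).1; simp only at this; omega) x h5 hy'
        subst hj
        rcases hend _ _ _ (by omega) h5 with h6 | h6 <;>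
          rcases hend _ _ _ (by omega) hy' with h7 | h7
        · omega
        · omega
        · rw [h7] at hy
          exact h3 hy
        · omega
  have hlen : ∀ n, n ≤ (W n).length := by
    intro n
    induction n with
    | zero => omega
    | succ n ih =>
      rw [hW0, SimpleGraph.Walk.length_append]
      have h1 : (P (K + n) (K + n + 1)).length ≠ 0 := by
        intro h
        have := SimpleGraph.Walk.eq_of_length_eq_zero h
        have := hv this
        omega
      omega
  have hget : ∀ n m i, i ≤ (W n).length → (W (n + m)).getVert i = (W n).getVert i ∧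
      i ≤ (W (n + m)).length := by
    intro n m
    induction m with
    | zero => exact fun i hi => ⟨rfl, hi⟩
    | succ m ih =>
      intro i hi
      obtain ⟨h1, h2⟩ := ih i hi
      have h3 : W (n + (m + 1)) = (W (n + m)).append (P (K + (n + m)) (K + (n + m) + 1)) := rfl
      refine ⟨?_, ?_⟩
      · rw [h3, SimpleGraph.Walk.getVert_append', if_pos h2, h1]
      · rw [h3, SimpleGraph.Walk.length_append]
        omega
  have hget' : ∀ n N, n ≤ N → (W N).getVert n = (W n).getVert n := by
    intro n N h
    obtain ⟨m, rfl⟩ := Nat.exists_eq_add_of_le h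
    exact (hget n m n (hlen n)).1
  refine ⟨fun i => (W i).getVert i, ?_, ?_, ?_⟩
  · intro i j hij
    simp only at hij
    have hi : i ≤ max i j := le_max_left _ _
    have hj : j ≤ max i j := le_max_right _ _
    rw [← hget' i (max i j) hi, ← hget' j (max i j) hj] at hij
    exact (hpath (max i j)).getVert_injOn (hi.trans (hlen _)) (hj.trans (hlen _)) hij
  · intro i
    simp only
    rw [← hget' i (i + 1) (by omega)]
    exact (W (i + 1)).adj_getVert_succ (by have := hlen (i + 1); omega)
  · intro i hi
    simp only at hi
    have h1 : (W i).getVert i ∈ (W i).support := SimpleGraph.Walk.getVert_mem_support _ _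
    rcases hsup i _ h1 with ⟨h2, h3⟩ | ⟨k, h2, h3⟩
    · rw [h3] at hi
      exact hK K le_rfl _ hi (SimpleGraph.Walk.start_mem_support _)
    · exact hK (K + k) (by omega) _ hi h3

end Pool.Agent.H8C2
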