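import Pool.Agent.H8C2.StmA

/-!
# Pieces SELF and RC of project H8C2
-/

set_option autoImplicit false

namespace Pool.Agent.H8C2

open Set

theorem t_SELF : S_SELF := by
  intro Q Θ X D t g hF
  have key : ∀ (v w : {x : X // D.c (t x) = ⊤}) (θ : Θ), self D t g v w = some θ ↔
      v ≠ w ∧ ¬ D.Bi (t v) θ (t w) ∧ g v w = θ := by
    intro v w θ
    unfold self
    split_ifs with h
    · rw [Option.some_inj]
      constructor
      · rintro rfl
        exact ⟨h.1, h.2, rfl⟩
      · rintro ⟨_, _, h3⟩
        exact h3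
    · constructor
      · intro h'
        cases h'
      · rintro ⟨h1, h2, rfl⟩
        exact absurd ⟨h1, h2⟩ h
  refine ⟨fun v => v.2, fun q hq => ?_, fun v => ?_, fun v w θ h => ?_, fun v w θ h => ?_, fun v θ q hq hB => ?_⟩
  · have h1 := hF.card q
    rw [hq] at h1
    have h2 : {y | t y = q}.Nonempty := by
      rw [← encard_ne_zero, h1]
      simp
    obtain ⟨y, hy⟩ := h2
    have hy' : t y = q := hy
    exact ⟨⟨y, by rw [hy']; exact hq⟩, hy⟩
  · unfold self
    rw [if_neg]
    rintro ⟨h, _⟩
    exact h rfl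
  · rw [key] at h ⊢
    obtain ⟨h1, h2, rfl⟩ := h
    have h3 : g w v = D.star (g v w) := hF.symm _ _ fun h => h1 (Subtype.ext h)
    refine ⟨h1.symm, fun h4 => h2 ?_, h3⟩
    have h5 := h4.symm
    rw [D.star_star] at h5
    exact h5
  · rw [key] at h
    exact h.2.1
  · rw [← hF.deg v θ q]
    have h1 : {y | y ≠ (v : X) ∧ t y = q ∧ g v y = θ} =
        Subtype.val '' {w : {x : X // D.c (t x) = ⊤} | t w = q ∧ self D t g v w = some θ} := by
      ext y
      constructor
      · rintro ⟨h1, h2, h3⟩
        refine ⟨⟨y, by rw [h2]; exact hq⟩, ⟨h2, ?_⟩, rfl⟩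
        rw [key]
        refine ⟨fun h => h1 (congrArg Subtype.val h).symm, ?_, h3⟩
        change ¬ D.Bi (t v) θ (t y)
        rw [h2]
        exact hB
      · rintro ⟨w, ⟨h2, h3⟩, rfl⟩
        rw [key] at h3
        exact ⟨fun h => h3.1 (Subtype.ext h.symm), h2, h3.2.2⟩
    rw [h1, Subtype.val_injective.encard_image]

namespace RC

theorem ex_enum {X : Type} [Countable X] (S : Set X) (hS : S.Nonempty) :
    ∃ e : ℕ → X, (∀ i, e i ∈ S) ∧ ∀ x ∈ S, {i | e i = x}.Infinite := by
  have : Nonempty S := hS.to_subtype
  obtain ⟨f, hf⟩ := exists_surjective_nat S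
  refine ⟨fun i => f (Nat.unpair i).1, fun i => (f _).2, fun x hx => ?_⟩
  obtain ⟨n, hn⟩ := hf ⟨x, hx⟩
  refine Set.infinite_of_injective_forall_mem (f := fun m : ℕ => Nat.pair n m) ?_ ?_
  · intro a b hab
    have := congrArg (fun z => (Nat.unpair z).2) hab
    simpa using this
  · intro m
    show (f (Nat.unpair (Nat.pair n m)).1 : X) = x
    rw [Nat.unpair_pair, hn]

end RC

theorem t_RC (hZI : S_ZI) : S_RC := by
  classical
  intro Q Θ X V _ _ D t g τ s h hF hS hC
  have hinf : ∀ q, D.c q = ⊤ → ∃ e : ℕ → X, (∀ i, t (e i) = q) ∧ ∀ x, t x = q → {i | e i = x}.Infinite := by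
    intro q hq
    have h1 := hF.card q
    rw [hq] at h1
    have h2 : {y | t y = q}.Nonempty := by
      rw [← encard_ne_zero, h1]
      simp
    exact RC.ex_enum _ h2
  choose E hE1 hE2 using hinf
  let r : V × ℕ → X := fun x => E (τ x.1) (hS.inf x.1) x.2
  have hr : ∀ x, t (r x) = τ x.1 := fun x => hE1 _ _ _
  have hrinf : ∀ (v : V) (y : X), t y = τ v → {i : ℕ | r (v, i) = y}.Infinite := fun v y hy =>
    hE2 _ (hS.inf v) y hy
  have hc : ∀ x : V × ℕ, D.c (τ x.1) = ⊤ := fun x => hS.inf x.1
  have hne : ∀ (a : {x : X // D.c (t x) ≠ ⊤}) (x : V × ℕ), a.1 ≠ r x := by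
    intro a x h
    apply a.2
    rw [h, hr, hc]
  have hsn : ∀ v w, s v w = none → s w v = none := by
    intro v w h
    cases h' : s w v with
    | none => rfl
    | some θ =>
      rw [hS.symm _ _ _ h'] at h
      cases h
  have hgg : ∀ x y : V × ℕ, Non s x y → gg D t g s h r (.inr x) (.inr y) = h x y := by
    intro x y hn
    show (if x.2 = y.2 then (s x.1 y.1).getD (h x y) else h x y) = h x y
    split_ifs with h1
    · have h2 : s x.1 y.1 = none := by
        by_contra h2
        exact hn.2 ⟨h1, h2⟩
      rw [h2]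
      rfl
    · rfl
  have hgg' : ∀ (x y : V × ℕ) (θ : Θ), x.2 = y.2 → s x.1 y.1 = some θ →
      gg D t g s h r (.inr x) (.inr y) = θ := by
    intro x y θ h1 h2
    show (if x.2 = y.2 then (s x.1 y.1).getD (h x y) else h x y) = θ
    rw [if_pos h1, h2]
    rfl
  refine ⟨r, hr, ?_, ?_, ?_⟩
  · -- symmetry
    rintro (a | x) (b | y) hxy
    · exact hF.symm _ _ fun h => hxy (congrArg Sum.inl (Subtype.ext h))
    · exact hF.symm _ _ (hne a y)
    · exact hF.symm _ _ (hne b x).symm
    · have hxy' : x ≠ y := fun h => hxy (congrArg Sum.inr h)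
      by_cases hn : Non s x y
      · have hn' : Non s y x := by
          refine ⟨hxy'.symm, fun h1 => hn.2 ⟨h1.1.symm, fun h2 => h1.2 (hsn _ _ h2)⟩⟩
        rw [hgg _ _ hn, hgg _ _ hn']
        exact hC.symm _ _ hn
      · have h1 : x.2 = y.2 ∧ s x.1 y.1 ≠ none := by
          by_contra h1
          exact hn ⟨hxy', h1⟩
        obtain ⟨θ, hθ⟩ := Option.ne_none_iff_exists'.1 h1.2
        rw [hgg' x y θ h1.1 hθ, hgg' y x (D.star θ) h1.1.symm (hS.symm _ _ _ hθ)]
  · -- numbers
    intro q
    by_cases hq : D.c q = ⊤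
    · rw [hq, encard_eq_top_iff]
      obtain ⟨v, hv⟩ := hS.onto q hq
      refine Set.infinite_of_injective_forall_mem
        (f := fun i : ℕ => (Sum.inr (v, i) : {x : X // D.c (t x) ≠ ⊤} ⊕ V × ℕ)) ?_ ?_
      · intro i j hij
        have := Sum.inr_injective hij
        exact (Prod.ext_iff.1 this).2
      · intro i
        exact hv
    · rw [← hF.card q]
      have h1 : {y : X | t y = q} = (fun a : {x : X // D.c (t x) ≠ ⊤} => a.1) '' {a | t a.1 = q} := by
        ext y
        constructor
        · intro hy
          have hy' : t y = q := hy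
          exact ⟨⟨y, by rw [hy']; exact hq⟩, hy, rfl⟩
        · rintro ⟨a, ha, rfl⟩
          exact ha
      have h2 : {y | tt D t τ y = q} = Sum.inl '' {a : {x : X // D.c (t x) ≠ ⊤} | t a.1 = q} := by
        ext y
        constructor
        · rcases y with a | x
          · intro ha
            exact ⟨a, ha, rfl⟩
          · intro hx
            have hx' : τ x.1 = q := hx
            exfalso
            apply hq
            rw [← hx', hc]
        · rintro ⟨a, ha, rfl⟩
          exact ha
      rw [h1, h2, Subtype.val_injective.encard_image, Sum.inl_injective.encard_image]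
  · -- degrees
    rintro (a | x) θ q
    · change _ = D.d (t a.1) θ q
      by_cases hq : D.c q = ⊤
      · rcases hZI Q Θ X D t g hF a.1 θ q a.2 hq with h0 | h0
        · rw [h0, encard_eq_zero, Set.eq_empty_iff_forall_notMem]
          rintro (b | y) ⟨h1, h2, h3⟩
          · have h2' : t b.1 = q := h2
            exact b.2 (by rw [h2', hq])
          · have h4 := hF.deg a.1 θ q
            rw [h0, encard_eq_zero, Set.eq_empty_iff_forall_notMem] at h4
            exact h4 (r y) ⟨(hne a y).symm, by rw [hr]; exact h2, h3⟩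
        · rw [h0, encard_eq_top_iff]
          have h4 := hF.deg a.1 θ q
          rw [h0] at h4
          have h5 : {y | y ≠ a.1 ∧ t y = q ∧ g a.1 y = θ}.Nonempty := by
            rw [← encard_ne_zero, h4]
            simp
          obtain ⟨y, _, hy1, hy2⟩ := h5
          obtain ⟨v, hv⟩ := hS.onto q hq
          have h6 := hrinf v y (by rw [hy1, hv])
          have h7 : ((fun i : ℕ => (Sum.inr (v, i) : {x : X // D.c (t x) ≠ ⊤} ⊕ V × ℕ)) ''
              {i : ℕ | r (v, i) = y}).Infinite := by
            refine h6.image ?_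
            intro i _ j _ hij
            have := Sum.inr_injective hij
            exact (Prod.ext_iff.1 this).2
          refine h7.mono ?_
          rintro _ ⟨i, hi, rfl⟩
          refine ⟨by simp, hv, ?_⟩
          show g a.1 (r (v, i)) = θ
          have hi' : r (v, i) = y := hi
          rw [hi', hy2]
      · rw [← hF.deg a.1 θ q]
        have h1 : {y : X | y ≠ a.1 ∧ t y = q ∧ g a.1 y = θ} =
            (fun a : {x : X // D.c (t x) ≠ ⊤} => a.1) '' {b | b ≠ a ∧ t b.1 = q ∧ g a.1 b.1 = θ} := by
          ext y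
          constructor
          · rintro ⟨h1, h2, h3⟩
            exact ⟨⟨y, by rw [h2]; exact hq⟩, ⟨fun h => h1 (congrArg Subtype.val h), h2, h3⟩, rfl⟩
          · rintro ⟨b, ⟨h1, h2, h3⟩, rfl⟩
            exact ⟨fun h => h1 (Subtype.ext h), h2, h3⟩
        have h2 : {y | y ≠ Sum.inl a ∧ tt D t τ y = q ∧ gg D t g s h r (.inl a) y = θ} =
            Sum.inl '' {b : {x : X // D.c (t x) ≠ ⊤} | b ≠ a ∧ t b.1 = q ∧ g a.1 b.1 = θ} := by
          ext y
          constructor
          · rcases y with b | x
            · rintro ⟨h1, h2, h3⟩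
              exact ⟨b, ⟨fun h => h1 (congrArg Sum.inl h), h2, h3⟩, rfl⟩
            · rintro ⟨_, h2, _⟩
              have hx' : τ x.1 = q := h2
              exfalso
              apply hq
              rw [← hx', hc]
          · rintro ⟨b, ⟨h1, h2, h3⟩, rfl⟩
            exact ⟨fun h => h1 (Sum.inl_injective h), h2, h3⟩
        rw [h1, h2, Subtype.val_injective.encard_image, Sum.inl_injective.encard_image]
    · change _ = D.d (τ x.1) θ q
      by_cases hq : D.c q = ⊤
      · by_cases hB : D.Bi (τ x.1) θ q
        · rw [hB.1, encard_eq_top_iff]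
          have h1 := (hC.many x q θ hq hB).image
            (f := (Sum.inr : V × ℕ → {x : X // D.c (t x) ≠ ⊤} ⊕ V × ℕ)) Sum.inr_injective.injOn
          refine h1.mono ?_
          rintro _ ⟨y, ⟨hn, h2, h3⟩, rfl⟩
          refine ⟨fun h => hn.1 (Sum.inr_injective h).symm, h2, ?_⟩
          rw [hgg _ _ hn, h3]
        · rw [← hS.deg x.1 θ q hq hB]
          have h2 : {y | y ≠ Sum.inr x ∧ tt D t τ y = q ∧ gg D t g s h r (.inr x) y = θ} =
              (fun w => (Sum.inr (w, x.2) : {x : X // D.c (t x) ≠ ⊤} ⊕ V × ℕ)) ''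
                {w | τ w = q ∧ s x.1 w = some θ} := by
            ext y
            constructor
            · rcases y with b | y
              · rintro ⟨_, h2, _⟩
                have h2' : t b.1 = q := h2
                exact absurd (by rw [h2', hq]) b.2
              · rintro ⟨h1, h2, h3⟩
                have h2' : τ y.1 = q := h2
                have hxy : x ≠ y := fun h => h1 (congrArg Sum.inr h.symm)
                by_cases hn : Non s x y
                · exfalso
                  apply hB
                  rw [← h3, hgg _ _ hn, ← h2']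
                  exact hC.bi _ _ hn
                · have h4 : x.2 = y.2 ∧ s x.1 y.1 ≠ none := by
                    by_contra h1
                    exact hn ⟨hxy, h1⟩
                  obtain ⟨θ', hθ'⟩ := Option.ne_none_iff_exists'.1 h4.2
                  rw [hgg' x y θ' h4.1 hθ'] at h3
                  subst h3
                  refine ⟨y.1, ⟨h2', hθ'⟩, ?_⟩
                  show (Sum.inr (y.1, x.2) : {x : X // D.c (t x) ≠ ⊤} ⊕ V × ℕ) = Sum.inr y
                  rw [h4.1]
            · rintro ⟨w, ⟨h1, h2⟩, rfl⟩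
              refine ⟨fun h => ?_, h1, hgg' x (w, x.2) θ rfl h2⟩
              have h3 : w = x.1 := congrArg Prod.fst (Sum.inr_injective h)
              rw [h3, hS.irr] at h2
              cases h2
          rw [h2, Function.Injective.encard_image]
          intro w w' hw
          exact congrArg Prod.fst (Sum.inr_injective hw)
      · have h0 := hF.deg (r x) θ q
        rw [hr] at h0
        rw [← h0]
        have h1 : {y : X | y ≠ r x ∧ t y = q ∧ g (r x) y = θ} =
            (fun a : {x : X // D.c (t x) ≠ ⊤} => a.1) '' {b | t b.1 = q ∧ g (r x) b.1 = θ} := by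
          ext y
          constructor
          · rintro ⟨h1, h2, h3⟩
            exact ⟨⟨y, by rw [h2]; exact hq⟩, ⟨h2, h3⟩, rfl⟩
          · rintro ⟨b, ⟨h2, h3⟩, rfl⟩
            exact ⟨hne b x, h2, h3⟩
        have h2 : {y | y ≠ Sum.inr x ∧ tt D t τ y = q ∧ gg D t g s h r (.inr x) y = θ} =
            Sum.inl '' {b : {x : X // D.c (t x) ≠ ⊤} | t b.1 = q ∧ g (r x) b.1 = θ} := by
          ext y
          constructor
          · rcases y with b | y
            · rintro ⟨_, h2, h3⟩
              exact ⟨b, ⟨h2, h3⟩, rfl⟩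
            · rintro ⟨_, h2, _⟩
              have hx' : τ y.1 = q := h2
              exfalso
              apply hq
              rw [← hx', hc]
          · rintro ⟨b, ⟨h2, h3⟩, rfl⟩
            exact ⟨by simp, h2, h3⟩
        rw [h1, h2, Subtype.val_injective.encard_image, Sum.inl_injective.encard_image]

end Pool.Agent.H8C2
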