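import Pool.Agent.H8C2.StmA

/-!
# Piece REC: recurrence on a countable compact space
-/

set_option autoImplicit false

namespace Pool.Agent.H8C2

open Set

theorem t_REC : S_REC := by
  intro E _ _ _ _ R hR hex
  -- the space of walks
  let W : Set (ℕ → E) := {x | ∀ i, (x i, x (i + 1)) ∈ R}
  have hWc : IsClosed W := by
    have h1 : W = ⋂ i, (fun x : ℕ → E => (x i, x (i + 1))) ⁻¹' R := by
      ext x
      simp [W]
    rw [h1]
    exact isClosed_iInter fun i => hR.preimage ((continuous_apply i).prodMk (continuous_apply (i + 1)))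
  let T : (ℕ → E) → (ℕ → E) := fun x i => x (i + 1)
  have hT : Continuous T := continuous_pi fun i => continuous_apply (i + 1)
  have hTi : ∀ (k : ℕ) (x : ℕ → E) (i : ℕ), (T^[k] x) i = x (i + k) := by
    intro k
    induction k with
    | zero => intro x i; rfl
    | succ k ih =>
      intro x i
      rw [Function.iterate_succ_apply, ih]
      change x (i + k + 1) = x (i + (k + 1))
      rw [Nat.add_assoc]
  -- the family of invariant closed sets
  let S : Set (Set (ℕ → E)) := {Y | IsClosed Y ∧ Y.Nonempty ∧ Y ⊆ W ∧ ∀ y ∈ Y, T y ∈ Y}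
  have hWS : W ∈ S := by
    obtain ⟨x, hx⟩ := hex
    exact ⟨hWc, ⟨x, hx⟩, Subset.rfl, fun y hy i => hy (i + 1)⟩
  obtain ⟨Y, hYW, hY⟩ : ∃ Y, Y ⊆ W ∧ Minimal (· ∈ S) Y := by
    refine zorn_superset_nonempty S (fun c hc hch hcn => ?_) W hWS
    refine ⟨⋂₀ c, ⟨isClosed_sInter fun s hs => (hc hs).1, ?_, ?_, ?_⟩, fun s hs => sInter_subset_of_mem hs⟩
    · haveI : Nonempty c := hcn.to_subtype
      rw [sInter_eq_iInter]
      refine IsCompact.nonempty_iInter_of_directed_nonempty_isCompact_isClosed _ ?_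
        (fun s => (hc s.2).2.1) (fun s => (hc s.2).1.isCompact) fun s => (hc s.2).1
      intro s t
      rcases hch.total s.2 t.2 with h | h
      · exact ⟨s, Subset.rfl, h⟩
      · exact ⟨t, h, Subset.rfl⟩
    · obtain ⟨s, hs⟩ := hcn
      exact (sInter_subset_of_mem hs).trans (hc hs).2.2.1
    · intro y hy s hs
      exact (hc hs).2.2.2 y (hy s hs)
  obtain ⟨hYc, hYn, -, hYT⟩ := hY.prop
  -- an isolated point of the image
  let P : Set E := (fun x : ℕ → E => x 0) '' Y
  have hPc : IsCompact P := hYc.isCompact.image (continuous_apply 0)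
  have hPn : P.Nonempty := hYn.image _
  obtain ⟨a, haP, haO⟩ : ∃ a ∈ P, ∃ O : Set E, IsOpen O ∧ a ∈ O ∧ O ∩ P ⊆ {a} := by
    haveI : CompactSpace P := isCompact_iff_compactSpace.mp hPc
    haveI : Nonempty P := hPn.to_subtype
    haveI : Countable P := inferInstance
    have h1 : (⋃ a : P, ({a} : Set P)) = univ := by
      ext x
      simp
    obtain ⟨a, ha⟩ := nonempty_interior_of_iUnion_of_closed (fun a : P => isClosed_singleton) h1
    have h2 : IsOpen ({a} : Set P) := by
      obtain ⟨b, hb⟩ := ha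
      have h3 : b ∈ ({a} : Set P) := interior_subset hb
      rw [mem_singleton_iff] at h3
      rw [h3] at hb
      have h4 : interior ({a} : Set P) = {a} :=
        Subset.antisymm interior_subset (singleton_subset_iff.mpr hb)
      rw [← h4]
      exact isOpen_interior
    obtain ⟨O, hO, hO'⟩ := isOpen_induced_iff.mp h2
    refine ⟨a.1, a.2, O, hO, ?_, ?_⟩
    · have : a ∈ Subtype.val ⁻¹' O := by rw [hO']; exact rfl
      exact this
    · rintro x ⟨hx, hxP⟩
      have : (⟨x, hxP⟩ : P) ∈ Subtype.val ⁻¹' O := hx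
      rw [hO'] at this
      exact congrArg Subtype.val this
  obtain ⟨O, hO, haO, hOP⟩ := haO
  obtain ⟨y, hy, hya⟩ := haP
  have hya : y 0 = a := hya
  -- the closure of the orbit
  let Z : Set (ℕ → E) := closure (range fun k => T^[k + 1] y)
  have hZY : Z ⊆ Y := by
    refine closure_minimal ?_ hYc
    rintro _ ⟨k, rfl⟩
    induction k with
    | zero => exact hYT y hy
    | succ k ih =>
      change T^[k + 1 + 1] y ∈ Y
      rw [Function.iterate_succ_apply']
      exact hYT _ ih
  have hZS : Z ∈ S := by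
    refine ⟨isClosed_closure, ⟨T^[0 + 1] y, subset_closure ⟨0, rfl⟩⟩, hZY.trans hYW, ?_⟩
    intro z hz
    have h1 : MapsTo T (range fun k => T^[k + 1] y) (range fun k => T^[k + 1] y) := by
      rintro _ ⟨k, rfl⟩
      exact ⟨k + 1, Function.iterate_succ_apply' T (k + 1) y⟩
    exact h1.closure hT hz
  have hyZ : y ∈ Z := hY.le_of_le hZS hZY hy
  have h1 : ∃ x ∈ (range fun k => T^[k + 1] y), x 0 ∈ O := by
    have h2 : IsOpen ((fun x : ℕ → E => x 0) ⁻¹' O) := hO.preimage (continuous_apply 0)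
    obtain ⟨x, hx, hx'⟩ := mem_closure_iff.mp hyZ _ h2 (by
      change y 0 ∈ O
      rw [hya]
      exact haO)
    exact ⟨x, hx', hx⟩
  obtain ⟨x, ⟨k, rfl⟩, hx⟩ := h1
  have hret : y (k + 1) = a := by
    have h2 : (T^[k + 1] y) 0 = y (k + 1) := by rw [hTi, Nat.zero_add]
    have h3 : (T^[k + 1] y) ∈ Y := hZY (subset_closure ⟨k, rfl⟩)
    have h4 : (T^[k + 1] y) 0 ∈ O ∩ P := ⟨hx, _, h3, rfl⟩
    have h5 := hOP h4
    rw [h2] at h5
    exact h5
  have hyW : ∀ i, (y i, y (i + 1)) ∈ R := hYW hy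
  refine ⟨k + 1, fun i => y (i % (k + 1)), Nat.succ_pos k, fun i => ?_, fun i => ?_⟩
  · change y ((i + (k + 1)) % (k + 1)) = _
    rw [Nat.add_mod_right]
  · change (y (i % (k + 1)), y ((i + 1) % (k + 1))) ∈ R
    have hlt := Nat.mod_lt i (Nat.succ_pos k)
    rcases Nat.lt_or_ge (i % (k + 1) + 1) (k + 1) with h2 | h2
    · have h3 : (i + 1) % (k + 1) = i % (k + 1) + 1 := by
        rw [Nat.add_mod]
        rcases Nat.eq_zero_or_pos k with h4 | h4
        · omega
        · rw [Nat.mod_eq_of_lt (show 1 < k + 1 by omega), Nat.mod_eq_of_lt h2]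
      rw [h3]
      exact hyW _
    · have h3 : i % (k + 1) = k := by
        have : i % (k + 1) < k + 1 := hlt
        omega
      have h4 : (i + 1) % (k + 1) = 0 := by
        rw [Nat.add_mod, h3]
        rcases Nat.eq_zero_or_pos k with h5 | h5
        · subst h5
          simp [Nat.mod_one]
        · rw [Nat.mod_eq_of_lt (show 1 < k + 1 by omega), Nat.mod_self]
      rw [h3, h4, hya, ← hret]
      exact hyW k

end Pool.Agent.H8C2
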