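import Pool.Agent.H8C2.StmB
import Pool.Agent.Hp8VC.Sat

/-!
# Piece SATU of project H8C2: saturated extensions
-/

set_option autoImplicit false

namespace Pool.Agent.H8C2

open FirstOrder FirstOrder.Language Set MeasureTheory
open Pool.Agent.H565R2.FO2 (pick Interp Code toI ofI toI_ofI Iso)
open Pool.Agent.Hp8VC (Satd satd_ult sameT_diag)
open H968 (Ult cls)

namespace SATUx

variable {L : FirstOrder.Language.{0, 0}}

/-- The structure of an interpretation. -/
@[reducible] def str [L.IsRelational] {M : Type} (I : Interp L M) : L.Structure M where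
  funMap := fun f => isEmptyElim f
  RelMap := fun {n} R v => I n R v

theorem comp_pick {α M : Type} (v : α → M) (i j : α) : v ∘ pick i j = pick (v i) (v j) := by
  funext b
  cases b <;> rfl

theorem csat_of_satd (h : S_SYN5) (U : Type) [L.Structure U] (hU : Satd L U) :
    CSat (fun n (R : L.Relations n) (v : Fin n → U) => Structure.RelMap R v) := by
  intro ι κ _ _ a C hC
  choose tr htr using fun φ : C2F L => h L φ
  let F : C2F L × (ι ⊕ κ) × (ι ⊕ κ) → L.Formula (ι ⊕ κ) :=
    fun z => (tr z.1).relabel (pick z.2.1 z.2.2)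
  have hF : ∀ (z : C2F L × (ι ⊕ κ) × (ι ⊕ κ)) (v : ι ⊕ κ → U), (F z).Realize v ↔
      Sat (fun n (R : L.Relations n) (v : Fin n → U) => Structure.RelMap R v) z.1
        (v z.2.1) (v z.2.2) := by
    intro z v
    rw [← htr z.1 U, Formula.realize_relabel, comp_pick]
  obtain ⟨b, hb⟩ := hU ι κ a (F '' C) (by
    intro s hs hfin
    choose g hg using fun ψ : s => hs ψ.2
    have hfin' : Finite s := hfin
    obtain ⟨b, hb⟩ := hC (Set.range g) (by
      rintro _ ⟨ψ, rfl⟩
      exact (hg ψ).1) (Set.finite_range g)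
    refine ⟨b, fun ψ hψ => ?_⟩
    have h1 := hb (g ⟨ψ, hψ⟩) ⟨_, rfl⟩
    have h2 := (hF (g ⟨ψ, hψ⟩) (Sum.elim a b)).2 h1
    rw [(hg ⟨ψ, hψ⟩).2] at h2
    exact h2)
  exact ⟨b, fun z hz => (hF z (Sum.elim a b)).1 (hb _ ⟨z, hz, rfl⟩)⟩

end SATUx

open SATUx

theorem t_SATU (h : S_SYN5) : S_SATU := by
  intro L _ _ I
  letI : L.Structure ℕ := str I
  refine ⟨Ult ℕ, fun n R v => Structure.RelMap R v, fun x => cls fun _ => x,
    csat_of_satd h (Ult ℕ) (satd_ult ℕ), fun φ x y => ?_⟩
  obtain ⟨ψ, hψ⟩ := h L φ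
  have h1 := hψ ℕ x y
  have h2 := hψ (Ult ℕ) (cls fun _ => x) (cls fun _ => y)
  have h3 := sameT_diag (L := L) ℕ (pick x y) ψ
  have e : (fun i => (cls fun _ => pick x y i : Ult ℕ)) =
      pick (cls fun _ => x) (cls fun _ => y) := by
    funext b
    cases b <;> rfl
  rw [e] at h3
  exact h1.symm.trans (h3.trans h2)

end Pool.Agent.H8C2
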