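import Pool.Agent.H8C2.StmB

/-!
# Project H8C2 (helper8): piece SYN (helper24)
-/

set_option autoImplicit false

namespace Pool.Agent.H8C2

open FirstOrder Set MeasureTheory
open Pool.Agent.H565R2.FO2 (pick Interp Code toI ofI toI_ofI Iso meas_toI)
open Pool.Agent.H565R2.LO2 (PerfK)

variable {L : FirstOrder.Language.{0, 0}}

/-- the depth of a formula -/
private def synDep : C2F L → ℕ
  | .eq _ _ => 0
  | .rel _ _ => 0
  | .neg φ => synDep φ + 1
  | .and φ ψ => max (synDep φ) (synDep ψ) + 1
  | .ex _ _ φ => synDep φ + 1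

private theorem synDep_countable [∀ n, Countable (L.Relations n)] (n : ℕ) :
    {φ : C2F L | synDep φ ≤ n}.Countable := by
  have hat : ({φ : C2F L | (∃ i j, φ = .eq i j) ∨
      ∃ p : Σ n, L.Relations n × (Fin n → Bool), φ = .rel p.2.1 p.2.2}).Countable := by
    have h1 : {φ : C2F L | (∃ i j, φ = .eq i j) ∨
      ∃ p : Σ n, L.Relations n × (Fin n → Bool), φ = .rel p.2.1 p.2.2} ⊆
        range (fun p : Bool × Bool => (C2F.eq p.1 p.2 : C2F L)) ∪
        range (fun p : Σ n, L.Relations n × (Fin n → Bool) => (C2F.rel p.2.1 p.2.2 : C2F L)) := by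
      rintro φ (⟨i, j, rfl⟩ | ⟨p, rfl⟩)
      · exact Or.inl ⟨(i, j), rfl⟩
      · exact Or.inr ⟨p, rfl⟩
    exact ((countable_range _).union (countable_range _)).mono h1
  induction n with
  | zero =>
    refine hat.mono ?_
    intro φ hφ
    cases φ with
    | eq i j => exact Or.inl ⟨i, j, rfl⟩
    | @rel m R v => exact Or.inr ⟨⟨m, R, v⟩, rfl⟩
    | neg φ => simp [synDep] at hφ
    | and φ ψ => simp [synDep] at hφ
    | ex b n φ => simp [synDep] at hφ
  | succ n ih =>
    have h1 : {φ : C2F L | synDep φ ≤ n + 1} ⊆
        {φ : C2F L | (∃ i j, φ = .eq i j) ∨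
          ∃ p : Σ n, L.Relations n × (Fin n → Bool), φ = .rel p.2.1 p.2.2} ∪
        (C2F.neg '' {φ : C2F L | synDep φ ≤ n}) ∪
        ((fun p : C2F L × C2F L => C2F.and p.1 p.2) ''
          ({φ : C2F L | synDep φ ≤ n} ×ˢ {φ : C2F L | synDep φ ≤ n})) ∪
        ⋃ p : Bool × ℕ, (C2F.ex p.1 p.2 '' {φ : C2F L | synDep φ ≤ n}) := by
      intro φ hφ
      cases φ with
      | eq i j => exact Or.inl (Or.inl (Or.inl (Or.inl ⟨i, j, rfl⟩)))
      | @rel m R v => exact Or.inl (Or.inl (Or.inl (Or.inr ⟨⟨m, R, v⟩, rfl⟩)))
      | neg φ =>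
        refine Or.inl (Or.inl (Or.inr ⟨φ, ?_, rfl⟩))
        simpa [synDep] using hφ
      | and φ ψ =>
        refine Or.inl (Or.inr ⟨(φ, ψ), ?_, rfl⟩)
        have h2 : synDep φ ≤ n ∧ synDep ψ ≤ n := by simpa [synDep] using hφ
        exact ⟨h2.1, h2.2⟩
      | ex b k φ =>
        refine Or.inr (mem_iUnion.2 ⟨(b, k), φ, ?_, rfl⟩)
        simpa [synDep] using hφ
    refine Set.Countable.mono h1 ?_
    exact ((hat.union (ih.image _)).union ((ih.prod ih).image _)).union
      (countable_iUnion fun p => ih.image _)

theorem t_SYN1 : S_SYN1 := by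
  intro L hL
  have h1 : (univ : Set (C2F L)) = ⋃ n : ℕ, {φ : C2F L | synDep φ ≤ n} := by
    ext φ
    simp only [mem_univ, mem_iUnion, true_iff]
    exact ⟨synDep φ, le_refl (synDep φ)⟩
  rw [← countable_univ_iff, h1]
  exact countable_iUnion fun n => synDep_countable n

theorem t_SYN2 : S_SYN2 := by
  intro L M N I J e h φ
  induction φ with
  | eq i j =>
    intro x y
    simp only [Sat]
    cases i <;> cases j <;> simp [pick]
  | rel R v =>
    intro x y
    simp only [Sat]
    rw [h]
    have : (fun k => e (pick x y (v k))) = fun k => pick (e x) (e y) (v k) := by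
      funext k; cases v k <;> rfl
    rw [this]
  | neg φ ih => intro x y; simp only [Sat]; rw [ih]
  | and φ ψ ih ih' => intro x y; simp only [Sat]; rw [ih, ih']
  | ex b n φ ih =>
    intro x y
    cases b
    · simp only [Sat]
      have : {z | Sat J φ z (e y)} = e '' {z | Sat I φ z y} := by
        ext z
        obtain ⟨z, rfl⟩ := e.surjective z
        rw [e.injective.mem_set_image]
        exact (ih z y).symm
      rw [this, e.injective.encard_image]
    · simp only [Sat]
      have : {z | Sat J φ (e x) z} = e '' {z | Sat I φ x z} := by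
        ext z
        obtain ⟨z, rfl⟩ := e.surjective z
        rw [e.injective.mem_set_image]
        exact (ih x z).symm
      rw [this, e.injective.encard_image]

/-- at least `n` elements -/
theorem syn_le_encard_fin {M : Type} (A : Set M) (n : ℕ) :
    (n : ℕ∞) ≤ A.encard ↔ ∃ f : Fin n → M, Function.Injective f ∧ ∀ i, f i ∈ A := by
  constructor
  · intro h
    obtain ⟨t, ht, hc⟩ := Set.exists_subset_encard_eq h
    have hf : t.Finite := Set.finite_of_encard_eq_coe hc
    have hcard : hf.toFinset.card = n := by
      rw [hf.encard_eq_coe_toFinset_card] at hc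
      exact_mod_cast hc
    refine ⟨fun i => (hf.toFinset.equivFinOfCardEq hcard).symm i, ?_, ?_⟩
    · intro i j hij
      exact (hf.toFinset.equivFinOfCardEq hcard).symm.injective (Subtype.ext hij)
    · intro i
      exact ht (hf.mem_toFinset.1 ((hf.toFinset.equivFinOfCardEq hcard).symm i).2)
  · rintro ⟨f, hf, h⟩
    have h1 : (Set.range f).encard = n := by
      rw [← Set.image_univ, hf.encard_image]
      simp
    rw [← h1]
    exact Set.encard_le_encard (by rintro _ ⟨i, rfl⟩; exact h i)

theorem t_SYN3 : S_SYN3 := by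
  intro L φ
  induction φ with
  | eq i j => intro x y; exact measurable_const
  | rel R v => intro x y; exact meas_toI R _
  | neg φ ih => intro x y; exact (ih x y).not
  | and φ ψ ih ih' => intro x y; exact (ih x y).and (ih' x y)
  | ex b n φ ih =>
    intro x y
    cases b
    · simp only [Sat, syn_le_encard_fin]
      exact Measurable.exists fun s => measurable_const.and (Measurable.forall fun i => ih _ y)
    · simp only [Sat, syn_le_encard_fin]
      exact Measurable.exists fun s => measurable_const.and (Measurable.forall fun i => ih x _)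

theorem t_SYN4 : S_SYN4 := by
  intro L M I I' h φ
  induction φ with
  | eq i j => intro x y; exact Iff.rfl
  | rel R v => intro x y; exact h _ R v x y
  | neg φ ih => intro x y; simp only [Sat]; rw [ih]
  | and φ ψ ih ih' => intro x y; simp only [Sat]; rw [ih, ih']
  | ex b n φ ih =>
    intro x y
    cases b
    · simp only [Sat, ih]
    · simp only [Sat, ih]

theorem t_SYN5 : S_SYN5 := by
  intro L φ
  induction φ with
  | eq i j =>
    refine ⟨(FirstOrder.Language.Term.var i).equal (FirstOrder.Language.Term.var j),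
      fun M _ x y => ?_⟩
    rw [FirstOrder.Language.Formula.realize_equal]
    exact Iff.rfl
  | rel R v =>
    refine ⟨R.formula fun k => FirstOrder.Language.Term.var (v k), fun M _ x y => ?_⟩
    rw [FirstOrder.Language.Formula.realize_rel]
    exact Iff.rfl
  | neg φ ih =>
    obtain ⟨ψ, hψ⟩ := ih
    refine ⟨ψ.not, fun M _ x y => ?_⟩
    rw [FirstOrder.Language.Formula.realize_not, hψ]
    exact Iff.rfl
  | and φ φ' ih ih' =>
    obtain ⟨ψ, hψ⟩ := ih
    obtain ⟨ψ', hψ'⟩ := ih'
    refine ⟨ψ ⊓ ψ', fun M _ x y => ?_⟩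
    rw [FirstOrder.Language.Formula.realize_inf, hψ, hψ']
    exact Iff.rfl
  | ex b n φ ih =>
    obtain ⟨ψ, hψ⟩ := ih
    have key : ∀ (M : Type) [L.Structure M] (x y z : M) (f : Fin n → M) (i : Fin n),
        (ψ.relabel (fun c : Bool => if c = b then Sum.inr i else Sum.inl c :
          Bool → Bool ⊕ Fin n)).Realize (Sum.elim (pick x y) f) ↔
        ψ.Realize (fun c => if c = b then f i else pick x y c) := by
      intro M _ x y z f i
      rw [FirstOrder.Language.Formula.realize_relabel]
      apply iff_of_eq
      congr 1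
      funext c
      simp only [Function.comp_apply]
      split_ifs <;> rfl
    refine ⟨((FirstOrder.Language.Formula.iInf (fun p : {p : Fin n × Fin n // p.1 ≠ p.2} =>
      (((FirstOrder.Language.Term.var (Sum.inr p.1.1) : L.Term (Bool ⊕ Fin n)).equal
        (FirstOrder.Language.Term.var (Sum.inr p.1.2))).not : L.Formula (Bool ⊕ Fin n)))) ⊓
      (FirstOrder.Language.Formula.iInf (fun i : Fin n =>
        (ψ.relabel (fun c : Bool => if c = b then Sum.inr i else Sum.inl c :
          Bool → Bool ⊕ Fin n) : L.Formula (Bool ⊕ Fin n)))) :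
        L.Formula (Bool ⊕ Fin n)).iExs (Fin n), fun M _ x y => ?_⟩
    rw [FirstOrder.Language.Formula.realize_iExs]
    have h2 : ∀ f : Fin n → M,
        (((FirstOrder.Language.Formula.iInf (fun p : {p : Fin n × Fin n // p.1 ≠ p.2} =>
      (((FirstOrder.Language.Term.var (Sum.inr p.1.1) : L.Term (Bool ⊕ Fin n)).equal
        (FirstOrder.Language.Term.var (Sum.inr p.1.2))).not : L.Formula (Bool ⊕ Fin n)))) ⊓
      (FirstOrder.Language.Formula.iInf (fun i : Fin n =>
        (ψ.relabel (fun c : Bool => if c = b then Sum.inr i else Sum.inl c :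
          Bool → Bool ⊕ Fin n) : L.Formula (Bool ⊕ Fin n)))) :
        L.Formula (Bool ⊕ Fin n))).Realize (Sum.elim (pick x y) f) ↔
        Function.Injective f ∧ ∀ i, ψ.Realize (fun c => if c = b then f i else pick x y c) := by
      intro f
      rw [FirstOrder.Language.Formula.realize_inf]
      refine and_congr ?_ ?_
      · rw [FirstOrder.Language.Formula.realize_iInf]
        simp only [FirstOrder.Language.Formula.realize_not,
          FirstOrder.Language.Formula.realize_equal, FirstOrder.Language.Term.realize_var,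
          Sum.elim_inr]
        constructor
        · intro h i j hij
          by_contra hne
          exact h ⟨(i, j), hne⟩ hij
        · rintro h ⟨⟨i, j⟩, hne⟩ hij
          exact hne (h hij)
      · rw [FirstOrder.Language.Formula.realize_iInf]
        exact forall_congr' fun i => key M x y x f i
    rw [exists_congr h2]
    cases b
    · simp only [Sat]
      rw [syn_le_encard_fin]
      refine exists_congr fun f => and_congr Iff.rfl (forall_congr' fun i => ?_)
      rw [mem_ofPred_eq, ← hψ]
      apply iff_of_eq
      congr 1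
      funext c
      cases c <;> rfl
    · simp only [Sat]
      rw [syn_le_encard_fin]
      refine exists_congr fun f => and_congr Iff.rfl (forall_congr' fun i => ?_)
      rw [mem_ofPred_eq, ← hψ]
      apply iff_of_eq
      congr 1
      funext c
      cases c <;> rfl

end Pool.Agent.H8C2
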