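import Pool.Agent.H8C2.StmB

/-!
# Project H8C2, piece TC: the type-count lemma
-/

set_option autoImplicit false

namespace Pool.Agent.H8C2

open FirstOrder Set MeasureTheory
open Pool.Agent.H565R2.FO2 (pick Interp Code toI ofI toI_ofI Iso)

namespace TCP

/-- Maps with fibres of the same size: one direction. -/
theorem fib_le {A B ι : Type} (f : A → ι) (f' : B → ι)
    (h : ∀ i, {a | f a = i}.encard ≤ {b | f' b = i}.encard) (PA : A → Prop) (PB : B → Prop)
    (hP : ∀ a b, f a = f' b → PA a → PB b) (n : ℕ) (hn : (n : ℕ∞) ≤ {a | PA a}.encard) :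
    (n : ℕ∞) ≤ {b | PB b}.encard := by
  obtain ⟨s, hs, hsn⟩ := Set.exists_subset_encard_eq hn
  have hfin : s.Finite := Set.finite_of_encard_eq_coe hsn
  rcases s.eq_empty_or_nonempty with rfl | ⟨a₀, ha₀⟩
  · rw [Set.encard_empty] at hsn
    rw [← hsn]
    exact bot_le
  have hB : Nonempty B := by
    have h1 : 1 ≤ {a | f a = f a₀}.encard := by
      rw [Set.one_le_encard_iff_nonempty]
      exact ⟨a₀, rfl⟩
    have h2 := h1.trans (h (f a₀))
    rw [Set.one_le_encard_iff_nonempty] at h2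
    exact ⟨h2.some⟩
  have hg : ∀ i : ι, ∃ g : A → B, (s ∩ {a | f a = i}) ⊆ g ⁻¹' {b | f' b = i} ∧
      Set.InjOn g (s ∩ {a | f a = i}) := fun i =>
    Set.Finite.exists_injOn_of_encard_le (hfin.subset Set.inter_subset_left)
      ((Set.encard_le_encard Set.inter_subset_right).trans (h i))
  choose g hg1 hg2 using hg
  have hgf : ∀ a ∈ s, f' (g (f a) a) = f a := fun a ha => hg1 (f a) ⟨ha, rfl⟩
  have hinj : Set.InjOn (fun a => g (f a) a) s := by
    intro a ha a' ha' haa
    have haa' : g (f a) a = g (f a') a' := haa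
    have h1 : f a = f a' := by rw [← hgf a ha, ← hgf a' ha', haa']
    rw [h1] at haa'
    exact hg2 (f a') ⟨ha, h1⟩ ⟨ha', rfl⟩ haa'
  rw [← hsn, ← hinj.encard_image]
  refine Set.encard_le_encard ?_
  rintro _ ⟨a, ha, rfl⟩
  exact hP a _ (hgf a ha).symm (hs ha)

theorem fib_iff {A B ι : Type} (f : A → ι) (f' : B → ι)
    (h : ∀ i, {a | f a = i}.encard = {b | f' b = i}.encard) (PA : A → Prop) (PB : B → Prop)
    (hP : ∀ a b, f a = f' b → (PA a ↔ PB b)) (n : ℕ) :
    (n : ℕ∞) ≤ {a | PA a}.encard ↔ (n : ℕ∞) ≤ {b | PB b}.encard :=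
  ⟨fib_le f f' (fun i => (h i).le) PA PB (fun a b e => (hP a b e).1) n,
    fib_le f' f (fun i => (h i).ge) PB PA (fun b a e => (hP a b e.symm).2) n⟩

variable {L : FirstOrder.Language.{0, 0}} {U Y : Type}

open Classical in
/-- the interpretation given by the labels -/
noncomputable def KI (y₀ : Y) (t' : Y → Ty L) (g' : Y → Y → T2 L) : Interp L Y
  | 0, R, _ => t' y₀ (C2F.rel R fun _ => false)
  | 1, R, v => t' (v 0) (C2F.rel R fun _ => false)
  | 2, R, v => if v 0 = v 1 then t' (v 0) (C2F.rel R fun _ => false) else (g' (v 0) (v 1) R).1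
  | _ + 3, _, _ => False

/-- the kinds of the points with respect to a given one -/
noncomputable def kd {X Q Θ : Type} (t : X → Q) (g : X → X → Θ) (y z : X) : Option (Q × Θ) :=
  open Classical in if z = y then none else some (t z, g y z)

theorem kd_none {X Q Θ : Type} (t : X → Q) (g : X → X → Θ) (y : X) :
    {z | kd t g y z = none}.encard = 1 := by
  have : {z | kd t g y z = none} = {y} := by
    ext z
    simp [kd]
  rw [this, Set.encard_singleton]

theorem kd_some {X Q Θ : Type} (t : X → Q) (g : X → X → Θ) (y : X) (q : Q) (θ : Θ) :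
    {z | kd t g y z = some (q, θ)} = {z | z ≠ y ∧ t z = q ∧ g y z = θ} := by
  ext z
  by_cases h : z = y <;> simp [kd, h]

/-- related pairs -/
def Rl (J : Interp L U) (t' : Y → Ty L) (g' : Y → Y → T2 L) (y z : Y) (u v : U) : Prop :=
  t' y = tp J u ∧ t' z = tp J v ∧ ((y = z ∧ u = v) ∨ (y ≠ z ∧ u ≠ v ∧ g' y z = th J u v))

variable {J : Interp L U} {t' : Y → Ty L} {g' : Y → Y → T2 L}

theorem Rl.symm (hF : Fits (dat J) t' g') {y z : Y} {u v : U} (h : Rl J t' g' y z u v) :
    Rl J t' g' z y v u := by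
  refine ⟨h.2.1, h.1, ?_⟩
  rcases h.2.2 with ⟨h1, h2⟩ | ⟨h1, h2, h3⟩
  · exact Or.inl ⟨h1.symm, h2.symm⟩
  · refine Or.inr ⟨h1.symm, h2.symm, ?_⟩
    rw [hF.symm y z h1, h3]
    rfl

theorem kinds (hJ : Fits (dat J) (tp J) (th J)) (hF : Fits (dat J) t' g') {y : Y} {u : U}
    (h : t' y = tp J u) (i : Option (Ty L × T2 L)) :
    {z | kd t' g' y z = i}.encard = {v | kd (tp J) (th J) u v = i}.encard := by
  rcases i with _ | ⟨q, θ⟩
  · rw [kd_none, kd_none]
  · rw [kd_some, kd_some, hF.deg, hJ.deg, h]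

theorem rl_of_kd {y z : Y} {u v : U} (h : t' y = tp J u)
    (hk : kd t' g' y z = kd (tp J) (th J) u v) : Rl J t' g' y z u v := by
  by_cases h1 : z = y
  · by_cases h2 : v = u
    · subst h1 h2
      exact ⟨h, h, Or.inl ⟨rfl, rfl⟩⟩
    · simp [kd, h1, h2] at hk
  · by_cases h2 : v = u
    · simp [kd, h1, h2] at hk
    · simp only [kd, h1, h2, if_false, Option.some.injEq, Prod.mk.injEq] at hk
      exact ⟨h, hk.1, Or.inr ⟨fun e => h1 e.symm, fun e => h2 e.symm, hk.2⟩⟩

theorem exists_u (hJ : Fits (dat J) (tp J) (th J)) (hF : Fits (dat J) t' g') (y : Y) :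
    ∃ u, t' y = tp J u := by
  have h1 : 1 ≤ {z | t' z = t' y}.encard := by
    rw [Set.one_le_encard_iff_nonempty]
    exact ⟨y, rfl⟩
  rw [hF.card, ← hJ.card, Set.one_le_encard_iff_nonempty] at h1
  obtain ⟨u, hu⟩ := h1
  exact ⟨u, hu.symm⟩

theorem exists_rl (hJ : Fits (dat J) (tp J) (th J)) (hF : Fits (dat J) t' g') (y z : Y) :
    ∃ u v, Rl J t' g' y z u v := by
  obtain ⟨u, hu⟩ := exists_u hJ hF y
  have h1 : 1 ≤ {z' | kd t' g' y z' = kd t' g' y z}.encard := by
    rw [Set.one_le_encard_iff_nonempty]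
    exact ⟨z, rfl⟩
  rw [kinds hJ hF hu, Set.one_le_encard_iff_nonempty] at h1
  obtain ⟨v, hv⟩ := h1
  exact ⟨u, v, rl_of_kd hu hv.symm⟩

open Classical in
/-- atomic formulas -/
theorem atom (h3 : ∀ n, 2 < n → IsEmpty (L.Relations n)) (hJ : Fits (dat J) (tp J) (th J))
    (hF : Fits (dat J) t' g') (y₀ : Y) {n : ℕ} (R : L.Relations n) (w : Fin n → Bool) {y z : Y}
    {u v : U} (h : Rl J t' g' y z u v) :
    KI y₀ t' g' n R (fun k => pick y z (w k)) ↔ J n R (fun k => pick u v (w k)) := by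
  have hd : ∀ {n : ℕ} (R : L.Relations n) (y : Y) (u : U), t' y = tp J u →
      (t' y (C2F.rel R fun _ => false) ↔ J n R fun _ => u) := by
    intro n R y u hyu
    rw [hyu]
    exact Iff.rfl
  match n, R, w with
  | 0, R, w =>
    obtain ⟨u₀, hu₀⟩ := exists_u hJ hF y₀
    show t' y₀ (C2F.rel R fun _ => false) ↔ _
    rw [hd R y₀ u₀ hu₀]
    have : (fun k : Fin 0 => pick u v (w k)) = fun _ => u₀ := funext fun k => k.elim0
    rw [this]
  | 1, R, w =>
    show t' (pick y z (w 0)) (C2F.rel R fun _ => false) ↔ _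
    have hw : ∀ k : Fin 1, w k = w 0 := fun k => by rw [Subsingleton.elim k 0]
    have : (fun k : Fin 1 => pick u v (w k)) = fun _ => pick u v (w 0) := funext fun k => by
      rw [hw k]
    rw [this]
    refine hd R _ _ ?_
    cases w 0
    · exact h.1
    · exact h.2.1
  | 2, R, w =>
    show (if pick y z (w 0) = pick y z (w 1) then t' (pick y z (w 0)) (C2F.rel R fun _ => false)
      else (g' (pick y z (w 0)) (pick y z (w 1)) R).1) ↔ _
    have hf : ∀ (a b : U) (p q : Bool), w 0 = p → w 1 = q → pick u v p = a → pick u v q = b →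
        (fun k : Fin 2 => pick u v (w k)) = ![a, b] := by
      intro a b p q h1 h2 h3 h4
      funext k
      fin_cases k
      · show pick u v (w 0) = a
        rw [h1, h3]
      · show pick u v (w 1) = b
        rw [h2, h4]
    have hc : ∀ a : U, (![a, a] : Fin 2 → U) = fun _ => a := by
      intro a
      funext k
      fin_cases k <;> rfl
    have hs := h.symm hF
    rcases hw0 : w 0 with _ | _ <;> rcases hw1 : w 1 with _ | _
    · rw [if_pos rfl, hf u u _ _ hw0 hw1 rfl rfl, hc]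
      exact hd R _ _ h.1
    · rw [hf u v _ _ hw0 hw1 rfl rfl]
      show (if y = z then t' y (C2F.rel R fun _ => false) else (g' y z R).1) ↔ _
      rcases h.2.2 with ⟨e1, e2⟩ | ⟨e1, e2, e3⟩
      · rw [if_pos e1, ← e2, hc]
        exact hd R _ _ h.1
      · rw [if_neg e1, e3]
        exact Iff.rfl
    · rw [hf v u _ _ hw0 hw1 rfl rfl]
      show (if z = y then t' z (C2F.rel R fun _ => false) else (g' z y R).1) ↔ _
      rcases hs.2.2 with ⟨e1, e2⟩ | ⟨e1, e2, e3⟩
      · rw [if_pos e1, ← e2, hc]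
        exact hd R _ _ hs.1
      · rw [if_neg e1, e3]
        exact Iff.rfl
    · rw [if_pos rfl, hf v v _ _ hw0 hw1 rfl rfl, hc]
      exact hd R _ _ h.2.1
  | n + 3, R, w => exact ((h3 (n + 3) (by omega)).false R).elim

/-- **The claim.** -/
theorem claim (h3 : ∀ n, 2 < n → IsEmpty (L.Relations n)) (hJ : Fits (dat J) (tp J) (th J))
    (hF : Fits (dat J) t' g') (y₀ : Y) : ∀ (φ : C2F L) (y z : Y) (u v : U),
      Rl J t' g' y z u v → (Sat (KI y₀ t' g') φ y z ↔ Sat J φ u v)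
  | .eq i j, y, z, u, v, h => by
    have h1 : y = z ↔ u = v := by
      rcases h.2.2 with ⟨e1, e2⟩ | ⟨e1, e2, -⟩
      · exact ⟨fun _ => e2, fun _ => e1⟩
      · exact ⟨fun e => absurd e e1, fun e => absurd e e2⟩
    show pick y z i = pick y z j ↔ pick u v i = pick u v j
    cases i <;> cases j
    · exact ⟨fun _ => rfl, fun _ => rfl⟩
    · exact h1
    · exact ⟨fun e => (h1.1 e.symm).symm, fun e => (h1.2 e.symm).symm⟩
    · exact ⟨fun _ => rfl, fun _ => rfl⟩
  | .rel R w, y, z, u, v, h => atom h3 hJ hF y₀ R w h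
  | .neg φ, y, z, u, v, h => not_congr (claim h3 hJ hF y₀ φ y z u v h)
  | .and φ ψ, y, z, u, v, h =>
    and_congr (claim h3 hJ hF y₀ φ y z u v h) (claim h3 hJ hF y₀ ψ y z u v h)
  | .ex false n φ, y, z, u, v, h => by
    show (n : ℕ∞) ≤ Set.encard {y' | Sat (KI y₀ t' g') φ y' z} ↔
      (n : ℕ∞) ≤ Set.encard {u' | Sat J φ u' v}
    exact fib_iff (kd t' g' z) (kd (tp J) (th J) v) (kinds hJ hF h.2.1) _ _
      (fun a b e => claim h3 hJ hF y₀ φ a z b v ((rl_of_kd h.2.1 e).symm hF)) n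
  | .ex true n φ, y, z, u, v, h => by
    show (n : ℕ∞) ≤ Set.encard {z' | Sat (KI y₀ t' g') φ y z'} ↔
      (n : ℕ∞) ≤ Set.encard {v' | Sat J φ u v'}
    exact fib_iff (kd t' g' y) (kd (tp J) (th J) u) (kinds hJ hF h.1) _ _
      (fun a b e => claim h3 hJ hF y₀ φ y a u b (rl_of_kd h.1 e)) n

end TCP

open TCP Classical in
/-- **Piece TC.** -/
theorem t_TC (hS : S_SYN2) : S_TC := by
  intro L h3 U J hJ Φ hΦ Y _ _ t' g' hF
  obtain ⟨hden⟩ := nonempty_denumerable Y
  set e : Y ≃ ℕ := Denumerable.eqv Y with he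
  set y₀ : Y := e.symm 0 with hy₀
  set K : Interp L Y := KI y₀ t' g' with hK
  set I' : Interp L ℕ := fun n R v => K n R (fun k => e.symm (v k)) with hI'
  have htr : ∀ (φ : C2F L) (y z : Y), Sat K φ y z ↔ Sat (toI (ofI I')) φ (e y) (e z) := by
    intro φ y z
    rw [toI_ofI]
    refine hS L Y ℕ K I' e (fun n R t => ?_) φ y z
    rw [hI']
    simp only [Equiv.symm_apply_apply]
  have hcl := claim h3 hJ hF y₀
  refine ⟨ofI I', ?_, e, ?_, ?_⟩
  · intro φ hφ x y
    obtain ⟨u, v, huv⟩ := exists_rl hJ hF (e.symm x) (e.symm y)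
    have h1 := (htr φ (e.symm x) (e.symm y)).1 ((hcl φ _ _ u v huv).2 (hΦ φ hφ u v))
    rwa [Equiv.apply_symm_apply, Equiv.apply_symm_apply] at h1
  · intro y
    obtain ⟨u, hu⟩ := exists_u hJ hF y
    funext φ
    have h1 : Sat (toI (ofI I')) φ (e y) (e y) ↔ Sat J φ u u := by
      rw [← htr]
      exact hcl φ y y u u ⟨hu, hu, Or.inl ⟨rfl, rfl⟩⟩
    rw [hu]
    exact propext h1
  · intro y z hyz
    have h2 : ∀ (a b : Y) (R : L.Relations 2), a ≠ b →
        (toI (ofI I') 2 R ![e a, e b] ↔ (g' a b R).1) := by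
      intro a b R hab
      rw [toI_ofI]
      show (if e.symm (e a) = e.symm (e b) then _ else (g' (e.symm (e a)) (e.symm (e b)) R).1) ↔ _
      rw [Equiv.symm_apply_apply, Equiv.symm_apply_apply, if_neg hab]
    funext R
    show (toI (ofI I') 2 R ![e y, e z], toI (ofI I') 2 R ![e z, e y]) = _
    refine Prod.ext (propext (h2 y z R hyz)) (propext ?_)
    show toI (ofI I') 2 R ![e z, e y] ↔ (g' y z R).2
    rw [h2 z y R hyz.symm, hF.symm y z hyz]
    exact Iff.rfl

end Pool.Agent.H8C2
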