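import Pool.Agent.H8C2.StmB

/-!
# Piece TERN of project H8C2
-/

set_option autoImplicit false

namespace Pool.Agent.H8C2

open FirstOrder Set
open Pool.Agent.H565R2.FO2 (pick Interp Code toI ofI toI_ofI Iso cx cx_cont In3 In3_iso In3_cx)
open Pool.Agent.H565R2.LO2 (PerfK iso_symm)

theorem t_TERN (h4 : S_SYN4) : S_TERN := by
  classical
  intro L _ Φ n hn R hne
  obtain ⟨c0, hc0⟩ := hne
  refine ⟨cx c0, cx_cont c0, fun x φ hφ a b => ?_, ?_⟩
  · rw [h4 L ℕ (toI (cx c0 x)) (toI c0)]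
    · exact hc0 φ hφ a b
    · intro n R v x' y'
      unfold toI cx
      rw [if_pos ⟨x', y', v, rfl⟩]
  have key : ∀ x x' : ℕ → Bool, Iso (cx c0 x) (cx c0 x') → ∀ u, x u = true → x' u = true := by
    rintro x x' ⟨g, hg⟩ u hu
    have h1 : In3 (cx c0 x) R (2 * u + 2) := by
      rw [In3_cx c0 x hn R]
      exact ⟨u, by rw [hu]; rfl⟩
    have h2 := In3_iso g hg R _ h1
    rw [In3_cx c0 x' hn R] at h2
    obtain ⟨u', hu'⟩ := h2
    cases hx : x' u'
    · rw [hx] at hu'
      simp only [Bool.toNat_false] at hu'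
      omega
    · rw [hx] at hu'
      simp only [Bool.toNat_true] at hu'
      have : u = u' := by omega
      rw [this]; exact hx
  intro x x' h
  funext u
  rw [Bool.eq_iff_iff]
  exact ⟨key x x' h u, key x' x (iso_symm h) u⟩

end Pool.Agent.H8C2

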