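import Pool.Agent.H8C2.StmB

/-!
# Project H8C2, piece UT (helper55): uncountably many types give perfectly many models
-/

set_option autoImplicit false

namespace Pool.Agent.H8C2

open FirstOrder Set MeasureTheory
open Pool.Agent.H565R2.FO2 (pick Interp Code toI ofI toI_ofI Iso)
open Pool.Agent.H565R2.LO2 (PerfK perfK_of_inv)

namespace UTP

variable {L : FirstOrder.Language.{0, 0}}

open Classical in
/-- types as points of the Cantor space -/
noncomputable def bt (p : Ty L) : C2F L → Bool := fun φ => decide (p φ)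

theorem bt_inj {p q : Ty L} (h : bt p = bt q) : p = q := by
  funext φ
  have := congrFun h φ
  simp only [bt, decide_eq_decide] at this
  exact propext this

end UTP

open UTP in
theorem t_UT (h1 : S_SYN1) (h2 : S_SYN2) (h3 : S_SYN3) (h4 : S_LS) : S_UT := by
  classical
  intro L hL Φ hP U _ J hJ
  have : Countable (C2F L) := h1 L hL
  have hmeas : MeasurableSet (Mod Φ) := by
    have e : Mod Φ = ⋂ φ ∈ Φ, ⋂ x : ℕ, ⋂ y : ℕ, {c : Code L | Sat (toI c) φ x y} := by
      ext c
      simp only [Mod, mem_ofPred_eq, mem_iInter]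
    rw [e]
    refine MeasurableSet.biInter (to_countable _) fun φ _ => ?_
    refine MeasurableSet.iInter fun x => MeasurableSet.iInter fun y => ?_
    exact measurableSet_setOfPred.2 (h3 L φ x y)
  have hsb := hmeas.standardBorel
  have hA : (⋃ i : ℕ, range fun c : ↥(Mod Φ) => bt (tp (toI c.1) i)).Countable := by
    by_contra hc
    apply hP
    refine perfK_of_inv (K := Mod Φ) (Y := ↥(Mod Φ)) (Z := C2F L → Bool) (ι := ℕ)
      (fun y => y.1) measurable_subtype_coe (fun y => y.2)
      (fun i y => bt (tp (toI y.1) i)) ?_ ?_ hc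
    · intro i
      rw [measurable_pi_iff]
      intro φ
      apply measurable_to_bool
      have e : (fun c : ↥(Mod Φ) => bt (tp (toI c.1) i) φ) ⁻¹' {true} =
          (fun c : ↥(Mod Φ) => c.1) ⁻¹' {c : Code L | Sat (toI c) φ i i} := by
        ext c
        change decide (Sat (toI c.1) φ i i) = true ↔ Sat (toI c.1) φ i i
        exact decide_eq_true_iff
      rw [e]
      exact measurable_subtype_coe (measurableSet_setOfPred.2 (h3 L φ i i))
    · rintro y y' ⟨g, hg⟩ i
      refine ⟨g i, ?_⟩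
      congr 1
      funext φ
      exact propext (h2 L ℕ ℕ (toI y.1) (toI y'.1) g
        (fun n R t => by
          change y.1 ⟨n, R, t⟩ = true ↔ y'.1 ⟨n, R, fun k => g (t k)⟩ = true
          rw [hg]) φ i i)
  refine MapsTo.countable_of_injOn (f := bt) ?_ (fun p _ q _ h => bt_inj h) hA
  rintro p ⟨u, rfl⟩
  obtain ⟨N, hSN, hNc, hNi, hN⟩ := h4 L U J {u} (countable_singleton u)
  have : Infinite N := hNi.to_subtype
  have : Countable N := hNc.to_subtype
  obtain ⟨hden⟩ := nonempty_denumerable N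
  obtain ⟨e⟩ : Nonempty (N ≃ ℕ) := ⟨Denumerable.eqv N⟩
  let I : Interp L ℕ := fun n R v => J n R fun k => ((e.symm (v k) : N) : U)
  have hI : ∀ (φ : C2F L) (x y : N), Sat I φ (e x) (e y) ↔ Sat J φ x y := by
    intro φ x y
    rw [← hN φ x y]
    refine (h2 L N ℕ _ I e (fun n R t => ?_) φ x y).symm
    change J n R (fun k => (t k : U)) ↔ J n R fun k => ((e.symm (e (t k)) : N) : U)
    simp only [Equiv.symm_apply_apply]
  have hmem : ofI I ∈ Mod Φ := by
    intro φ hφ x y
    rw [toI_ofI]
    have := (hI φ (e.symm x) (e.symm y)).2 (hJ φ hφ _ _)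
    simpa using this
  refine mem_iUnion.2 ⟨e ⟨u, hSN rfl⟩, ⟨ofI I, hmem⟩, ?_⟩
  change bt (tp (toI (ofI I)) (e ⟨u, hSN rfl⟩)) = bt (tp J u)
  congr 1
  funext φ
  rw [toI_ofI]
  exact propext (hI φ ⟨u, hSN rfl⟩ ⟨u, hSN rfl⟩)

end Pool.Agent.H8C2
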