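import Pool.Agent.H8C2.StmB

/-!
# Piece WALK of project H8C2: there is no infinite simple path of sparse edges
-/

set_option autoImplicit false
set_option linter.unusedSectionVars false

namespace Pool.Agent.H8C2

open FirstOrder Set Topology
open Pool.Agent.H565R2.FO2 (pick Interp)

namespace WalkP

variable {L : FirstOrder.Language.{0, 0}} {U : Type}

open Classical in
/-- the type of a point, with values in `Bool` -/
noncomputable def bt (J : Interp L U) (u : U) : C2F L → Bool := fun φ => decide (Sat J φ u u)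

theorem bt_true {J : Interp L U} {u : U} {φ : C2F L} : bt J u φ = true ↔ Sat J φ u u := by
  simp [bt]

theorem tp_iff {J : Interp L U} {u v : U} : tp J u = tp J v ↔ bt J u = bt J v := by
  constructor
  · intro h
    funext φ
    rw [Bool.eq_iff_iff, bt_true, bt_true]
    exact iff_of_eq (congrFun h φ)
  · intro h
    funext φ
    apply propext
    show Sat J φ u u ↔ Sat J φ v v
    rw [← bt_true, ← bt_true, h]

/-- the code of a pair -/
noncomputable def ev (J : Interp L U) {N : ℕ} (e : T2 L ≃ Fin N) (w : U × U) :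
    (C2F L → Bool) × Fin N × (C2F L → Bool) :=
  (bt J w.1, e (th J w.1 w.2), bt J w.2)

/-- limits are realised -/
theorem lim [Finite (L.Relations 2)] (f1 : S_FML1) (f2 : S_FML2) (J : Interp L U) (hJ : CSat J)
    {N : ℕ} (e : T2 L ≃ Fin N) (G : Set (U × U)) (z : (C2F L → Bool) × Fin N × (C2F L → Bool))
    (hz : z ∈ closure (ev J e '' G)) :
    ∃ u v, ev J e (u, v) = z ∧ ∀ φ : C2F L, (∀ w ∈ G, Sat J φ w.1 w.2) → Sat J φ u v := by
  let C : Set (C2F L × (Empty ⊕ Fin 2) × (Empty ⊕ Fin 2)) :=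
    {c | c.2 = (Sum.inr 0, Sum.inr 1) ∧ ∃ O ∈ 𝓝 z, ∀ w ∈ G, ev J e w ∈ O → Sat J c.1 w.1 w.2}
  obtain ⟨b, hb⟩ := hJ Empty (Fin 2) Empty.elim C (by
    intro s hs hfin
    have h1 : ∀ c : C2F L × (Empty ⊕ Fin 2) × (Empty ⊕ Fin 2), ∃ O ∈ 𝓝 z,
        c ∈ s → ∀ w ∈ G, ev J e w ∈ O → Sat J c.1 w.1 w.2 := by
      intro c
      by_cases hc : c ∈ s
      · obtain ⟨-, O, hO, h⟩ := hs hc
        exact ⟨O, hO, fun _ => h⟩
      · exact ⟨univ, Filter.univ_mem, fun h => absurd h hc⟩
    choose O hO hOs using h1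
    have h2 : (⋂ c ∈ s, O c) ∈ 𝓝 z := (Filter.biInter_mem hfin).2 fun c _ => hO c
    obtain ⟨_, h3, w, hw, rfl⟩ := mem_closure_iff_nhds.1 hz _ h2
    refine ⟨![w.1, w.2], fun c hc => ?_⟩
    have h4 := hOs c hc w hw (mem_iInter₂.1 h3 c hc)
    rw [(hs hc).1]
    exact h4)
  have key : ∀ φ : C2F L, (∃ O ∈ 𝓝 z, ∀ w ∈ G, ev J e w ∈ O → Sat J φ w.1 w.2) →
      Sat J φ (b 0) (b 1) := fun φ h => hb (φ, Sum.inr 0, Sum.inr 1) ⟨rfl, h⟩
  refine ⟨b 0, b 1, ?_, fun φ h => key φ ⟨univ, Filter.univ_mem, fun w hw _ => h w hw⟩⟩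
  refine Prod.ext ?_ (Prod.ext ?_ ?_)
  · funext φ
    obtain ⟨χ, hχ⟩ := (f1 L φ).1
    show bt J (b 0) φ = z.1 φ
    have hO : {z' : (C2F L → Bool) × Fin N × (C2F L → Bool) | z'.1 φ = z.1 φ} ∈ 𝓝 z := by
      have hc : Continuous fun z' : (C2F L → Bool) × Fin N × (C2F L → Bool) => z'.1 φ :=
        (continuous_apply φ).comp continuous_fst
      exact hc.continuousAt.preimage_mem_nhds (t := {z.1 φ}) (by simp)
    rcases hb' : z.1 φ with _ | _
    · have h1 : Sat J χ.neg (b 0) (b 1) := key _ ⟨_, hO, fun w _ hw => by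
        intro h2
        rw [hχ] at h2
        have h3 : bt J w.1 φ = z.1 φ := hw
        rw [hb', ← Bool.not_eq_true, bt_true] at h3
        exact h3 h2⟩
      rw [← Bool.not_eq_true, bt_true]
      intro h2
      exact h1 ((hχ U J _ _).2 h2)
    · have h1 : Sat J χ (b 0) (b 1) := key _ ⟨_, hO, fun w _ hw => by
        rw [hχ]
        have h3 : bt J w.1 φ = z.1 φ := hw
        rwa [hb', bt_true] at h3⟩
      rw [bt_true]
      exact (hχ U J _ _).1 h1
  · obtain ⟨χ, hχ⟩ := f2 L (e.symm z.2.1)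
    show e (th J (b 0) (b 1)) = z.2.1
    have hO : {z' : (C2F L → Bool) × Fin N × (C2F L → Bool) | z'.2.1 = z.2.1} ∈ 𝓝 z := by
      have hc : Continuous fun z' : (C2F L → Bool) × Fin N × (C2F L → Bool) => z'.2.1 :=
        continuous_fst.comp continuous_snd
      exact hc.continuousAt.preimage_mem_nhds (t := {z.2.1}) (by simp)
    have h1 : Sat J χ (b 0) (b 1) := key _ ⟨_, hO, fun w _ hw => by
      rw [hχ]
      have h3 : e (th J w.1 w.2) = z.2.1 := hw
      rw [← h3, Equiv.symm_apply_apply]⟩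
    rw [(hχ U J _ _).1 h1, Equiv.apply_symm_apply]
  · funext φ
    obtain ⟨χ, hχ⟩ := (f1 L φ).2
    show bt J (b 1) φ = z.2.2 φ
    have hO : {z' : (C2F L → Bool) × Fin N × (C2F L → Bool) | z'.2.2 φ = z.2.2 φ} ∈ 𝓝 z := by
      have hc : Continuous fun z' : (C2F L → Bool) × Fin N × (C2F L → Bool) => z'.2.2 φ :=
        (continuous_apply φ).comp (continuous_snd.comp continuous_snd)
      exact hc.continuousAt.preimage_mem_nhds (t := {z.2.2 φ}) (by simp)
    rcases hb' : z.2.2 φ with _ | _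
    · have h1 : Sat J χ.neg (b 0) (b 1) := key _ ⟨_, hO, fun w _ hw => by
        intro h2
        rw [hχ] at h2
        have h3 : bt J w.2 φ = z.2.2 φ := hw
        rw [hb', ← Bool.not_eq_true, bt_true] at h3
        exact h3 h2⟩
      rw [← Bool.not_eq_true, bt_true]
      intro h2
      exact h1 ((hχ U J _ _).2 h2)
    · have h1 : Sat J χ (b 0) (b 1) := key _ ⟨_, hO, fun w _ hw => by
        rw [hχ]
        have h3 : bt J w.2 φ = z.2.2 φ := hw
        rwa [hb', bt_true] at h3⟩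
      rw [bt_true]
      exact (hχ U J _ _).1 h1

/-- implication -/
def imp (φ ψ : C2F L) : C2F L := (φ.and ψ.neg).neg

theorem sat_imp {J : Interp L U} {φ ψ : C2F L} {x y : U} :
    Sat J (imp φ ψ) x y ↔ (Sat J φ x y → Sat J ψ x y) := by
  show ¬ (Sat J φ x y ∧ ¬ Sat J ψ x y) ↔ _
  tauto

/-- the sparse edges between infinite types -/
def Gd (J : Interp L U) : Set (U × U) :=
  {w | w.1 ≠ w.2 ∧ (dat J).c (tp J w.1) = ⊤ ∧ (dat J).c (tp J w.2) = ⊤ ∧
    ¬ (dat J).Bi (tp J w.1) (th J w.1 w.2) (tp J w.2)}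

theorem top_of {a : ℕ∞} (h : ∀ k : ℕ, (k : ℕ∞) ≤ a) : a = ⊤ := by
  by_contra hne
  obtain ⟨n, rfl⟩ := ENat.ne_top_iff_exists.1 hne
  have := h (n + 1)
  have h2 : n + 1 ≤ n := by exact_mod_cast this
  omega

section

variable [∀ n, Countable (L.Relations n)] [Finite (L.Relations 2)] (f1 : S_FML1) (f2 : S_FML2)
  (f3 : S_FML3) (f4 : S_FML4) (d1 : S_DEG1) (d2 : S_DEG2) (J : Interp L U) (hJ : Good J)

include f1 f2 f3 f4 d1 d2 hJ

theorem closed_Gd {N : ℕ} (e : T2 L ≃ Fin N) : IsClosed (ev J e '' Gd J) := by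
  rw [← closure_subset_iff_isClosed]
  intro z hz
  have : Finite (T2 L) := Finite.of_equiv _ e.symm
  have hU : Gd J = ⋃ θ : T2 L, {w | w ∈ Gd J ∧ th J w.1 w.2 ≠ θ ∧
      (dat J).Bi (tp J w.1) θ (tp J w.2)} := by
    ext w
    rw [mem_iUnion]
    constructor
    · intro hw
      obtain ⟨θ, hθ, -⟩ := hJ.bi _ _ hw.2.1 hw.2.2.1
      refine ⟨θ, hw, ?_, hθ⟩
      intro h
      apply hw.2.2.2
      rw [h]
      exact hθ
    · rintro ⟨θ, hθ⟩
      exact hθ.1
  rw [hU, image_iUnion, closure_iUnion_of_finite, mem_iUnion] at hz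
  obtain ⟨θ, hz⟩ := hz
  obtain ⟨u, v, huv, hall⟩ := lim f1 f2 J hJ.sat e _ z hz
  refine ⟨(u, v), ⟨?_, ?_, ?_, ?_⟩, huv⟩
  · have h := hall (C2F.eq false true).neg (fun w hw => by
      intro h
      exact hw.1.1 h)
    exact h
  · -- the type of `u` is infinite
    apply top_of
    intro k
    show (k : ℕ∞) ≤ {y | tp J y = tp J u}.encard
    rw [d2 L U J hJ.sat u k]
    intro ψ hψ
    obtain ⟨χ, hχ⟩ := (f1 L ψ).1
    obtain ⟨χ', hχ'⟩ := f4 L k ψ
    have h := hall (imp χ χ') (fun w hw => by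
      rw [sat_imp, hχ, hχ']
      have h1 := (d2 L U J hJ.sat w.1 k).1 (by
        have h2 : {y | tp J y = tp J w.1}.encard = ⊤ := hw.1.2.1
        rw [h2]
        exact le_top)
      exact h1 ψ)
    rw [sat_imp, hχ, hχ'] at h
    exact h hψ
  · apply top_of
    intro k
    show (k : ℕ∞) ≤ {y | tp J y = tp J v}.encard
    rw [d2 L U J hJ.sat v k]
    intro ψ hψ
    obtain ⟨χ, hχ⟩ := (f1 L ψ).2
    obtain ⟨χ', hχ'⟩ := f4 L k ψ
    have h := hall (imp χ χ') (fun w hw => by
      rw [sat_imp, hχ, hχ']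
      have h1 := (d2 L U J hJ.sat w.2 k).1 (by
        have h2 : {y | tp J y = tp J w.2}.encard = ⊤ := hw.1.2.2.1
        rw [h2]
        exact le_top)
      exact h1 ψ)
    rw [sat_imp, hχ, hχ'] at h
    exact h hψ
  · intro hBi
    have hst : ∀ w ∈ Gd J, ∀ k : ℕ, ∀ θ' : T2 L, (dat J).d (tp J w.1) θ' (tp J w.2) = ⊤ →
        ∀ ψ : C2F L, Sat J ψ w.2 w.2 →
          (k : ℕ∞) ≤ {z | z ≠ w.1 ∧ th J w.1 z = θ' ∧ Sat J ψ z z}.encard := by
      intro w _ k θ' h
      apply (d1 L U J hJ.sat w.1 w.2 θ' k).1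
      rw [hJ.fits.deg w.1 θ' (tp J w.2), h]
      exact le_top
    have ha : th J u v ≠ θ := by
      obtain ⟨χ, hχ⟩ := f2 L θ
      have h := hall χ.neg (fun w hw => by
        intro h
        exact hw.2.1 ((hχ U J _ _).1 h))
      intro h'
      exact h ((hχ U J _ _).2 h')
    have hb : (dat J).d (tp J u) θ (tp J v) = ⊤ := by
      rw [← hJ.fits.deg u θ (tp J v)]
      apply top_of
      intro k
      rw [d1 L U J hJ.sat u v θ k]
      intro ψ hψ
      obtain ⟨χ, hχ⟩ := (f1 L ψ).2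
      obtain ⟨χ', hχ'⟩ := f3 L k θ ψ
      have h := hall (imp χ χ') (fun w hw => by
        rw [sat_imp, hχ, hχ']
        exact hst w hw.1 k θ hw.2.2.1 ψ)
      rw [sat_imp, hχ, hχ'] at h
      exact h hψ
    have hc : (dat J).d (tp J v) ((dat J).star θ) (tp J u) = ⊤ := by
      rw [← hJ.fits.deg v _ (tp J u)]
      apply top_of
      intro k
      rw [d1 L U J hJ.sat v u _ k]
      intro ψ hψ
      obtain ⟨χ, hχ⟩ := (f1 L ψ).1
      obtain ⟨χ₁, hχ₁⟩ := f3 L k ((dat J).star θ) ψ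
      obtain ⟨χ', hχ'⟩ := (f1 L χ₁).2
      have h := hall (imp χ χ') (fun w hw => by
        rw [sat_imp, hχ, hχ', hχ₁]
        intro h1
        have h2 := (d1 L U J hJ.sat w.2 w.1 ((dat J).star θ) k).1 (by
          rw [hJ.fits.deg w.2 _ (tp J w.1), hw.2.2.2]
          exact le_top)
        exact h2 ψ h1)
      rw [sat_imp, hχ, hχ', hχ₁] at h
      exact h hψ
    obtain ⟨θ₀, -, hu⟩ := hJ.bi (tp J u) (tp J v) (by
      apply top_of
      intro k
      show (k : ℕ∞) ≤ {y | tp J y = tp J u}.encard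
      rw [d2 L U J hJ.sat u k]
      intro ψ hψ
      obtain ⟨χ, hχ⟩ := (f1 L ψ).1
      obtain ⟨χ', hχ'⟩ := f4 L k ψ
      have h := hall (imp χ χ') (fun w hw => by
        rw [sat_imp, hχ, hχ']
        have h1 := (d2 L U J hJ.sat w.1 k).1 (by
          have h2 : {y | tp J y = tp J w.1}.encard = ⊤ := hw.1.2.1
          rw [h2]
          exact le_top)
        exact h1 ψ)
      rw [sat_imp, hχ, hχ'] at h
      exact h hψ) (by
      apply top_of
      intro k
      show (k : ℕ∞) ≤ {y | tp J y = tp J v}.encard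
      rw [d2 L U J hJ.sat v k]
      intro ψ hψ
      obtain ⟨χ, hχ⟩ := (f1 L ψ).2
      obtain ⟨χ', hχ'⟩ := f4 L k ψ
      have h := hall (imp χ χ') (fun w hw => by
        rw [sat_imp, hχ, hχ']
        have h1 := (d2 L U J hJ.sat w.2 k).1 (by
          have h2 : {y | tp J y = tp J w.2}.encard = ⊤ := hw.1.2.2.1
          rw [h2]
          exact le_top)
        exact h1 ψ)
      rw [sat_imp, hχ, hχ'] at h
      exact h hψ)
    exact ha ((hu _ hBi).trans (hu _ ⟨hb, hc⟩).symm)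

theorem main (hR : S_REC) : ¬ ∃ x : ℕ → U, Function.Injective x ∧
    (∀ i, (dat J).c (tp J (x i)) = ⊤) ∧
    ∀ i, ¬ (dat J).Bi (tp J (x i)) (th J (x i) (x (i + 1))) (tp J (x (i + 1))) := by
  rintro ⟨x, hinj, hinf, hspar⟩
  have : Finite (T2 L) := Pi.finite
  obtain ⟨N, ⟨e⟩⟩ := Finite.exists_equiv_fin (T2 L)
  have hcl := closed_Gd f1 f2 f3 f4 d1 d2 J hJ e
  let E : Type := {z // z ∈ ev J e '' Gd J}
  have : CompactSpace E := isCompact_iff_compactSpace.1 hcl.isCompact
  have hcb : (range (bt J)).Countable := by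
    classical
    refine (hJ.cnt.image fun (p : Ty L) (φ : C2F L) => decide (p φ)).mono ?_
    rintro _ ⟨u, rfl⟩
    refine ⟨tp J u, ⟨u, rfl⟩, ?_⟩
    funext φ
    rw [Bool.eq_iff_iff, bt_true]
    simp [tp]
  have : Countable E := by
    have h1 : ((range (bt J)) ×ˢ ((univ : Set (Fin N)) ×ˢ (range (bt J)))).Countable :=
      hcb.prod ((Set.to_countable _).prod hcb)
    have h2 : (ev J e '' Gd J).Countable := by
      refine h1.mono ?_
      rintro _ ⟨w, -, rfl⟩
      exact ⟨⟨w.1, rfl⟩, mem_univ _, ⟨w.2, rfl⟩⟩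
    exact h2.to_subtype
  choose χ hχ using f3 L 2
  let R : Set (E × E) := {c | c.1.1.2.2 = c.2.1.1 ∧ ∀ (θ : T2 L) (ψ : C2F L), c.2.1.2.1 = e θ →
    c.1.1.2.1 = e ((dat J).star θ) → c.1.1.1 ψ = true → c.2.1.2.2 ψ = true →
    c.2.1.1 (χ θ ψ) = true}
  have hRc : IsClosed R := by
    have k1 : Continuous fun c : E × E => c.1.1 := continuous_subtype_val.comp continuous_fst
    have k2 : Continuous fun c : E × E => c.2.1 := continuous_subtype_val.comp continuous_snd
    have hop : ∀ {A : Type} [TopologicalSpace A] [DiscreteTopology A] (f : E × E → A),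
        Continuous f → ∀ a, IsOpen {c | f c = a} := fun f hf a =>
      (isOpen_discrete {a}).preimage hf
    have hcl' : ∀ {A : Type} [TopologicalSpace A] [DiscreteTopology A] (f : E × E → A),
        Continuous f → ∀ a, IsClosed {c | f c = a} := fun f hf a =>
      (isClosed_discrete {a}).preimage hf
    have e1 : IsClosed {c : E × E | c.1.1.2.2 = c.2.1.1} :=
      isClosed_eq (continuous_snd.comp (continuous_snd.comp k1)) (continuous_fst.comp k2)
    have e2 : ∀ (θ : T2 L) (ψ : C2F L), IsClosed {c : E × E | c.2.1.2.1 = e θ →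
        c.1.1.2.1 = e ((dat J).star θ) → c.1.1.1 ψ = true → c.2.1.2.2 ψ = true →
        c.2.1.1 (χ θ ψ) = true} := by
      intro θ ψ
      refine isClosed_imp (hop (fun c : E × E => c.2.1.2.1)
        (continuous_fst.comp (continuous_snd.comp k2)) _) ?_
      refine isClosed_imp (hop (fun c : E × E => c.1.1.2.1)
        (continuous_fst.comp (continuous_snd.comp k1)) _) ?_
      refine isClosed_imp (hop (fun c : E × E => c.1.1.1 ψ)
        ((continuous_apply ψ).comp (continuous_fst.comp k1)) _) ?_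
      refine isClosed_imp (hop (fun c : E × E => c.2.1.2.2 ψ)
        ((continuous_apply ψ).comp (continuous_snd.comp (continuous_snd.comp k2))) _) ?_
      exact hcl' (fun c : E × E => c.2.1.1 (χ θ ψ))
        ((continuous_apply _).comp (continuous_fst.comp k2)) _
    have hRe : R = {c : E × E | c.1.1.2.2 = c.2.1.1} ∩ ⋂ (θ : T2 L) (ψ : C2F L),
        {c : E × E | c.2.1.2.1 = e θ →
        c.1.1.2.1 = e ((dat J).star θ) → c.1.1.1 ψ = true → c.2.1.2.2 ψ = true →
        c.2.1.1 (χ θ ψ) = true} := by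
      ext c
      simp only [R, mem_inter_iff, mem_iInter, mem_ofPred_eq]
    rw [hRe]
    exact e1.inter (isClosed_iInter fun θ => isClosed_iInter fun ψ => e2 θ ψ)
  have hne : ∀ i, x i ≠ x (i + 1) := fun i h => by
    have := hinj h
    omega
  have hG : ∀ i, (x i, x (i + 1)) ∈ Gd J := fun i => ⟨hne i, hinf i, hinf (i + 1), hspar i⟩
  obtain ⟨m, z, hm, hper, hwalk⟩ := hR E R hRc
    ⟨fun i => ⟨ev J e (x i, x (i + 1)), ⟨_, hG i, rfl⟩⟩, by
      intro i
      refine ⟨rfl, ?_⟩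
      intro θ ψ h1 h2 h3 h4
      have h1' : th J (x (i + 1)) (x (i + 1 + 1)) = θ := e.injective h1
      have h2' : th J (x i) (x (i + 1)) = (dat J).star θ := e.injective h2
      have h3' : Sat J ψ (x i) (x i) := bt_true.1 h3
      have h4' : Sat J ψ (x (i + 1 + 1)) (x (i + 1 + 1)) := bt_true.1 h4
      show bt J (x (i + 1)) (χ θ ψ) = true
      rw [bt_true, hχ]
      have h5 : th J (x (i + 1)) (x i) = θ := by
        rw [hJ.fits.symm _ _ (hne i), h2', (dat J).star_star]
      have h6 : x i ≠ x (i + 1 + 1) := fun h => by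
        have := hinj h
        omega
      have h7 : ({x i, x (i + 1 + 1)} : Set U) ⊆
          {z | z ≠ x (i + 1) ∧ th J (x (i + 1)) z = θ ∧ Sat J ψ z z} := by
        rintro y (rfl | rfl)
        · exact ⟨hne i, h5, h3'⟩
        · exact ⟨(hne (i + 1)).symm, h1', h4'⟩
      have h8 := encard_le_encard h7
      rw [encard_pair h6] at h8
      exact_mod_cast h8⟩
  choose w hwG hw using fun c : E => c.2
  have hnext : ∀ i, tp J (w (z i)).2 = tp J (w (z (i + 1))).1 := by
    intro i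
    rw [tp_iff]
    have h1 : (z i).1.2.2 = (z (i + 1)).1.1 := (hwalk i).1
    rw [← hw (z i), ← hw (z (i + 1))] at h1
    exact h1
  apply hJ.nored
  refine ⟨m, fun i => tp J (w (z i)).1, fun i => th J (w (z i)).1 (w (z i)).2, hm, ?_, ?_, ?_,
    ?_, ?_, ?_⟩
  · intro i
    show tp J (w (z (i + m))).1 = _
    rw [hper]
  · intro i
    show th J (w (z (i + m))).1 (w (z (i + m))).2 = _
    rw [hper]
  · intro i
    exact (hwG (z i)).2.1
  · intro i
    show (dat J).d (tp J (w (z i)).1) (th J (w (z i)).1 (w (z i)).2) (tp J (w (z (i + 1))).1) ≠ 0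
    rw [← hnext, ← hJ.fits.deg]
    rw [Ne, encard_eq_zero]
    intro h
    have h1 : (w (z i)).2 ∈ {y | y ≠ (w (z i)).1 ∧ tp J y = tp J (w (z i)).2 ∧
      th J (w (z i)).1 y = th J (w (z i)).1 (w (z i)).2} := ⟨(hwG (z i)).1.symm, rfl, rfl⟩
    rw [h] at h1
    exact h1
  · intro i
    show ¬ (dat J).Bi (tp J (w (z i)).1) (th J (w (z i)).1 (w (z i)).2) (tp J (w (z (i + 1))).1)
    rw [← hnext]
    exact (hwG (z i)).2.2.2
  · intro i h1 h2
    change tp J (w (z (i + 2))).1 = tp J (w (z i)).1 at h1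
    change th J (w (z (i + 1))).1 (w (z (i + 1))).2 = (dat J).star (th J (w (z i)).1 (w (z i)).2)
      at h2
    show 2 ≤ (dat J).d (tp J (w (z (i + 1))).1) (th J (w (z (i + 1))).1 (w (z (i + 1))).2)
      (tp J (w (z (i + 2))).1)
    have h3 : tp J (w (z (i + 1))).2 = tp J (w (z (i + 2))).1 := hnext (i + 1)
    rw [← h3] at h1 ⊢
    rw [← hJ.fits.deg]
    have h4 := (d1 L U J hJ.sat (w (z (i + 1))).1 (w (z (i + 1))).2
      (th J (w (z (i + 1))).1 (w (z (i + 1))).2) 2).2 (by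
        intro ψ hψ
        have h5 := (hwalk i).2 (th J (w (z (i + 1))).1 (w (z (i + 1))).2) ψ (by
          show (z (i + 1)).1.2.1 = _
          rw [← hw (z (i + 1))]
          rfl) (by
          show (z i).1.2.1 = _
          rw [← hw (z i), h2, (dat J).star_star]
          rfl) (by
          show (z i).1.1 ψ = true
          rw [← hw (z i)]
          show bt J (w (z i)).1 ψ = true
          rw [bt_true]
          have h6 := congrFun h1 ψ
          exact (iff_of_eq h6).1 hψ) (by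
          show (z (i + 1)).1.2.2 ψ = true
          rw [← hw (z (i + 1))]
          exact bt_true.2 hψ)
        change (z (i + 1)).1.1 _ = true at h5
        rw [← hw (z (i + 1))] at h5
        have h6 : Sat J (χ (th J (w (z (i + 1))).1 (w (z (i + 1))).2) ψ) (w (z (i + 1))).1
          (w (z (i + 1))).1 := bt_true.1 h5
        rw [hχ] at h6
        exact h6)
    exact_mod_cast h4

end

end WalkP

theorem t_WALK (hR : S_REC) (f1 : S_FML1) (f2 : S_FML2) (f3 : S_FML3) (f4 : S_FML4) (d1 : S_DEG1)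
    (d2 : S_DEG2) : S_WALK := fun _ _ _ _ J hJ => WalkP.main f1 f2 f3 f4 d1 d2 J hJ hR

end Pool.Agent.H8C2
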