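import Pool.Agent.H8C2.Fin
import Pool.Agent.H8C2.BI
import Pool.Agent.H8C2.CNT
import Pool.Agent.H8C2.RC
import Pool.Agent.H8C2.COL
import Pool.Agent.H8C2.CODE1
import Pool.Agent.H8C2.CODE2
import Pool.Agent.H8C2.FREE
import Pool.Agent.H8C2.CYC
import Pool.Agent.H8C2.REC
import Pool.Agent.H8C2.RAY
import Pool.Agent.H8C2.SYN
import Pool.Agent.H8C2.TERN
import Pool.Agent.H8C2.FML
import Pool.Agent.H8C2.SATU
import Pool.Agent.H8C2.TC
import Pool.Agent.H8C2.LS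
import Pool.Agent.H8C2.UT
import Pool.Agent.H8C2.DEG
import Pool.Agent.H8C2.MEA
import Pool.Agent.H8C2.PART
import Pool.Agent.H8C2.WALK
import Pool.Agent.H8C2.FLIP
import Pool.Agent.H8C2.CONV

/-!
Project H8C2: all the pieces together.
-/

set_option autoImplicit false

namespace Pool.Agent.H8C2

open FirstOrder Set
open Pool.Agent.H565R2.FO2 (Code toI Iso)
open Pool.Agent.H565R2.LO2 (PerfK)

/-- The dichotomy for the sets of two-variable formulas with counting. -/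
theorem dichotomy_all (L : FirstOrder.Language.{0, 0}) [Countable L.Symbols] [L.IsRelational]
    [∀ n, Countable (L.Relations n)] [Finite (L.Relations 2)] (Φ : Set (C2F L)) :
    ((∃ g : ℕ → Code L, ∀ c ∈ Mod Φ, ∃ n, Iso c (g n)) ∧ ∀ c ∈ Mod Φ,
      (∀ n, 2 < n → IsEmpty (L.Relations n)) ∧ Flip (toI c)) ∨ PerfK (Mod Φ) := by
  have d1 : S_DEG1 := t_DEG1 t_FML2
  have d3 : S_DEG3 := t_DEG3 t_FML2 t_FML3
  have ls : S_LS := t_LS t_SYN1
  have part : S_PART := t_PART t_FML1 t_FML3 t_FML4 d1 t_DEG2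
  have walk : S_WALK := t_WALK t_REC t_FML1 t_FML2 t_FML3 t_FML4 d1 t_DEG2
  exact dichotomy t_SYN1 t_SYN2 t_SYN3 (t_TERN t_SYN4) (t_SATU t_SYN5)
    (fun L _ _ h2 Φ hP U _ J hJ hΦ => good_of_not_perf t_BI t_CNT t_SELF (t_RC t_ZI) t_COL t_CODE1
      t_CODE2 (t_CYC t_FREE) d3 (t_TC t_SYN2) (t_UT t_SYN1 t_SYN2 t_SYN3 ls)
      (t_MEA t_SYN1 t_SYN2 t_SYN3) (t_MEB t_SYN1 t_SYN2 t_SYN3) L h2 Φ hP U J hJ hΦ)
    (t_FLIP t_FML1 t_FML2 t_DEG2 part walk t_RAY) t_CONV L Φ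

end Pool.Agent.H8C2
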