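import Mathlib

/-!
# Project H8C2 (helper8): Vaught's conjecture for two-variable logic with counting. Part A

The combinatorial pieces. A theory axiomatised in the two-variable logic with counting (finitely many
binary relations) is determined, for each completion, by numbers: the type `t x` of a point `x` (in an
arbitrary set `Q`), the binary type `g x y` of a pair of different points (in a finite set `Θ`), the number
`c q` of points of type `q`, and the number `d p θ q` of the points `y` of type `q` with `g x y = θ`, for `x`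
of type `p`; all numbers in `ℕ∞` (all infinite cardinals are `⊤`). Any labelled structure with the same
numbers is a model again (piece TC of part B).
-/

set_option autoImplicit false

namespace Pool.Agent.H8C2

open Set

/-- Numerical data: `c q` is the number of points of type `q` and `d p θ q` is the number of the points `y` of
type `q` with `g x y = θ`, for each point `x` of type `p`; `star` is the reversal of the binary types. -/
structure Dat (Q Θ : Type) where
  star : Θ → Θ
  star_star : ∀ θ, star (star θ) = θ
  c : Q → ℕ∞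
  d : Q → Θ → Q → ℕ∞

variable {Q Θ X V : Type}

/-- The labelled structure `(X, t, g)` has the numbers `D`. -/
structure Fits (D : Dat Q Θ) (t : X → Q) (g : X → X → Θ) : Prop where
  symm : ∀ x y, x ≠ y → g y x = D.star (g x y)
  card : ∀ q, {y | t y = q}.encard = D.c q
  deg : ∀ x θ q, {y | y ≠ x ∧ t y = q ∧ g x y = θ}.encard = D.d (t x) θ q

/-- The binary type `θ` is generic for `(p, q)`: both degrees are infinite. -/
def Dat.Bi (D : Dat Q Θ) (p : Q) (θ : Θ) (q : Q) : Prop :=
  D.d p θ q = ⊤ ∧ D.d q (D.star θ) p = ⊤

theorem Dat.Bi.symm {D : Dat Q Θ} {p q : Q} {θ : Θ} (h : D.Bi p θ q) : D.Bi q (D.star θ) p :=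
  ⟨h.2, by rw [D.star_star]; exact h.1⟩

/-- **Piece BI** (60 lines). Proof: if `θ` is not generic then `d p θ q` or `d q (star θ) p` is finite. Let `m`, `n`
be the sums of the finite numbers `d p θ q`, and of the finite numbers `d q (star θ) p`, over `θ`. Take disjoint
finite sets `A`, `B` of points of type `p`, `q` with `N = m + n + 1` points each. If no `θ` is generic then each of
the `N * N` pairs is counted in one of the finite degrees, so `N * N ≤ N * m + N * n`. -/
def S_BI : Prop := ∀ (Q Θ X : Type) [Finite Θ] (D : Dat Q Θ) (t : X → Q) (g : X → X → Θ), Fits D t g →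
  ∀ p q, D.c p = ⊤ → D.c q = ⊤ → ∃ θ, D.Bi p θ q

/-- **Piece ZI** (part of BI; 40 lines). Between a finite type and an infinite type all degrees are `0` or
infinite. Proof: let `d (t x) θ q ≠ 0`, so there is `y` of type `q` with `g x y = θ`, hence
`d q (star θ) (t x) ≠ 0`, so each of the infinitely many `y` of type `q` has a neighbour `x'` of type `t x` with
`g x' y = θ`; there are finitely many `x'`, so one of them has infinitely many such `y`. -/
def S_ZI : Prop := ∀ (Q Θ X : Type) (D : Dat Q Θ) (t : X → Q) (g : X → X → Θ), Fits D t g →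
  ∀ x θ q, D.c (t x) ≠ ⊤ → D.c q = ⊤ → D.d (t x) θ q = 0 ∨ D.d (t x) θ q = ⊤

/-- **Piece CNT** (70 lines). A countable substructure with the same numbers. Proof: each set
`{y | t y = q}`, `{y | y ≠ x ∧ t y = q ∧ g x y = θ}` has a countable subset with the same `encard` (itself if it is
finite); close a countable set (starting with `S` and the subsets of the first kind, for the countably many `q` in
the range of `t`) under the countably many operations `x ↦` the chosen subset for `(x, θ, q)`. -/
def S_CNT : Prop := ∀ (Q Θ X : Type) [Countable Θ] (D : Dat Q Θ) (t : X → Q) (g : X → X → Θ), Fits D t g →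
  (range t).Countable → ∀ S : Set X, S.Countable → ∃ N : Set X, S ⊆ N ∧ N.Countable ∧
    Fits D (fun x : N => t x) (fun x y : N => g x y)

/-- A typed graph (`s v w = some θ`: an edge with binary type `θ`) which realises the sparse (not generic) part
of the data on the infinite types. -/
structure Sparse (D : Dat Q Θ) (τ : V → Q) (s : V → V → Option Θ) : Prop where
  inf : ∀ v, D.c (τ v) = ⊤
  onto : ∀ q, D.c q = ⊤ → ∃ v, τ v = q
  irr : ∀ v, s v v = none
  symm : ∀ v w θ, s v w = some θ → s w v = some (D.star θ)
  spar : ∀ v w θ, s v w = some θ → ¬ D.Bi (τ v) θ (τ w)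
  deg : ∀ v θ q, D.c q = ⊤ → ¬ D.Bi (τ v) θ q →
    {w | τ w = q ∧ s v w = some θ}.encard = D.d (τ v) θ q

open Classical in
/-- The sparse part of a labelled structure. -/
noncomputable def self (D : Dat Q Θ) (t : X → Q) (g : X → X → Θ) :
    {x : X // D.c (t x) = ⊤} → {x : X // D.c (t x) = ⊤} → Option Θ :=
  fun v w => if v ≠ w ∧ ¬ D.Bi (t v) (g v w) (t w) then some (g v w) else none

/-- **Piece SELF** (part of RC; 40 lines). -/
def S_SELF : Prop := ∀ (Q Θ X : Type) (D : Dat Q Θ) (t : X → Q) (g : X → X → Θ), Fits D t g →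
  Sparse D (fun v : {x : X // D.c (t x) = ⊤} => t v) (self D t g)

/-- `x`, `y` are different points of `V × ℕ` (infinitely many copies of the graph) which are not adjacent. -/
def Non (s : V → V → Option Θ) (x y : V × ℕ) : Prop :=
  x ≠ y ∧ ¬ (x.2 = y.2 ∧ s x.1 y.1 ≠ none)

/-- A colouring of the pairs that are not adjacent by generic binary types. -/
structure Col (D : Dat Q Θ) (τ : V → Q) (s : V → V → Option Θ) (h : V × ℕ → V × ℕ → Θ) : Prop where
  symm : ∀ x y, Non s x y → h y x = D.star (h x y)
  bi : ∀ x y, Non s x y → D.Bi (τ x.1) (h x y) (τ y.1)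
  many : ∀ x q θ, D.c q = ⊤ → D.Bi (τ x.1) θ q → {y | Non s x y ∧ τ y.1 = q ∧ h x y = θ}.Infinite

/-- The labels of the new structure: the finite part of `X`, and infinitely many copies of `V`. -/
def tt (D : Dat Q Θ) (t : X → Q) (τ : V → Q) : {x : X // D.c (t x) ≠ ⊤} ⊕ V × ℕ → Q :=
  Sum.elim (fun x => t x.1) fun x => τ x.1

/-- The binary types of the new structure; `r` tells each new point which old point it should imitate with
respect to the finite part. -/
def gg (D : Dat Q Θ) (t : X → Q) (g : X → X → Θ) (s : V → V → Option Θ) (h : V × ℕ → V × ℕ → Θ)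
    (r : V × ℕ → X) :
    {x : X // D.c (t x) ≠ ⊤} ⊕ V × ℕ → {x : X // D.c (t x) ≠ ⊤} ⊕ V × ℕ → Θ
  | .inl a, .inl b => g a.1 b.1
  | .inl a, .inr y => g a.1 (r y)
  | .inr x, .inl b => g (r x) b.1
  | .inr x, .inr y => if x.2 = y.2 then (s x.1 y.1).getD (h x y) else h x y

/-- **Piece RC** (150-200 lines; may assume `S_ZI`). The new structure has the same numbers. Proof: for each
infinite `q` choose `e_q : ℕ → {x | t x = q}` (countably infinite) that takes each value infinitely often, and
`r (v, i) = e_{τ v} i`. Degrees: from `.inl a` to a finite type: as in `X`; from `.inl a` to an infinite type: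
nonzero iff nonzero in `X`, and then infinite in both (`S_ZI`); from `.inr x` to a finite type `q`: the points
`b` of type `q` with `g (r x) b = θ` (`b ≠ r x` as `c (t b) ≠ ⊤`); from `.inr x` to an infinite type `q` and not
generic `θ`: exactly the `(w, x.2)` with `s x.1 w = some θ`, `τ w = q`; generic `θ`: infinitely many by
`Col.many`. Numbers of points: clear, `V_q × ℕ` is infinite as `V_q` is nonempty (`Sparse.onto`). -/
def S_RC : Prop := ∀ (Q Θ X V : Type) [Countable X] [Countable V] (D : Dat Q Θ) (t : X → Q) (g : X → X → Θ)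
  (τ : V → Q) (s : V → V → Option Θ) (h : V × ℕ → V × ℕ → Θ), Fits D t g → Sparse D τ s → Col D τ s h →
  ∃ r : V × ℕ → X, (∀ x, t (r x) = τ x.1) ∧ Fits D (tt D t τ) (gg D t g s h r)

/-- **Piece COL** (80 lines). There is a colouring. Proof: let `e : ℕ → Θ` take each value infinitely often
(`Θ` is nonempty if `V` is) and `ν : V → ℕ` injective. For `x = (v, i)`, `y = (w, j)` with `i < j`, or `i = j` and
`ν v < ν w`, put `h x y = e j` if this is generic for `(τ v, τ w)` and any generic binary type otherwise;
for `y` before `x` put `h x y = star (h y x)`. -/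
def S_COL : Prop := ∀ (Q Θ V : Type) [Finite Θ] [Countable V] (D : Dat Q Θ)
  (τ : V → Q) (s : V → V → Option Θ), (∀ p q, D.c p = ⊤ → D.c q = ⊤ → ∃ θ, D.Bi p θ q) → Sparse D τ s →
  ∃ h, Col D τ s h

/-- The set `A` is coded in a colouring: by the sizes of the classes of the relation 'the rows of `x`, `x'`
differ at finitely many points of type `q` that are adjacent to neither' on the points of type `p`. -/
def CodeFor (D : Dat Q Θ) (τ : V → Q) (s : V → V → Option Θ) (p q : Q) (A : Set ℕ) : Prop :=
  ∃ h, Col D τ s h ∧ ∀ n : ℕ, (∃ x : V × ℕ, τ x.1 = p ∧ {x' : V × ℕ | τ x'.1 = p ∧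
    {y : V × ℕ | τ y.1 = q ∧ Non s x y ∧ Non s x' y ∧ h x y ≠ h x' y}.Finite}.encard = n) ↔ n ∈ A

/-- **Piece CODE1** (250 lines). If there are two generic binary types `θ₁`, `θ₂` for `(p, q)`, `p ≠ q`, then each
`A ⊆ {2, 3, …}` is coded in a colouring. Proof: fix `v₀ ∈ V` with `τ v₀ = p`. Let `b : ℕ → ℕ` be a partition of
`ℕ` into consecutive finite blocks, the `k`-th block with `n k` elements, where `A = {n k | k}`. Classes of the
points of type `p`: `κ (v₀, i) = inl (b i)`, `κ (v, i) = inr v` for `v ≠ v₀`; each class meets at least two copies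
and has `n k` or infinitely many elements; number the classes by an injection `N : ℕ ⊕ V → ℕ` with
`N (inl k) = 2 * k`. Classes of the points of type `q`: `κ' (w, j) = c j` where `c : ℕ → ℕ` takes each value
infinitely often. Let `e : ℕ → List Θ` (or `ℕ → ℕ → Θ` with all finite patterns) take each value infinitely
often, moreover let `e (2 * l)` take each value infinitely often. For `x` of type `p` in class number `k`, `y` of
type `q` in class `l`, `Non s x y`: if `k < l` then `h x y` is the `k`-th entry of `e l`, if it exists and is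
generic for `(p, q)`, and `θ₁` otherwise; if `k ≥ l` then `h x y` is the `l`-th entry of `e k`, if it exists and
is generic, and `θ₁` otherwise. `h y x = star (h x y)`. On the other pairs of types `h` is as in COL. Then:
(1) `Col.many` for `x` in class `k`: infinitely many `l > k` have `e l` with `k`-th entry `θ`, and class `l` meets
all large copies; for `y` in class `l`: infinitely many even `k > l` have `e k` with `l`-th entry `star θ`, and
the `k / 2`-th block meets a copy different from that of `y`. (2) `x`, `x'` of type `p` in one class: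
`h x y = h x' y` for all `y` of type `q` with `Non s x y`, `Non s x' y`. (3) in different classes `k`, `k'`:
infinitely many `l` with `k`-th entry `θ₁` and `k'`-th entry `θ₂`, each with a `y` in a copy different from those
of `x`, `x'`. So the inner set is the class of `x`. -/
def S_CODE1 : Prop := ∀ (Q Θ V : Type) [Finite Θ] [Countable V] (D : Dat Q Θ)
  (τ : V → Q) (s : V → V → Option Θ), (∀ p q, D.c p = ⊤ → D.c q = ⊤ → ∃ θ, D.Bi p θ q) → Sparse D τ s →
  ∀ (p q : Q) (θ₁ θ₂ : Θ), p ≠ q → D.c p = ⊤ → D.c q = ⊤ → θ₁ ≠ θ₂ → D.Bi p θ₁ q → D.Bi p θ₂ q →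
  ∀ A : Set ℕ, A.Nonempty → (∀ n ∈ A, 2 ≤ n) → CodeFor D τ s p q A

/-- **Piece CODE2** (250 lines). The same for `p = q`. Proof: classes `κ` and numbers of classes as in CODE1 (for
`x` and `y`). For `x`, `y` of type `p` in classes number `k`, `l`, `Non s x y`: if `k < l` then `h x y` is the
`k`-th entry of `e l`, if it exists and is generic for `(p, p)`, and `θ₁` otherwise; if `k > l` then
`h x y = star (h y x)`; if `k = l`: `θ₁` if the copy of `x` is before that of `y` (two different points of one
class are in different copies) and `star θ₁` otherwise. Here `e` must take each value infinitely often on the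
even numbers (the classes of the blocks). Then: (1) `Col.many` for `x` in class `k`: infinitely many even
`l > k` have `e l` with `k`-th entry `θ`, and the `l / 2`-th block meets a copy different from that of `x`.
(2) `x`, `x'` in one class: `h x y = h x' y` for all `y` in other classes, and for `y` in their own class unless
the copy of `y` is between (weakly) the copies of `x` and `x'`: finitely many `y`, as the points of one class are
in different copies. (3) `x`, `x'` in different classes `k`, `k'`: infinitely many even `l` with `k`-th entry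
`θ₁` and `k'`-th entry `θ₂`; all but finitely many of these blocks do not meet the copies of `x`, `x'`. -/
def S_CODE2 : Prop := ∀ (Q Θ V : Type) [Finite Θ] [Countable V] (D : Dat Q Θ)
  (τ : V → Q) (s : V → V → Option Θ), (∀ p q, D.c p = ⊤ → D.c q = ⊤ → ∃ θ, D.Bi p θ q) → Sparse D τ s →
  ∀ (p : Q) (θ₁ θ₂ : Θ), D.c p = ⊤ → θ₁ ≠ θ₂ → D.Bi p θ₁ p → D.Bi p θ₂ p →
  ∀ A : Set ℕ, A.Nonempty → (∀ n ∈ A, 2 ≤ n) → CodeFor D τ s p p A

/-- A typed graph whose degrees are at most those of the data. -/
structure Part (D : Dat Q Θ) (τ : V → Q) (s : V → V → Option Θ) : Prop where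
  inf : ∀ v, D.c (τ v) = ⊤
  irr : ∀ v, s v v = none
  symm : ∀ v w θ, s v w = some θ → s w v = some (D.star θ)
  spar : ∀ v w θ, s v w = some θ → ¬ D.Bi (τ v) θ (τ w)
  deg : ∀ v θ q, D.c q = ⊤ → ¬ D.Bi (τ v) θ q →
    {w | τ w = q ∧ s v w = some θ}.encard ≤ D.d (τ v) θ q

/-- **Piece FREE** (250 lines). The free completion of a partial typed graph `(B, τ₀, s₀)` by trees. Vertices:
pairs `(b, l)` with `b ∈ B` and `l : List (Θ × Q × ℕ)` (the last step is the head), with label
`lab (b, []) = τ₀ b`, `lab (b, (θ, q, i) :: l) = q`, and valid: in each step `(θ, q, i) :: l` we have `c q = ⊤`,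
`θ` is not generic for `(lab (b, l), q)`, and `i < m` where, with `D = d (lab (b, l)) θ q`:
if `l = []` then `m + #{w | τ₀ w = q ∧ s₀ b w = some θ} = D` (choose such an `m : ℕ∞`, it exists by `Part.deg`); if
`l = (θ', q', i') :: l'` then `m = D - 1` if `θ = star θ'` and `q = lab (b, l')` (the step back to the parent) and
`m = D` otherwise. Edges: `(b, l) — (b, (θ, q, i) :: l)` of type `θ` (from the parent), `star θ` (from the child),
and the edges of `s₀` between the `(b, [])`. Degrees of `(b, l)`: children of kind `(θ, q)`: `m`; plus the parent,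
if it is of this kind, plus the `s₀`-neighbours if `l = []`; the sum is `D` (if the parent is of this kind
then `D ≠ 0` by `hz`, so `D - 1 + 1 = D`). `dep (b, l)` is the length of `l`. -/
def S_FREE : Prop := ∀ (Q Θ B : Type) [Countable Θ] [Countable B] (D : Dat Q Θ) (τ₀ : B → Q)
  (s₀ : B → B → Option Θ), {q | D.c q = ⊤}.Countable →
  (∀ p θ q, D.c p = ⊤ → D.c q = ⊤ → D.d p θ q ≠ 0 → D.d q (D.star θ) p ≠ 0) →
  Part D τ₀ s₀ → (∀ q, D.c q = ⊤ → ∃ b, τ₀ b = q) →
  ∃ (V : Type) (_ : Countable V) (τ : V → Q) (s : V → V → Option Θ) (e : B → V) (dep : V → ℕ),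
    Sparse D τ s ∧ Function.Injective e ∧ (∀ b, τ (e b) = τ₀ b) ∧ (∀ b b', s (e b) (e b') = s₀ b b') ∧
    (∀ v, dep v = 0 ↔ ∃ b, e b = v) ∧
    ∀ v w w', dep v ≠ 0 → s v w ≠ none → s v w' ≠ none → dep w ≤ dep v → dep w' ≤ dep v → w = w'

/-- The graph has a cycle of length `n` (`n ≥ 3`). -/
def HasCyc (s : V → V → Option Θ) (n : ℕ) : Prop :=
  3 ≤ n ∧ ∃ f : ZMod n → V, Function.Injective f ∧ ∀ i, s (f i) (f (i + 1)) ≠ none

/-- A reduced closed walk of length `m` in the space of types: the types `P i` and the binary types `σ i` of the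
edges from `P i` to `P (i + 1)`; an edge may be followed by its reverse only if its reverse has
multiplicity at least 2. -/
structure Red (D : Dat Q Θ) (m : ℕ) (P : ℕ → Q) (σ : ℕ → Θ) : Prop where
  pos : 0 < m
  perP : ∀ i, P (i + m) = P i
  perσ : ∀ i, σ (i + m) = σ i
  inf : ∀ i, D.c (P i) = ⊤
  ne : ∀ i, D.d (P i) (σ i) (P (i + 1)) ≠ 0
  spar : ∀ i, ¬ D.Bi (P i) (σ i) (P (i + 1))
  red : ∀ i, P (i + 2) = P i → σ (i + 1) = D.star (σ i) → 2 ≤ D.d (P (i + 1)) (σ (i + 1)) (P (i + 2))

/-- **Piece CYC** (200 lines; may assume `S_FREE`). Proof: `B` = one point for each infinite type and, for each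
`l ∈ A`, a cycle `ZMod (m * l)` (`m * l ≥ 3`) with labels `P (i.val)`, edges `i → i + 1` of type `σ (i.val)`
(and `star (σ i.val)` from `i + 1` to `i`). `Part.deg` holds by `Red.red` and `Red.ne` (the vertex `i` has the
two neighbours `i + 1`, `i - 1`, of kinds `(σ i, P (i+1))` and `(star (σ (i-1)), P (i-1))`). In the free
completion a cycle `f : ZMod n → V` has a vertex `f i` of maximal depth; if the depth is `≠ 0` then the two
different neighbours `f (i + 1)`, `f (i - 1)` have depth at most that of `f i`, contradiction; so the cycle lies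
in `B`, in one `ZMod (m * l)`, `f (i + 1) = f i ± 1` with the same sign for all `i` (as `f (i+1) ≠ f (i-1)`), so
`f i = f 0 ± i`, hence `m * l ∣ n`, and `n ≤ m * l` by injectivity. -/
def S_CYC : Prop := ∀ (Q Θ : Type) [Countable Θ] (D : Dat Q Θ), {q | D.c q = ⊤}.Countable →
  (∀ p θ q, D.c p = ⊤ → D.c q = ⊤ → D.d p θ q ≠ 0 → D.d q (D.star θ) p ≠ 0) →
  ∀ (m : ℕ) (P : ℕ → Q) (σ : ℕ → Θ), Red D m P σ → ∀ A : Set ℕ, (∀ n ∈ A, 3 ≤ n) →
  ∃ (V : Type) (_ : Countable V) (τ : V → Q) (s : V → V → Option Θ), Sparse D τ s ∧
    ∀ n, HasCyc s n ↔ ∃ l ∈ A, n = m * l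

/-- **Piece REC** (100 lines). A closed relation on a countable compact Hausdorff space with an infinite walk has
a closed walk. Proof: the space `W` of all infinite walks `x : ℕ → E` is closed in `ℕ → E`, so compact, and
nonempty; the shift `T` maps it to itself. Let `Y ⊆ W` be a minimal nonempty closed set with `T Y ⊆ Y` (Zorn and
compactness). The image of `Y` under `x ↦ x 0` is compact, nonempty and countable, so (Baire) it has an
isolated point `a`: `{y ∈ Y | y 0 = a}` is nonempty and open in `Y`. Take `y` in it. The closure of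
`{T^(k+1) y | k}` is a closed nonempty `T`-invariant subset of `Y`, so it is `Y` and meets this open set: some
`y (k + 1) = a = y 0`. So `i ↦ y (i mod (k + 1))` is a closed walk. -/
def S_REC : Prop := ∀ (E : Type) [TopologicalSpace E] [CompactSpace E] [T2Space E] [Countable E]
  (R : Set (E × E)), IsClosed R → (∃ x : ℕ → E, ∀ i, (x i, x (i + 1)) ∈ R) →
  ∃ (m : ℕ) (x : ℕ → E), 0 < m ∧ (∀ i, x (i + m) = x i) ∧ ∀ i, (x i, x (i + 1)) ∈ R

/-- **Piece RAY** (100 lines). An infinite clique subdivision (definition of the results file `FiniteFlips`, copied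
here) contains an infinite simple path that avoids a given finite set. Proof: each point outside the branch
vertices lies on at most one path `P i j`; so there is `K` such that the `v k`, `k ≥ K`, and the paths `P i (i+1)`,
`i ≥ K`, avoid `F`. Concatenate the paths `P K (K+1)`, `P (K+1) (K+2)`, …: consecutive ones meet only in their
common end, others do not meet. -/
def S_RAY : Prop := ∀ (G : SimpleGraph ℕ), (∃ v : ℕ → ℕ, Function.Injective v ∧
    ∃ P : ∀ i j, G.Walk (v i) (v j), (∀ i j, i < j → (P i j).IsPath) ∧
    (∀ i j k, i < j → v k ∈ (P i j).support → k = i ∨ k = j) ∧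
    (∀ i j i' j', i < j → i' < j' → (i, j) ≠ (i', j') → ∀ x, x ∈ (P i j).support →
      x ∈ (P i' j').support → ∃ k, x = v k)) →
  ∀ F : Finset ℕ, ∃ x : ℕ → ℕ, Function.Injective x ∧ (∀ i, G.Adj (x i) (x (i + 1))) ∧ ∀ i, x i ∉ F

end Pool.Agent.H8C2
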