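import Pool.Agent.H8C2.StmA
import Pool.Agent.H834V.Adapt

/-!
# Project H8C2 (helper8): Vaught's conjecture for two-variable logic with counting. Part B

The logic: types, saturation, measurability.
-/

set_option autoImplicit false

namespace Pool.Agent.H8C2

open FirstOrder Set MeasureTheory
open Pool.Agent.H565R2.FO2 (pick Interp Code toI ofI toI_ofI Iso)
open Pool.Agent.H565R2.LO2 (PerfK)

/-- The formulas of first-order logic with the two variables `false`, `true` and the counting quantifiers
'there are at least `n`'. -/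
inductive C2F (L : FirstOrder.Language.{0, 0}) : Type
  | eq : Bool → Bool → C2F L
  | rel : {n : ℕ} → L.Relations n → (Fin n → Bool) → C2F L
  | neg : C2F L → C2F L
  | and : C2F L → C2F L → C2F L
  | ex : Bool → ℕ → C2F L → C2F L

variable {L : FirstOrder.Language.{0, 0}} {M U Y : Type}

/-- Satisfaction, with the values `x` of `false` and `y` of `true`. -/
def Sat (I : Interp L M) : C2F L → M → M → Prop
  | .eq i j, x, y => pick x y i = pick x y j
  | @C2F.rel _ n R v, x, y => I n R (fun k => pick x y (v k))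
  | .neg φ, x, y => ¬ Sat I φ x y
  | .and φ ψ, x, y => Sat I φ x y ∧ Sat I ψ x y
  | .ex false n φ, _, y => (n : ℕ∞) ≤ Set.encard {z | Sat I φ z y}
  | .ex true n φ, x, _ => (n : ℕ∞) ≤ Set.encard {z | Sat I φ x z}

/-- Types of points. -/
abbrev Ty (L : FirstOrder.Language.{0, 0}) : Type := C2F L → Prop

/-- Binary types. -/
abbrev T2 (L : FirstOrder.Language.{0, 0}) : Type := L.Relations 2 → Prop × Prop

/-- The type of a point. -/
def tp (I : Interp L M) (x : M) : Ty L := fun φ => Sat I φ x x

/-- The binary type of a pair. -/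
def th (I : Interp L M) (x y : M) : T2 L := fun R => (I 2 R ![x, y], I 2 R ![y, x])

/-- The numbers of a structure. -/
noncomputable def dat (I : Interp L M) : Dat (Ty L) (T2 L) where
  star := fun θ R => ((θ R).2, (θ R).1)
  star_star := fun _ => rfl
  c q := {y | tp I y = q}.encard
  d p θ q := ⨆ x : {x // tp I x = p}, {y | y ≠ x.1 ∧ tp I y = q ∧ th I x.1 y = θ}.encard

/-- The codes of the structures on `ℕ` in which the formulas in `Φ` hold for all values. -/
def Mod (Φ : Set (C2F L)) : Set (Code L) := {c | ∀ φ ∈ Φ, ∀ x y, Sat (toI c) φ x y}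

/-- Saturation for two-variable formulas: if each finite part of a set of conditions `φ(z_i, z_j)` on countably
many unknowns (and countably many parameters) can be satisfied then so can all of them. -/
def CSat (I : Interp L U) : Prop := ∀ (ι κ : Type) [Countable ι] [Countable κ] (a : ι → U)
  (C : Set (C2F L × (ι ⊕ κ) × (ι ⊕ κ))),
  (∀ s ⊆ C, s.Finite → ∃ b : κ → U, ∀ z ∈ s, Sat I z.1 (Sum.elim a b z.2.1) (Sum.elim a b z.2.2)) →
  ∃ b : κ → U, ∀ z ∈ C, Sat I z.1 (Sum.elim a b z.2.1) (Sum.elim a b z.2.2)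

/-- **Piece SYN** (5 small lemmas, 120 lines; the models are `meas_Rl`, `Rl_iso`, `Rl_congr` in
`H565R2/CO/Mea.lean`, `Fin.lean`). -/
def S_SYN1 : Prop := ∀ (L : FirstOrder.Language.{0, 0}), (∀ n, Countable (L.Relations n)) → Countable (C2F L)

/-- Isomorphisms preserve satisfaction. -/
def S_SYN2 : Prop := ∀ (L : FirstOrder.Language.{0, 0}) (M N : Type) (I : Interp L M) (J : Interp L N)
  (e : M ≃ N), (∀ n (R : L.Relations n) (t : Fin n → M), I n R t ↔ J n R (fun k => e (t k))) →
  ∀ (φ : C2F L) (x y : M), Sat I φ x y ↔ Sat J φ (e x) (e y)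

/-- Measurability (`le_encard_iff` in `H565R2/CO/Mea.lean`). -/
def S_SYN3 : Prop := ∀ (L : FirstOrder.Language.{0, 0}) (φ : C2F L) (x y : ℕ),
  Measurable fun c : Code L => Sat (toI c) φ x y

/-- Satisfaction depends only on the tuples with at most two different entries. -/
def S_SYN4 : Prop := ∀ (L : FirstOrder.Language.{0, 0}) (M : Type) (I I' : Interp L M),
  (∀ n (R : L.Relations n) (v : Fin n → Bool) x y,
    I n R (fun k => pick x y (v k)) ↔ I' n R (fun k => pick x y (v k))) →
  ∀ (φ : C2F L) (x y : M), Sat I φ x y ↔ Sat I' φ x y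

/-- Translation into first-order logic (the quantifiers 'there are at least `n`'). -/
def S_SYN5 : Prop := ∀ (L : FirstOrder.Language.{0, 0}) (φ : C2F L), ∃ ψ : L.Formula Bool,
  ∀ (M : Type) [L.Structure M] (x y : M), ψ.Realize (pick x y) ↔
    Sat (fun n (R : L.Relations n) (v : Fin n → M) => FirstOrder.Language.Structure.RelMap R v) φ x y

/-- **Piece TERN** (40 lines; may assume `S_SYN4`; port of `perf_of_ternary` in `H565R2/CO/Fin.lean`). If there
is a relation of arity at least three then there are perfectly many models. -/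
def S_TERN : Prop := ∀ (L : FirstOrder.Language.{0, 0}) [∀ n, Countable (L.Relations n)]
  (Φ : Set (C2F L)) (n : ℕ), 2 < n → L.Relations n → (Mod Φ).Nonempty → PerfK (Mod Φ)

/-- **Piece SATU** (100 lines; may assume `S_SYN5`). Every structure on `ℕ` has a saturated elementary extension:
`satd_ult`, `sameT_diag` in `Hp8VC/Sat.lean` for `U = H968.Ult _` (see also `Hp8VC/Dich.lean` for the use); from
`Satd` to `CSat` translate the conditions into formulas by `S_SYN5` and `Formula.relabel` (as
`Satd` allows arbitrary countable index types for unknowns and parameters). -/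
def S_SATU : Prop := ∀ (L : FirstOrder.Language.{0, 0}) [Countable L.Symbols] [L.IsRelational]
  (I : Interp L ℕ), ∃ (U : Type) (J : Interp L U) (f : ℕ → U), CSat J ∧
    ∀ (φ : C2F L) (x y : ℕ), Sat I φ x y ↔ Sat J φ (f x) (f y)

/-- **Piece FML** (100 lines). Some formulas. `Sat I χ x y ↔ Sat I ψ y y` for
`χ = ex false 1 ((x = y) ∧ ψ)`, `↔ Sat I ψ x x` for `χ = ex true 1 ((x = y) ∧ ψ)`. The binary type: a finite
conjunction over `L.Relations 2`. -/
def S_FML1 : Prop := ∀ (L : FirstOrder.Language.{0, 0}) (ψ : C2F L),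
  (∃ χ : C2F L, ∀ (M : Type) (I : Interp L M) (x y : M), Sat I χ x y ↔ Sat I ψ x x) ∧
  (∃ χ : C2F L, ∀ (M : Type) (I : Interp L M) (x y : M), Sat I χ x y ↔ Sat I ψ y y)

def S_FML2 : Prop := ∀ (L : FirstOrder.Language.{0, 0}) [Finite (L.Relations 2)] (θ : T2 L),
  ∃ χ : C2F L, ∀ (M : Type) (I : Interp L M) (x y : M), Sat I χ x y ↔ th I x y = θ

def S_FML3 : Prop := ∀ (L : FirstOrder.Language.{0, 0}) [Finite (L.Relations 2)] (k : ℕ) (θ : T2 L)
  (ψ : C2F L), ∃ χ : C2F L, ∀ (M : Type) (I : Interp L M) (x y : M), Sat I χ x y ↔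
    (k : ℕ∞) ≤ {z | z ≠ x ∧ th I x z = θ ∧ Sat I ψ z z}.encard

def S_FML4 : Prop := ∀ (L : FirstOrder.Language.{0, 0}) (k : ℕ) (ψ : C2F L),
  ∃ χ : C2F L, ∀ (M : Type) (I : Interp L M) (x y : M), Sat I χ x y ↔
    (k : ℕ∞) ≤ {z | Sat I ψ z z}.encard

/-- **Piece DEG** (150 lines; may assume `S_FML1..4`, `S_SYN1`). In a saturated structure the numbers are
determined by the formulas. `→` is clear. `←`: unknowns `z_0, …, z_{k-1}`, parameter `x`, conditions
`z_i ≠ z_j`, `z_i ≠ x`, `th x z_i = θ`, `ψ(z_i, z_i)` for all `ψ` with `q ψ`; a finite part of them is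
satisfiable as `q` (a realised type) is closed under conjunction, and `tp z = q` iff `ψ(z, z)` for all `ψ` with
`q ψ` (negations). -/
def S_DEG1 : Prop := ∀ (L : FirstOrder.Language.{0, 0}) [∀ n, Countable (L.Relations n)]
  [Finite (L.Relations 2)] (U : Type) (J : Interp L U), CSat J → ∀ (x y₀ : U) (θ : T2 L) (k : ℕ),
  ((k : ℕ∞) ≤ {y | y ≠ x ∧ tp J y = tp J y₀ ∧ th J x y = θ}.encard ↔
    ∀ ψ : C2F L, Sat J ψ y₀ y₀ → (k : ℕ∞) ≤ {z | z ≠ x ∧ th J x z = θ ∧ Sat J ψ z z}.encard)

def S_DEG2 : Prop := ∀ (L : FirstOrder.Language.{0, 0}) [∀ n, Countable (L.Relations n)]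
  (U : Type) (J : Interp L U), CSat J → ∀ (y₀ : U) (k : ℕ),
  ((k : ℕ∞) ≤ {y | tp J y = tp J y₀}.encard ↔
    ∀ ψ : C2F L, Sat J ψ y₀ y₀ → (k : ℕ∞) ≤ {z | Sat J ψ z z}.encard)

/-- So the degrees of `x` depend only on the type of `x` (`S_FML3`) and the structure fits its numbers. -/
def S_DEG3 : Prop := ∀ (L : FirstOrder.Language.{0, 0}) [∀ n, Countable (L.Relations n)]
  [Finite (L.Relations 2)] (U : Type) (J : Interp L U), CSat J → Fits (dat J) (tp J) (th J)

/-- **Piece TC** (250 lines). A countable labelled structure with the numbers of a structure `J` is a model of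
the sentences of `J`, with the given types and binary types. Proof: interpretation `K` on `Y`: `R (y, …, y)` iff
`t' y (rel R (fun _ => false))` (for arity 0: for any `y`; in `J` it does not depend on the point and all
labels `t' y` are types of points of `J`, by `Fits.card`), `R (y, z)` iff `(g' y z R).1` for
`y ≠ z`. Claim, by induction on `φ`: if `t' y = tp J u`, `t' z = tp J v` and (`y = z ∧ u = v` or `y ≠ z ∧ u ≠ v ∧
g' y z = th J u v`) then `Sat K φ y z ↔ Sat J φ u v`. Quantifier step, e.g. `ex true n φ`: the truth of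
`φ(y, z)` depends only on the kind of `z`, which is '`z = y`' or `(t' z, g' y z)`; each kind has the same
`encard` in `Y` (over `y`) and in `U` (over `u`), by the two `Fits`; and if `f : A → ι`, `f' : B → ι` have fibres
of equal `encard` then `{a | P (f a)}.encard` and `{b | P (f' b)}.encard` are `≥ n` for the same `n` (take
`n` elements, finitely many fibres). Then transport to `ℕ` by a bijection (`S_SYN2` may be assumed). -/
def S_TC : Prop := ∀ (L : FirstOrder.Language.{0, 0}), (∀ n, 2 < n → IsEmpty (L.Relations n)) →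
  ∀ (U : Type) (J : Interp L U), Fits (dat J) (tp J) (th J) → ∀ Φ : Set (C2F L),
  (∀ φ ∈ Φ, ∀ x y, Sat J φ x y) → ∀ (Y : Type) [Countable Y] [Infinite Y] (t' : Y → Ty L) (g' : Y → Y → T2 L),
  Fits (dat J) t' g' → ∃ c ∈ Mod Φ, ∃ e : Y ≃ ℕ, (∀ y, tp (toI c) (e y) = t' y) ∧
    ∀ y z, y ≠ z → th (toI c) (e y) (e z) = g' y z

/-- **Piece LS** (80 lines; may assume `S_SYN1`). Downward Löwenheim-Skolem for two-variable formulas: close a
countable infinite set under: for each formula, each `x` and each `n`, `n` witnesses (or all, if fewer). -/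
def S_LS : Prop := ∀ (L : FirstOrder.Language.{0, 0}) [∀ n, Countable (L.Relations n)] (U : Type) [Infinite U]
  (J : Interp L U) (S : Set U), S.Countable → ∃ N : Set U, S ⊆ N ∧ N.Countable ∧ N.Infinite ∧
  ∀ (φ : C2F L) (x y : N), Sat (fun n R (v : Fin n → N) => J n R fun k => (v k : U)) φ x y ↔ Sat J φ x y

/-- **Piece UT** (100 lines; may assume `S_SYN1`, `S_SYN2`, `S_SYN3`, `S_LS`; `perfK_of_inv` in
`H565R2/LO2/Dich.lean` with `Y = Mod Φ`, `ι = ℕ`, `Z = C2F L → Bool`). Uncountably many types give perfectly many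
models: if not `PerfK (Mod Φ)` then countably many types are realised in the models on `ℕ`, so (`S_LS`) in any
infinite model. -/
def S_UT : Prop := ∀ (L : FirstOrder.Language.{0, 0}) [∀ n, Countable (L.Relations n)] (Φ : Set (C2F L)),
  ¬ PerfK (Mod Φ) → ∀ (U : Type) [Infinite U] (J : Interp L U), (∀ φ ∈ Φ, ∀ x y, Sat J φ x y) →
  (range (tp J)).Countable

/-- The first invariant: the sizes of the classes of the relation 'the rows of `x`, `x'` differ at finitely many
points of type `q` with binary types in `B`'. -/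
def InvA (p q : Ty L) (B : Set (T2 L)) (I : Interp L M) (n : ℕ) : Prop :=
  ∃ x, tp I x = p ∧ {x' | tp I x' = p ∧ {y | tp I y = q ∧ y ≠ x ∧ y ≠ x' ∧ th I x y ∈ B ∧ th I x' y ∈ B ∧
    th I x y ≠ th I x' y}.Finite}.encard = n

/-- The second invariant: the lengths of the cycles with typed edges in `E`. -/
def InvB (E : Set (Ty L × T2 L × Ty L)) (I : Interp L M) (n : ℕ) : Prop :=
  3 ≤ n ∧ ∃ f : ZMod n → M, Function.Injective f ∧
    ∀ i, (tp I (f i), th I (f i) (f (i + 1)), tp I (f (i + 1))) ∈ E

/-- **Piece MEA** (150 lines; may assume `S_SYN1`, `S_SYN2`, `S_SYN3`; `perfK_of_inv` with `Y = Mod Φ`,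
`ι = Unit`, `Z = ℕ → Bool`). The invariants are Borel (countable quantifiers; a set of naturals is finite iff it is
bounded, has `n` elements iff it is some `Finset`; `ZMod n → ℕ` is countable for `n ≥ 3`) and respect isomorphism;
and there are uncountably many sets `A`. -/
def S_MEA : Prop := ∀ (L : FirstOrder.Language.{0, 0}) [∀ n, Countable (L.Relations n)]
  [Finite (L.Relations 2)] (Φ : Set (C2F L)) (p q : Ty L) (B : Set (T2 L)),
  (∀ A : Set ℕ, A.Nonempty → (∀ n ∈ A, 2 ≤ n) → ∃ c ∈ Mod Φ, ∀ n, InvA p q B (toI c) n ↔ n ∈ A) →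
  PerfK (Mod Φ)

def S_MEB : Prop := ∀ (L : FirstOrder.Language.{0, 0}) [∀ n, Countable (L.Relations n)] (Φ : Set (C2F L))
  (E : Set (Ty L × T2 L × Ty L)) (m : ℕ), E.Countable → 0 < m →
  (∀ A : Set ℕ, (∀ n ∈ A, 3 ≤ n) → ∃ c ∈ Mod Φ, ∀ n, InvB E (toI c) n ↔ ∃ l ∈ A, n = m * l) →
  PerfK (Mod Φ)

/-- The saturated structures that remain. -/
structure Good (J : Interp L U) : Prop where
  sat : CSat J
  fits : Fits (dat J) (tp J) (th J)
  cnt : (range (tp J)).Countable
  bi : ∀ p q, (dat J).c p = ⊤ → (dat J).c q = ⊤ → ∃! θ, (dat J).Bi p θ q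
  nored : ¬ ∃ m P σ, Red (dat J) m P σ

/-- **Piece PART** (200 lines; may assume `S_FML1..4`, `S_DEG1`, `S_DEG2`, `S_SYN1`). The generic binary type
depends only on finitely many formulas. Proof: if not then for every finite set `F` of formulas there are
`u, v, u', v'` with infinite types, such that `u, u'` and `v, v'` agree on the formulas in `F`, and `θ ≠ θ'`
with `Bi (tp u) θ (tp v)`, `Bi (tp u') θ' (tp v')`; we may take the same `θ`, `θ'` for all `F` (finitely many pairs,
directedness). The conditions: '`φ(u, u) ↔ φ(u', u')`', '`φ(v, v) ↔ φ(v', v')`'; '`tp u` is infinite': for all `ψ`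
and `k`, `ψ(u, u)` implies at least `k` points satisfy `ψ` (`S_DEG2`); '`Bi (tp u) θ (tp v)`': for all `ψ`, `k`,
`ψ(v, v)` implies `k ≤ {z | z ≠ u ∧ th u z = θ ∧ ψ(z, z)}` and symmetrically (`S_DEG1`, and `d p θ q` is the degree
of any point of type `p` by `Good.fits`). By `CSat` (4 unknowns) there are `u, v, u', v'` satisfying all of
them, then `tp u = tp u'`, `tp v = tp v'`, contradicting `Good.bi`. -/
def S_PART : Prop := ∀ (L : FirstOrder.Language.{0, 0}) [∀ n, Countable (L.Relations n)]
  [Finite (L.Relations 2)] (U : Type) (J : Interp L U), Good J →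
  ∃ (F : Finset (C2F L)) (G : ({φ // φ ∈ F} → Prop) → ({φ // φ ∈ F} → Prop) → T2 L),
    ∀ u v : U, (dat J).c (tp J u) = ⊤ → (dat J).c (tp J v) = ⊤ →
      (dat J).Bi (tp J u) (G (fun φ => Sat J φ.1 u u) (fun φ => Sat J φ.1 v v)) (tp J v)

/-- **Piece WALK** (250 lines; may assume `S_REC`, `S_FML1..4`, `S_DEG1`, `S_DEG2`, `S_SYN1`). There is no infinite
simple path of sparse edges between points with infinite types. Proof: let `E` be the set of the typed edges
`(p, θ, q)` with `c p = c q = ⊤`, `d p θ q ≠ 0`, not `Bi p θ q`, as a subspace of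
`(C2F L → Bool) × T2 L × (C2F L → Bool)` (use `Bool`, with `decide`; `Prop` has the wrong topology; `T2 L` is
finite, give it the discrete topology). `E` is countable (`Good.cnt`) and closed: a limit of types is realised
(`CSat`), '`c p = ⊤`' and '`d p θ q ≠ 0`' are closed conditions by `S_DEG1`, `S_DEG2`, and 'not `Bi p θ q`' is '`Bi p θ' q`
for some `θ' ≠ θ`' by `Good.bi`, a finite union of closed conditions. The relation `R`: `(p, θ, q)` is followed by
`(q, θ', p')`, and if `p' = p`, `θ' = star θ` then `2 ≤ d q θ' p'`. It is closed: at a limit point with `p' = p`,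
`θ' = star θ` and `d q θ' p ≤ 1` there is `ψ` with `p ψ` such that the points of type `q` have at most one
`θ'`-neighbour satisfying `ψ` (`S_DEG1`, `k = 2`); this is a formula satisfied by `q`, so by all types near `q`,
hence no pair in `R` is near: it would be `(p₁, θ, q₁)`, `(q₁, θ', p₂)` with `p₁ ψ`, `p₂ ψ`, and `p₁ ≠ p₂` gives two
neighbours, `p₁ = p₂` gives multiplicity `≥ 2`. An injective path gives an infinite `R`-walk in `E` (if the
walk goes back then `x i`, `x (i + 2)` are two different neighbours of `x (i + 1)` of the same kind). By `S_REC` there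
is a periodic walk, i.e. a `Red`, contradicting `Good.nored`. -/
def S_WALK : Prop := ∀ (L : FirstOrder.Language.{0, 0}) [∀ n, Countable (L.Relations n)]
  [Finite (L.Relations 2)] (U : Type) (J : Interp L U), Good J →
  ¬ ∃ x : ℕ → U, Function.Injective x ∧ (∀ i, (dat J).c (tp J (x i)) = ⊤) ∧
    ∀ i, ¬ (dat J).Bi (tp J (x i)) (th J (x i) (x (i + 1))) (tp J (x (i + 1)))

/-- `G` contains a subdivision of the infinite complete graph (as in the results file `FiniteFlips`). -/
def HasSub (G : SimpleGraph ℕ) : Prop :=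
  ∃ v : ℕ → ℕ, Function.Injective v ∧ ∃ P : ∀ i j, G.Walk (v i) (v j),
    (∀ i j, i < j → (P i j).IsPath) ∧
    (∀ i j k, i < j → v k ∈ (P i j).support → k = i ∨ k = j) ∧
    (∀ i j i' j', i < j → i' < j' → (i, j) ≠ (i', j') → ∀ x, x ∈ (P i j).support →
      x ∈ (P i' j').support → ∃ k, x = v k)

/-- Finite flips of graphs without infinite clique subdivision. -/
def Flip (I : Interp L ℕ) : Prop := ∃ (S : SimpleGraph ℕ) (k : ℕ) (p : ℕ → Fin k)
  (f : L.Relations 2 → Fin k → Fin k → Prop), ¬ HasSub S ∧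
  ∀ (R : L.Relations 2) (u v : ℕ), u ≠ v → ¬ S.Adj u v → (I 2 R ![u, v] ↔ f R (p u) (p v))

/-- **Piece FLIP** (150 lines; may assume `S_PART`, `S_WALK`, `S_RAY`, `S_FML1..4`, `S_DEG2`, `S_SYN1`). Proof: `F`, `G` from
`S_PART`; `I` is embedded in `J` by `f` (injective). Colours: the truth values of the formulas in `F`.
`S.Adj u v`: `u ≠ v` and (`th u v ≠ G u v` or `th v u ≠ G v u`). If `HasSub S` then by `S_RAY` there are injective
`S`-paths avoiding any finite set; so by `CSat` there is an injective path `x : ℕ → U` for the same relation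
(a formula) in `J` such that no `x i` satisfies a formula `φ(z, z)` with finitely many solutions; so the types
of the `x i` are infinite (`S_DEG2`) and the edges are not generic (`Good.bi`), contradicting `S_WALK`. -/
def S_FLIP : Prop := ∀ (L : FirstOrder.Language.{0, 0}) [∀ n, Countable (L.Relations n)]
  [Finite (L.Relations 2)] (U : Type) (J : Interp L U), Good J → ∀ (I : Interp L ℕ) (f : ℕ → U),
  (∀ (φ : C2F L) (x y : ℕ), Sat I φ x y ↔ Sat J φ (f x) (f y)) → Flip I

/-- **Piece CONV** (150 lines). The dichotomy for Borel classes of finite flips, from the library theorem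
`Pool.Agent.TH425.FF.flip_all` (see the results file `Results/MP_5df2c5_lc/FiniteFlips.lean`: `result` with
`Tame.flip`, `Vaught FlipSparse`), transported from `Str a` (`a : ℕ → ℕ` enumerates the arities of the relation
symbols; if there are finitely many symbols repeat one, if there is none add an empty relation) to `Code L`. -/
def S_CONV : Prop := ∀ (L : FirstOrder.Language.{0, 0}) [∀ n, Countable (L.Relations n)],
  (∀ n, 2 < n → IsEmpty (L.Relations n)) → ∀ K : Set (Code L), MeasurableSet K →
  (∀ c c', Iso c c' → c ∈ K → c' ∈ K) → (∀ c ∈ K, Flip (toI c)) →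
  (∃ g : ℕ → Code L, ∀ c ∈ K, ∃ n, Iso c (g n)) ∨ PerfK K

end Pool.Agent.H8C2
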